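import Pool.Agent.Zk93.FT.TwoQ

/-! The mean two-time profile as a series. -/

set_option autoImplicit false

open scoped BigOperators Topology InnerProductSpace
open MeasureTheory Filter

namespace Pool.Agent.Zk93.FT

open Pool.Agent.Zk11.QD (Zd HZ PZ)
open Pool.Agent.Zk11.QQ (sh ex ex_norm)
open Pool.Agent.Zk93.TE

variable {d : ℕ}

theorem Spc2_tsum (μ : Measure ℝ) [IsProbabilityMeasure μ] {b : ℝ} (hb0 : 0 ≤ b)
    (hb : ∀ᵐ s ∂μ, |s| ≤ b) (lam : ℝ) (θ : Fin d → ℝ) (s t : ℝ)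
    (ψ : (Zd d → ℝ) → ℝ → Zd d → ℂ) (hψ : ∀ᵐ ω ∂(PZ d μ), Ev lam ω 0 (ψ ω)) :
    (Summable fun x => ‖∫ ω, (starRingEnd ℂ) (ψ ω (t + s) x) * ψ ω t x ∂(PZ d μ)‖) ∧
    ∑' x : Zd d, ex θ x * (∫ ω, (starRingEnd ℂ) (ψ ω (t + s) x) * ψ ω t x ∂(PZ d μ)) =
      mf2 μ b lam θ s t := by
  set f : Zd d → (Zd d → ℝ) → ℂ := fun x ω =>
    (starRingEnd ℂ) (psi lam (cl b ω) 0 (t + s) x) * psi lam (cl b ω) 0 t x with hf
  have hI : ∀ x, ∫ ω, (starRingEnd ℂ) (ψ ω (t + s) x) * ψ ω t x ∂(PZ d μ) =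
      ∫ ω, f x ω ∂(PZ d μ) := by
    intro x
    refine integral_congr_ae ?_
    have h1 : ∀ᵐ ω ∂(PZ d μ), ∀ x : Zd d, |ω x| ≤ b := Pool.Agent.Zk11.QQ.ae_Z μ b hb
    filter_upwards [h1, hψ] with ω h2 h3
    rw [hf]
    simp only
    rw [cl_eq h2, ev_unique h2 h3 (psi_ev h2 0)]
  simp only [hI]
  have hm : ∀ x, Measurable (f x) := fun x =>
    (Complex.continuous_conj.measurable.comp (psi_meas hb0 lam 0 (t + s) x)).mul
      (psi_meas hb0 lam 0 t x)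
  have hle : ∀ x ω, ‖f x ω‖ ≤ (‖psi lam (cl b ω) 0 (t + s) x‖ ^ 2 +
      ‖psi lam (cl b ω) 0 t x‖ ^ 2) / 2 := by
    intro x ω
    rw [hf]
    simp only
    rw [norm_mul, RCLike.norm_conj]
    nlinarith [sq_nonneg (‖psi lam (cl b ω) 0 (t + s) x‖ - ‖psi lam (cl b ω) 0 t x‖)]
  have h1' : ∀ x ω, ‖f x ω‖ ≤ 1 := by
    intro x ω
    rw [hf]
    simp only
    rw [norm_mul, RCLike.norm_conj]
    exact mul_le_one₀ ((psi_ev (cl_bd hb0 ω) 0).le_one _ x) (norm_nonneg _)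
      ((psi_ev (cl_bd hb0 ω) 0).le_one _ x)
  have hi : ∀ x, Integrable (f x) (PZ d μ) := fun x =>
    Integrable.of_bound (hm x).aestronglyMeasurable 1 (Eventually.of_forall fun ω => h1' x ω)
  have hs : Summable fun x => ∫ ω, ‖f x ω‖ ∂(PZ d μ) := by
    refine summable_of_sum_le (c := 1) (fun x => integral_nonneg fun _ => norm_nonneg _)
      fun F => ?_
    rw [← integral_finsetSum _ fun x _ => (hi x).norm]
    have h1 : ∫ ω, ∑ x ∈ F, ‖f x ω‖ ∂(PZ d μ) ≤ ∫ _ω, (1 : ℝ) ∂(PZ d μ) := by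
      refine integral_mono (integrable_finsetSum _ fun x _ => (hi x).norm) (integrable_const _)
        fun ω => ?_
      refine (Finset.sum_le_sum fun x _ => hle x ω).trans ?_
      exact sum_le_hasSum F (fun x _ => by positivity) (sp2_hs (psi_ev (cl_bd hb0 ω) 0) s t)
    simpa using h1
  refine ⟨Summable.of_nonneg_of_le (fun _ => norm_nonneg _)
    (fun x => norm_integral_le_integral_norm _) hs, ?_⟩
  have h2 := (int_tsum (μ := PZ d μ) (fun (x : Zd d) (ω : Zd d → ℝ) => ex θ x * f x ω)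
    (fun x => (hi x).const_mul _)
    (by
      refine hs.congr fun x => ?_
      refine integral_congr_ae (Eventually.of_forall fun ω => ?_)
      change ‖f x ω‖ = ‖ex θ x * f x ω‖
      rw [norm_mul (ex θ x), ex_norm, one_mul])
    (fun ω => Sp2_summable (psi_ev (cl_bd hb0 ω) 0) θ s t)).2
  unfold mf2 Spc2 Sp2
  rw [← h2.tsum_eq]
  refine tsum_congr fun x => ?_
  rw [integral_const_mul]

end Pool.Agent.Zk93.FT
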