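import Pool.Agent.Zk11.QQ.Zc

/-! Concentration for continuous functions of the whole configuration. -/

set_option autoImplicit false

open scoped BigOperators Topology ENNReal
open MeasureTheory Filter

namespace Pool.Agent.Zk93.FT

open Pool.Agent.Zk11.QD (Zd PZ)
open Pool.Agent.Zk11.QQ (PM conc)

variable {d : ℕ}

/-- extension by zero -/
noncomputable def ext0 (Λ : Finset (Zd d)) (V : Λ → ℝ) (x : Zd d) : ℝ :=
  if h : x ∈ Λ then V ⟨x, h⟩ else 0

theorem ext0_cont (Λ : Finset (Zd d)) : Continuous (ext0 Λ) := by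
  refine continuous_pi fun x => ?_
  unfold ext0
  by_cases h : x ∈ Λ
  · simp only [dif_pos h]
    exact continuous_apply _
  · simp only [dif_neg h]
    exact continuous_const

theorem ext0_up (Λ : Finset (Zd d)) (V : Λ → ℝ) (v : Λ) :
    ext0 Λ (Function.update V v 0) = Function.update (ext0 Λ V) v 0 := by
  funext x
  unfold ext0
  rw [Function.update_apply]
  by_cases h : x ∈ Λ
  · rw [dif_pos h]
    by_cases h2 : x = v
    · subst h2
      simp
    · rw [if_neg h2, dif_pos h, Function.update_of_ne]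
      intro h3
      exact h2 (congrArg Subtype.val h3)
  · rw [dif_neg h, dif_neg h]
    simp

/-- the boxes -/
noncomputable def bx (d n : ℕ) : Finset (Zd d) := Finset.Icc (fun _ => -(n : ℤ)) (fun _ => (n : ℤ))

theorem bx_ev (x : Zd d) : ∀ᶠ n : ℕ in atTop, x ∈ bx d n := by
  have h1 : ∀ i, ∀ᶠ n : ℕ in atTop, -(n : ℤ) ≤ x i ∧ x i ≤ n := by
    intro i
    filter_upwards [eventually_ge_atTop (x i).natAbs] with n hn
    omega
  filter_upwards [eventually_all.2 h1] with n hn
  unfold bx
  rw [Finset.mem_Icc]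
  exact ⟨fun i => (hn i).1, fun i => (hn i).2⟩

theorem bx_lim (ω : Zd d → ℝ) :
    Tendsto (fun n : ℕ => ext0 (bx d n) (fun v => ω v)) atTop (𝓝 ω) := by
  rw [tendsto_pi_nhds]
  intro x
  refine tendsto_const_nhds.congr' ?_
  filter_upwards [bx_ev x] with n hn
  unfold ext0
  rw [dif_pos hn]

theorem res_map (μ : Measure ℝ) [IsProbabilityMeasure μ] (Λ : Finset (Zd d)) :
    (PZ d μ).map (fun ω (v : Λ) => ω v) = PM Λ μ := by
  have := Measure.infinitePi_map_restrict (μ := fun _ : Zd d => μ) (I := Λ)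
  exact this

/-- **concentration** -/
theorem lconc (μ : Measure ℝ) [IsProbabilityMeasure μ] (X : (Zd d → ℝ) → ℝ) (hX : Continuous X)
    (hX1 : ∀ ω, |X ω| ≤ 1) (a : ℝ) (ha : 0 < a)
    (hD : ∀ (Λ : Finset (Zd d)) (ω : Zd d → ℝ),
      ∑ v ∈ Λ, (X ω - X (Function.update ω v 0)) ^ 2 ≤ a) (s : ℝ) :
    (PZ d μ) {ω | s < |X ω - ∫ ω, X ω ∂(PZ d μ)|} ≤
      ENNReal.ofReal (10 * Real.exp (-(s / (2 * Real.sqrt a)))) := by
  classical
  set p := 10 * Real.exp (-(s / (2 * Real.sqrt a))) with hp
  have hp0 : 0 ≤ p := by positivity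
  set f : (n : ℕ) → (bx d n → ℝ) → ℝ := fun n V => X (ext0 (bx d n) V) with hf
  have hfc : ∀ n, Continuous (f n) := fun n => hX.comp (ext0_cont _)
  have hrm : ∀ n, Measurable fun (ω : Zd d → ℝ) (v : bx d n) => ω v := fun n => by fun_prop
  set c : ℕ → ℝ := fun n => ∫ V, f n V ∂(PM (bx d n) μ) with hc
  set c0 := ∫ ω, X ω ∂(PZ d μ) with hc0
  have hlim : ∀ ω, Tendsto (fun n => f n fun v => ω v) atTop (𝓝 (X ω)) := fun ω =>
    (hX.tendsto ω).comp (bx_lim ω)
  have hcl : Tendsto c atTop (𝓝 c0) := by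
    have e1 : ∀ n, c n = ∫ ω, f n (fun v => ω v) ∂(PZ d μ) := by
      intro n
      rw [hc]
      simp only
      rw [← res_map μ (bx d n), integral_map (hrm n).aemeasurable]
      exact (hfc n).aestronglyMeasurable
    rw [show c = fun n => ∫ ω, f n (fun v => ω v) ∂(PZ d μ) from funext e1]
    refine tendsto_integral_filter_of_dominated_convergence (fun _ => 1) ?_ ?_
      (integrable_const _) ?_
    · exact Eventually.of_forall fun n => ((hfc n).measurable.comp (hrm n)).aestronglyMeasurable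
    · exact Eventually.of_forall fun n => Eventually.of_forall fun ω => hX1 _
    · exact Eventually.of_forall fun ω => hlim ω
  set A : ℕ → Set (Zd d → ℝ) := fun n => {ω | s < |f n (fun v => ω v) - c n|} with hA
  have hAp : ∀ n, (PZ d μ) (A n) ≤ ENNReal.ofReal p := by
    intro n
    have hm : MeasurableSet {V : bx d n → ℝ | s < |f n V - c n|} :=
      (isOpen_lt continuous_const ((hfc n).sub continuous_const).abs).measurableSet
    have h5 : A n = (fun (ω : Zd d → ℝ) (v : bx d n) => ω v) ⁻¹' {V | s < |f n V - c n|} := rfl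
    rw [h5, ← Measure.map_apply (hrm n) hm, res_map]
    have h4 := conc μ (f n) (hfc n) (fun V => hX1 _) a ha (Eventually.of_forall fun V => by
      have h6 := hD (bx d n) (ext0 (bx d n) V)
      rw [← Finset.sum_coe_sort] at h6
      refine le_trans (le_of_eq (Finset.sum_congr rfl fun v _ => ?_)) h6
      rw [hf]
      simp only
      rw [ext0_up]) s
    have h7 : (PM (bx d n) μ).real {V | s < |f n V - c n|} ≤ p :=
      (measureReal_mono (fun V (hV : s < |f n V - c n|) => hV.le)).trans h4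
    rw [measureReal_def] at h7
    exact (ENNReal.le_ofReal_iff_toReal_le (measure_ne_top _ _) hp0).2 h7
  set C : ℕ → Set (Zd d → ℝ) := fun N => ⋂ h ≥ N, A h with hC
  have hCm : Monotone C := by
    intro M N hMN ω hω
    rw [hC] at hω ⊢
    simp only [Set.mem_iInter] at hω ⊢
    exact fun h hh => hω h (hMN.trans hh)
  have hU : (PZ d μ) (⋃ N, C N) ≤ ENNReal.ofReal p := by
    rw [hCm.measure_iUnion]
    refine iSup_le fun N => ?_
    refine le_trans (measure_mono ?_) (hAp N)
    intro ω hω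
    rw [hC] at hω
    simp only [Set.mem_iInter] at hω
    exact hω _ le_rfl
  refine le_trans (measure_mono ?_) hU
  intro ω hω2
  have h8 : s < |X ω - c0| := hω2
  have h9 := ((hlim ω).sub hcl).abs
  obtain ⟨N, hN⟩ := eventually_atTop.1 (h9.eventually_const_lt h8)
  rw [Set.mem_iUnion]
  refine ⟨N, ?_⟩
  rw [hC]
  simp only [Set.mem_iInter]
  exact fun h hh => hN h hh

end Pool.Agent.Zk93.FT
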