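import Pool.Agent.Zk93.FT.Dif

/-! Continuity of the profile in the configuration, in time and in the momentum. -/

set_option autoImplicit false

open scoped BigOperators Topology InnerProductSpace
open MeasureTheory Filter

namespace Pool.Agent.Zk93.FT

open Pool.Agent.Zk11.QD (Zd HZ PZ)
open Pool.Agent.Zk11.QQ (sh ex ex_norm)
open Pool.Agent.Zk93.TE

variable {d : ℕ}

/-! ### continuity in the configuration -/

theorem it_cont (lam b : ℝ) (y : Zd d) (n : ℕ) (x : Zd d) :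
    Continuous fun ω : Zd d → ℝ => it lam (cl b ω) y n x := by
  induction n generalizing x with
  | zero => exact continuous_const
  | succ n ih =>
    have h1 : (fun ω : Zd d → ℝ => it lam (cl b ω) y (n + 1) x) = fun ω =>
        -∑ i : Fin d, ((it lam (cl b ω) y n (x + Pi.single i 1) - it lam (cl b ω) y n x) +
          (it lam (cl b ω) y n (x - Pi.single i 1) - it lam (cl b ω) y n x)) +
        ((lam * cl b ω x : ℝ) : ℂ) * it lam (cl b ω) y n x := rfl
    rw [h1]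
    have h2 : Continuous fun ω : Zd d → ℝ => cl b ω x := by
      unfold cl
      exact continuous_const.max (continuous_const.min (continuous_apply x))
    refine Continuous.add (Continuous.neg ?_) ?_
    · exact continuous_finsetSum _ fun i _ =>
        ((ih _).sub (ih x)).add ((ih _).sub (ih x))
    · exact (Complex.continuous_ofReal.comp (continuous_const.mul h2)).mul (ih x)

theorem psi_cont {b : ℝ} (hb : 0 ≤ b) (lam : ℝ) (y : Zd d) (t : ℝ) (x : Zd d) :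
    Continuous fun ω : Zd d → ℝ => psi lam (cl b ω) y t x := by
  unfold psi
  refine continuous_tsum (u := fun n : ℕ => |t| ^ n / (n.factorial : ℝ) * Kb d lam b ^ n)
    (fun n => (it_cont lam b y n x).const_mul (co n t) |> fun h => h) (ex_summable _ _) ?_
  intro n ω
  rw [norm_mul, co_norm]
  have := it_sup (lam := lam) (cl_bd hb ω) y n x
  gcongr

/-- the tail of a probability distribution -/
theorem tail_le {p : Zd d → ℝ} (hp0 : ∀ x, 0 ≤ p x) (hp : HasSum p 1) (e : Zd d → ℂ)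
    (he : ∀ x, ‖e x‖ ≤ 1) (F : Finset (Zd d)) :
    ‖∑' x, e x * ((p x : ℝ) : ℂ) - ∑ x ∈ F, e x * ((p x : ℝ) : ℂ)‖ ≤ 1 - ∑ x ∈ F, p x := by
  have hn : ∀ x, ‖e x * ((p x : ℝ) : ℂ)‖ ≤ p x := by
    intro x
    rw [norm_mul, Complex.norm_real, Real.norm_eq_abs, abs_of_nonneg (hp0 x)]
    exact mul_le_of_le_one_left (hp0 x) (he x)
  have hs : Summable fun x => ‖e x * ((p x : ℝ) : ℂ)‖ :=
    Summable.of_nonneg_of_le (fun _ => norm_nonneg _) hn hp.summable
  have h1 := hs.of_norm.sum_add_tsum_subtype_compl F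
  have h2 := hp.summable.sum_add_tsum_subtype_compl F
  rw [hp.tsum_eq] at h2
  rw [← h1, add_sub_cancel_left]
  have h3 : 1 - ∑ x ∈ F, p x = ∑' x : { x // x ∉ F }, p x := by linarith
  rw [h3]
  have hs' := hs.comp_injective (Subtype.val_injective (p := fun x => x ∉ F))
  refine (norm_tsum_le_tsum_norm hs').trans ?_
  exact hs'.tsum_le_tsum (fun x => hn x)
    (hp.summable.comp_injective (Subtype.val_injective (p := fun x => x ∉ F)))

/-- pointwise convergence of probability distributions is convergence of the transforms -/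
theorem scheffe {Ω : Type} [TopologicalSpace Ω] (p : Ω → Zd d → ℝ) (hp0 : ∀ ω x, 0 ≤ p ω x)
    (hp : ∀ ω, HasSum (p ω) 1) (hc : ∀ x, Continuous fun ω => p ω x) (e : Zd d → ℂ)
    (he : ∀ x, ‖e x‖ ≤ 1) : Continuous fun ω => ∑' x, e x * ((p ω x : ℝ) : ℂ) := by
  rw [continuous_iff_continuousAt]
  intro ω0
  rw [ContinuousAt, Metric.tendsto_nhds]
  intro ε hε
  obtain ⟨F, hF⟩ := ((hp ω0).eventually_const_lt (show 1 - ε / 4 < 1 by linarith)).exists
  have h1 : Continuous fun ω => ∑ x ∈ F, p ω x := continuous_finsetSum _ fun x _ => hc x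
  have h2 : Continuous fun ω => ∑ x ∈ F, e x * ((p ω x : ℝ) : ℂ) :=
    continuous_finsetSum _ fun x _ => continuous_const.mul (Complex.continuous_ofReal.comp (hc x))
  have h3 := (h1.tendsto ω0).eventually_const_lt hF
  have h4 := (Metric.tendsto_nhds.1 (h2.tendsto ω0)) (ε / 4) (by linarith)
  filter_upwards [h3, h4] with ω h5 h6
  have h7 := tail_le (hp0 ω) (hp ω) e he F
  have h8 := tail_le (hp0 ω0) (hp ω0) e he F
  rw [dist_eq_norm] at h6 ⊢
  have e1 : ∑' x, e x * ((p ω x : ℝ) : ℂ) - ∑' x, e x * ((p ω0 x : ℝ) : ℂ) =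
      (∑' x, e x * ((p ω x : ℝ) : ℂ) - ∑ x ∈ F, e x * ((p ω x : ℝ) : ℂ)) +
      (∑ x ∈ F, e x * ((p ω x : ℝ) : ℂ) - ∑ x ∈ F, e x * ((p ω0 x : ℝ) : ℂ)) -
      (∑' x, e x * ((p ω0 x : ℝ) : ℂ) - ∑ x ∈ F, e x * ((p ω0 x : ℝ) : ℂ)) := by ring
  rw [e1]
  refine lt_of_le_of_lt (norm_sub_le _ _) ?_
  have h9 := norm_add_le (∑' x, e x * ((p ω x : ℝ) : ℂ) - ∑ x ∈ F, e x * ((p ω x : ℝ) : ℂ))
    (∑ x ∈ F, e x * ((p ω x : ℝ) : ℂ) - ∑ x ∈ F, e x * ((p ω0 x : ℝ) : ℂ))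
  linarith

theorem Spc_cont {b : ℝ} (hb : 0 ≤ b) (lam : ℝ) (θ : Fin d → ℝ) (t : ℝ) :
    Continuous fun ω : Zd d → ℝ => Spc lam b θ t ω := by
  unfold Spc Sp
  exact scheffe (fun ω x => ‖psi lam (cl b ω) 0 t x‖ ^ 2) (fun _ _ => sq_nonneg _)
    (fun ω => (psi_ev (cl_bd hb ω) 0).mass t) (fun x => (psi_cont hb lam 0 t x).norm.pow 2)
    (ex θ) (fun x => (ex_norm θ x).le)

theorem sh_cont (y : Zd d) : Continuous (sh y) := by
  unfold sh
  fun_prop

theorem SBc_cont {b : ℝ} (hb : 0 ≤ b) (lam : ℝ) (θ : Fin d → ℝ) (B : Finset (Zd d)) (t : ℝ) :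
    Continuous fun ω : Zd d → ℝ => SBc lam b θ B t ω := by
  have h1 : (fun ω : Zd d → ℝ => SBc lam b θ B t ω) =
      fun ω => (B.card : ℂ)⁻¹ * ∑ y ∈ B, Spc lam b θ t (sh y ω) := by
    funext ω
    exact SBc_eq hb θ B t ω
  rw [h1]
  exact continuous_const.mul (continuous_finsetSum _ fun y _ =>
    (Spc_cont hb lam θ t).comp (sh_cont y))

/-! ### the influence -/

theorem cl_up {b : ℝ} (hb : 0 ≤ b) (ω : Zd d → ℝ) (v : Zd d) :
    cl b (Function.update ω v 0) = Function.update (cl b ω) v 0 := by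
  funext x
  unfold cl
  rw [Function.update_apply, Function.update_apply]
  split_ifs
  · rw [min_eq_right hb, max_eq_right (by linarith)]
  · rfl

theorem Spc_sh_KK {b : ℝ} (hb : 0 ≤ b) (lam : ℝ) (θ : Fin d → ℝ) (y : Zd d) (t : ℝ)
    (ω : Zd d → ℝ) : Spc lam b θ t (sh y ω) = (starRingEnd ℂ) (ex θ y) *
      ⟪U lam (cl_bd hb ω) t (dl y), Xp θ (U lam (cl_bd hb ω) t (dl y))⟫_ℂ := by
  rw [← Sp_shift hb, Sp_inner]
  unfold Sp
  rw [← tsum_mul_left, ← (Equiv.addRight y).tsum_eq (fun x => (starRingEnd ℂ) (ex θ y) *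
    (ex θ x * ((‖(U lam (cl_bd hb ω) t (dl y)) x‖ ^ 2 : ℝ) : ℂ)))]
  refine tsum_congr fun x => ?_
  simp only [Equiv.coe_addRight]
  rw [psi_eq lam (cl_bd hb ω), ex_add]
  have := ex_conj_mul θ y
  linear_combination (-(ex θ x * ((‖(U lam (cl_bd hb ω) t (dl y)) (x + y)‖ ^ 2 : ℝ) : ℂ))) * this

theorem SBc_KK {b : ℝ} (hb : 0 ≤ b) (lam : ℝ) (θ : Fin d → ℝ) (B : Finset (Zd d)) (t : ℝ)
    (ω : Zd d → ℝ) : SBc lam b θ B t ω = (B.card : ℂ)⁻¹ * KK lam (cl_bd hb ω) θ B t := by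
  rw [SBc_eq hb]
  unfold KK
  congr 1
  exact Finset.sum_congr rfl fun y _ => Spc_sh_KK hb lam θ y t ω

theorem KK_congr (lam : ℝ) {b : ℝ} {ω ω' : Zd d → ℝ} (hω : ∀ x, |ω x| ≤ b)
    (hω' : ∀ x, |ω' x| ≤ b) (h : ω = ω') (θ : Fin d → ℝ) (B : Finset (Zd d)) (t : ℝ) :
    KK lam hω θ B t = KK lam hω' θ B t := by
  subst h
  rfl

/-- the total influence of the sites -/
theorem SBc_infl {b : ℝ} (hb : 0 ≤ b) (lam : ℝ) (θ : Fin d → ℝ) (B : Finset (Zd d))
    (hB : B.Nonempty) (t : ℝ) (ht : 0 ≤ t) (Λ : Finset (Zd d)) (ω : Zd d → ℝ) :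
    ∑ v ∈ Λ, ‖SBc lam b θ B t ω - SBc lam b θ B t (Function.update ω v 0)‖ ^ 2 ≤
      4 * (lam * b * t) ^ 2 / B.card := by
  have hN : (0 : ℝ) < B.card := by exact_mod_cast hB.card_pos
  have h1 := infl lam (cl_bd hb ω) θ B Λ t ht
  have h2 : ∀ v, ‖SBc lam b θ B t ω - SBc lam b θ B t (Function.update ω v 0)‖ ^ 2 =
      ((B.card : ℝ) ^ 2)⁻¹ * ‖KK lam (cl_bd hb ω) θ B t -
        KK lam (up_bd (cl_bd hb ω) v) θ B t‖ ^ 2 := by
    intro v
    rw [SBc_KK hb, SBc_KK hb, KK_congr lam (cl_bd hb (Function.update ω v 0))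
      (up_bd (cl_bd hb ω) v) (cl_up hb ω v), ← mul_sub, norm_mul, mul_pow, norm_inv,
      Complex.norm_natCast, inv_pow]
  simp only [h2]
  rw [← Finset.mul_sum]
  calc _ ≤ ((B.card : ℝ) ^ 2)⁻¹ * (4 * (lam * b * t) ^ 2 * B.card) :=
        mul_le_mul_of_nonneg_left h1 (by positivity)
    _ = _ := by field_simp

/-! ### continuity in time and momentum -/

section
variable (lam : ℝ) {b : ℝ} {ω : Zd d → ℝ} (hω : ∀ x, |ω x| ≤ b)

theorem S_norm (a : Zd d) (u : E2 d) : ‖S a u‖ = ‖u‖ := by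
  have h1 := hs (S a u)
  have h2 := hasSum_shift (hs u) a
  have h3 : ‖S a u‖ ^ 2 = ‖u‖ ^ 2 := h1.unique h2
  exact (pow_left_inj₀ (norm_nonneg _) (norm_nonneg _) two_ne_zero).1 h3

theorem M_norm (w : Zd d → ℂ) (C : ℝ) (hw : ∀ x, ‖w x‖ ≤ C) (u : E2 d) :
    ‖M w C hw u‖ ≤ C * ‖u‖ := by
  have hC : 0 ≤ C := (norm_nonneg _).trans (hw 0)
  calc ‖M w C hw u‖ ≤ ‖M w C hw‖ * ‖u‖ := ContinuousLinearMap.le_opNorm _ _
    _ ≤ C * ‖u‖ := mul_le_mul_of_nonneg_right (LinearMap.mkContinuous_norm_le _ hC _)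
        (norm_nonneg _)

theorem H_norm (u : E2 d) : ‖H lam hω u‖ ≤ Kb d lam b * ‖u‖ := by
  have hn := norm_nonneg u
  unfold H
  rw [add_apply, neg_apply, sum_apply, smul_apply]
  refine (norm_add_le _ _).trans ?_
  rw [norm_neg, norm_smul, Complex.norm_real, Real.norm_eq_abs]
  have h1 : ‖∑ i : Fin d, ((S (Pi.single i 1) - 1) + (S (-Pi.single i 1) - 1) :
      E2 d →L[ℂ] E2 d) u‖ ≤ ∑ _i : Fin d, 4 * ‖u‖ := by
    refine (norm_sum_le _ _).trans (Finset.sum_le_sum fun i _ => ?_)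
    change ‖(S (Pi.single i 1) u - u) + (S (-Pi.single i 1) u - u)‖ ≤ _
    have a1 := norm_add_le (S (Pi.single i 1) u - u) (S (-Pi.single i 1) u - u)
    have a2 := norm_sub_le (S (Pi.single i 1) u) u
    have a3 := norm_sub_le (S (-Pi.single i 1) u) u
    rw [S_norm] at a2 a3
    linarith
  rw [Finset.sum_const, Finset.card_univ, Fintype.card_fin, nsmul_eq_mul] at h1
  have h2 : |lam| * ‖M (fun x => ((ω x : ℝ) : ℂ)) b (om_bd hω) u‖ ≤ |lam| * (|b| * ‖u‖) := by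
    refine mul_le_mul_of_nonneg_left ((M_norm _ _ _ u).trans ?_) (abs_nonneg _)
    exact mul_le_mul_of_nonneg_right (le_abs_self b) hn
  unfold Kb
  calc _ ≤ (d : ℝ) * (4 * ‖u‖) + |lam| * (|b| * ‖u‖) := add_le_add h1 h2
    _ = _ := by ring

theorem A_norm (u : E2 d) : ‖A lam hω u‖ ≤ Kb d lam b * ‖u‖ := by
  unfold A
  rw [smul_apply, norm_smul, norm_neg, Complex.norm_I, one_mul]
  exact H_norm lam hω u

theorem U_lip (u : E2 d) (s t : ℝ) :
    ‖U lam hω t u - U lam hω s u‖ ≤ Kb d lam b * ‖u‖ * |t - s| := by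
  have h := Convex.norm_image_sub_le_of_norm_hasDerivWithin_le (f := fun r => U lam hω r u)
    (f' := fun r => A lam hω (U lam hω r u)) (C := Kb d lam b * ‖u‖)
    (s := Set.univ) (x := s) (y := t) (fun r _ => (U_deriv' lam hω r u).hasDerivWithinAt)
    (fun r _ => (A_norm lam hω _).trans (by rw [U_norm])) convex_univ (Set.mem_univ _)
    (Set.mem_univ _)
  rwa [Real.norm_eq_abs] at h

theorem ex_sub_one (φ : Fin d → ℝ) (a : Zd d) : ‖1 - ex φ a‖ ≤ |∑ j, φ j * (a j : ℝ)| := by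
  unfold ex
  rw [norm_sub_rev]
  have h := Real.norm_exp_I_mul_ofReal_sub_one_le (x := ∑ j, φ j * (a j : ℝ))
  rw [mul_comm] at h
  exact h

/-- the commutator of the shift with the plane wave -/
theorem comm_S (φ : Fin d → ℝ) (a : Zd d) (u : E2 d) :
    ‖Xp φ (S a u) - S a (Xp φ u)‖ ≤ |∑ j, φ j * (a j : ℝ)| * ‖u‖ := by
  have e1 : Xp φ (S a u) - S a (Xp φ u) = (1 - ex φ a) • Xp φ (S a u) := by
    ext x
    rw [lp.coeFn_sub, Pi.sub_apply, lp.coeFn_smul, Pi.smul_apply, Xp_apply, S_apply, S_apply,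
      Xp_apply, smul_eq_mul, ex_add]
    ring
  rw [e1, norm_smul, Xp_norm, S_norm]
  exact mul_le_mul_of_nonneg_right (ex_sub_one φ a) (norm_nonneg _)

theorem comm_H (φ : Fin d → ℝ) (u : E2 d) :
    ‖Xp φ (H lam hω u) - H lam hω (Xp φ u)‖ ≤ 2 * (∑ j, |φ j|) * ‖u‖ := by
  have e1 : Xp φ (H lam hω u) - H lam hω (Xp φ u) =
      -∑ i : Fin d, ((Xp φ (S (Pi.single i 1) u) - S (Pi.single i 1) (Xp φ u)) +
        (Xp φ (S (-Pi.single i 1) u) - S (-Pi.single i 1) (Xp φ u))) := by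
    ext x
    rw [lp.coeFn_sub, Pi.sub_apply, Xp_apply, H_apply, H_apply, lp.coeFn_neg, Pi.neg_apply,
      lp.coeFn_sum, Finset.sum_apply]
    unfold HZ
    have e2 : ∀ i : Fin d, ((Xp φ (S (Pi.single i 1) u) - S (Pi.single i 1) (Xp φ u)) +
        (Xp φ (S (-Pi.single i 1) u) - S (-Pi.single i 1) (Xp φ u)) : E2 d) x =
        (ex φ x * u (x + Pi.single i 1) - Xp φ u (x + Pi.single i 1)) +
        (ex φ x * u (x - Pi.single i 1) - Xp φ u (x - Pi.single i 1)) := by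
      intro i
      rw [lp.coeFn_add, Pi.add_apply, lp.coeFn_sub, Pi.sub_apply, lp.coeFn_sub, Pi.sub_apply,
        Xp_apply, Xp_apply, S_apply, S_apply, S_apply, S_apply, ← sub_eq_add_neg]
    rw [Finset.sum_congr rfl fun i _ => e2 i, mul_add, mul_neg, Finset.mul_sum,
      Xp_apply φ u x]
    have e3 : ∑ i : Fin d, ex φ x * ((u (x + Pi.single i 1) - u x) +
        (u (x - Pi.single i 1) - u x)) -
        ∑ i : Fin d, (((Xp φ u) (x + Pi.single i 1) - ex φ x * u x) +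
          ((Xp φ u) (x - Pi.single i 1) - ex φ x * u x)) =
        ∑ i : Fin d, ((ex φ x * u (x + Pi.single i 1) - Xp φ u (x + Pi.single i 1)) +
        (ex φ x * u (x - Pi.single i 1) - Xp φ u (x - Pi.single i 1))) := by
      rw [← Finset.sum_sub_distrib]
      refine Finset.sum_congr rfl fun i _ => ?_
      ring
    rw [← e3]
    ring
  rw [e1, norm_neg, Finset.mul_sum, Finset.sum_mul]
  refine (norm_sum_le _ _).trans (Finset.sum_le_sum fun i _ => ?_)
  have h1 := comm_S φ (Pi.single i 1) u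
  have h2 := comm_S φ (-Pi.single i 1) u
  have e4 : ∑ j, φ j * (((Pi.single i 1 : Zd d) j : ℤ) : ℝ) = φ i := by
    rw [Finset.sum_eq_single i]
    · simp
    · intro j _ hj
      simp [hj]
    · simp
  have e5 : ∑ j, φ j * (((-Pi.single i 1 : Zd d) j : ℤ) : ℝ) = -φ i := by
    have : ∀ j, φ j * (((-Pi.single i 1 : Zd d) j : ℤ) : ℝ) =
        -(φ j * (((Pi.single i 1 : Zd d) j : ℤ) : ℝ)) := by
      intro j
      simp only [Pi.neg_apply, Int.cast_neg]
      ring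
    simp only [this]
    rw [Finset.sum_neg_distrib, e4]
  rw [e4] at h1
  rw [e5, abs_neg] at h2
  refine (norm_add_le _ _).trans ?_
  linarith

/-- the spreading is at most ballistic -/
theorem ball (φ : Fin d → ℝ) (t : ℝ) (ht : 0 ≤ t) :
    ‖Xp φ (U lam hω t (dl 0)) - U lam hω t (dl 0)‖ ≤ 2 * (∑ j, |φ j|) * t := by
  set g : ℝ → E2 d := fun s => U lam hω (t - s) (Xp φ (U lam hω s (dl 0))) with hg
  have hd : ∀ s, HasDerivAt g (U lam hω (t - s) (Xp φ (A lam hω (U lam hω s (dl 0))) -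
      A lam hω (Xp φ (U lam hω s (dl 0))))) s := by
    intro s
    have h1 : HasDerivAt (fun s => U lam hω (t - s)) (-(U lam hω (t - s) * A lam hω)) s := by
      have h2 := hasDerivAt_exp_smul_const (𝕂 := ℝ) (A lam hω) (t - s)
      have h3 : HasDerivAt (fun s : ℝ => t - s) (-1) s := by
        simpa using (hasDerivAt_id s).const_sub t
      have h4 := h2.scomp s h3
      refine h4.congr_deriv ?_
      rw [neg_smul, one_smul]
      rfl
    have h0 : HasDerivAt (fun s => Xp φ * U lam hω s) (Xp φ * (A lam hω * U lam hω s)) s :=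
      (U_deriv lam hω s).const_mul (Xp φ)
    have h5 := h1.mul h0
    have h6 := ((ContinuousLinearMap.apply ℂ (E2 d) (dl 0)).restrictScalars
      ℝ).hasFDerivAt.comp_hasDerivAt s h5
    refine h6.congr_deriv ?_
    change (-(U lam hω (t - s) * A lam hω) * (Xp φ * U lam hω s) + U lam hω (t - s) *
      (Xp φ * (A lam hω * U lam hω s))) (dl 0) = _
    rw [map_sub]
    change -(U lam hω (t - s) (A lam hω (Xp φ (U lam hω s (dl 0))))) +
      U lam hω (t - s) (Xp φ (A lam hω (U lam hω s (dl 0)))) = _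
    abel
  have hb : ∀ s, ‖U lam hω (t - s) (Xp φ (A lam hω (U lam hω s (dl 0))) -
      A lam hω (Xp φ (U lam hω s (dl 0))))‖ ≤ 2 * (∑ j, |φ j|) := by
    intro s
    rw [U_norm]
    have e1 : Xp φ (A lam hω (U lam hω s (dl 0))) - A lam hω (Xp φ (U lam hω s (dl 0))) =
        (-Complex.I) • (Xp φ (H lam hω (U lam hω s (dl 0))) -
          H lam hω (Xp φ (U lam hω s (dl 0)))) := by
      unfold A
      rw [smul_apply, smul_apply, map_smul, smul_sub]
    rw [e1, norm_smul, norm_neg, Complex.norm_I, one_mul]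
    have := comm_H lam hω φ (U lam hω s (dl 0))
    rwa [U_norm, dl_norm, mul_one] at this
  have h := Convex.norm_image_sub_le_of_norm_hasDerivWithin_le (f := g)
    (f' := fun s => U lam hω (t - s) (Xp φ (A lam hω (U lam hω s (dl 0))) -
      A lam hω (Xp φ (U lam hω s (dl 0))))) (C := 2 * (∑ j, |φ j|))
    (s := Set.univ) (x := 0) (y := t) (fun r _ => (hd r).hasDerivWithinAt)
    (fun r _ => hb r) convex_univ (Set.mem_univ _) (Set.mem_univ _)
  rw [sub_zero, Real.norm_eq_abs, abs_of_nonneg ht] at h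
  have e2 : g t = Xp φ (U lam hω t (dl 0)) := by
    rw [hg]
    simp only [sub_self, U_zero]
    rfl
  have e3 : g 0 = U lam hω t (dl 0) := by
    rw [hg]
    simp only [sub_zero, U_zero]
    have : Xp φ ((1 : E2 d →L[ℂ] E2 d) (dl 0)) = dl 0 := by
      change Xp φ (dl 0) = dl 0
      ext x
      rw [Xp_apply, dl_apply]
      by_cases hx : x = 0
      · rw [if_pos hx, hx]
        unfold ex
        simp
      · rw [if_neg hx, mul_zero]
    rw [this]
  rwa [e2, e3] at h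

end

/-- the profile is Lipschitz -/
theorem Spc_lip {b : ℝ} (hb : 0 ≤ b) (lam : ℝ) (θ θ' : Fin d → ℝ) (s t : ℝ) (ht : 0 ≤ t)
    (ω : Zd d → ℝ) : ‖Spc lam b θ t ω - Spc lam b θ' s ω‖ ≤
      2 * Kb d lam b * |t - s| + 2 * (∑ j, |θ j - θ' j|) * t := by
  set hω := cl_bd hb ω with hhω
  have e1 : ∀ (η : Fin d → ℝ) (r : ℝ), Spc lam b η r ω =
      ⟪U lam hω r (dl 0), Xp η (U lam hω r (dl 0))⟫_ℂ := fun η r => Spc_inner hb lam η r ω
  rw [e1, e1]
  set p := U lam hω t (dl 0) with hp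
  set q := U lam hω s (dl 0) with hq
  have hp1 : ‖p‖ = 1 := by rw [hp, U_norm, dl_norm]
  have hq1 : ‖q‖ = 1 := by rw [hq, U_norm, dl_norm]
  have h1 : ‖p - q‖ ≤ Kb d lam b * |t - s| := by
    have := U_lip lam hω (dl 0) s t
    rwa [dl_norm, mul_one] at this
  have h2 : ‖Xp θ p - Xp θ' p‖ ≤ 2 * (∑ j, |θ j - θ' j|) * t := by
    have h3 := ball lam hω (fun j => θ j - θ' j) t ht
    have e2 : Xp θ p - Xp θ' p = Xp θ' (Xp (fun j => θ j - θ' j) p - p) := by
      ext x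
      rw [lp.coeFn_sub, Pi.sub_apply, Xp_apply, Xp_apply, Xp_apply, lp.coeFn_sub, Pi.sub_apply,
        Xp_apply]
      have e3 : ex θ x = ex θ' x * ex (fun j => θ j - θ' j) x := by
        unfold ex
        rw [← Complex.exp_add]
        congr 1
        rw [← add_mul, ← Complex.ofReal_add, ← Finset.sum_add_distrib]
        congr 3
        funext j
        ring
      rw [e3]
      ring
    rw [e2, Xp_norm]
    exact h3
  have e4 : ⟪p, Xp θ p⟫_ℂ - ⟪q, Xp θ' q⟫_ℂ =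
      ⟪p, Xp θ p - Xp θ' p⟫_ℂ + (⟪p - q, Xp θ' p⟫_ℂ + ⟪q, Xp θ' (p - q)⟫_ℂ) := by
    rw [map_sub, inner_sub_right, inner_sub_left, inner_sub_right]
    ring
  rw [e4]
  have h5 : ‖⟪p, Xp θ p - Xp θ' p⟫_ℂ‖ ≤ 2 * (∑ j, |θ j - θ' j|) * t := by
    refine (norm_inner_le_norm _ _).trans ?_
    rw [hp1, one_mul]
    exact h2
  have h6 : ‖⟪p - q, Xp θ' p⟫_ℂ‖ ≤ Kb d lam b * |t - s| := by
    refine (norm_inner_le_norm _ _).trans ?_
    rw [Xp_norm, hp1, mul_one]
    exact h1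
  have h7 : ‖⟪q, Xp θ' (p - q)⟫_ℂ‖ ≤ Kb d lam b * |t - s| := by
    refine (norm_inner_le_norm _ _).trans ?_
    rw [Xp_norm, hq1, one_mul]
    exact h1
  have h8 := norm_add_le (⟪p, Xp θ p - Xp θ' p⟫_ℂ)
    (⟪p - q, Xp θ' p⟫_ℂ + ⟪q, Xp θ' (p - q)⟫_ℂ)
  have h9 := norm_add_le (⟪p - q, Xp θ' p⟫_ℂ) (⟪q, Xp θ' (p - q)⟫_ℂ)
  linarith

theorem SBc_lip {b : ℝ} (hb : 0 ≤ b) (lam : ℝ) (θ θ' : Fin d → ℝ) (B : Finset (Zd d))
    (hB : B.Nonempty) (s t : ℝ) (ht : 0 ≤ t) (ω : Zd d → ℝ) :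
    ‖SBc lam b θ B t ω - SBc lam b θ' B s ω‖ ≤
      2 * Kb d lam b * |t - s| + 2 * (∑ j, |θ j - θ' j|) * t := by
  have hN : (0 : ℝ) < B.card := by exact_mod_cast hB.card_pos
  rw [SBc_eq hb, SBc_eq hb, ← mul_sub, ← Finset.sum_sub_distrib, norm_mul, norm_inv,
    Complex.norm_natCast]
  have h1 : ‖∑ y ∈ B, (Spc lam b θ t (sh y ω) - Spc lam b θ' s (sh y ω))‖ ≤
      B.card * (2 * Kb d lam b * |t - s| + 2 * (∑ j, |θ j - θ' j|) * t) := by
    refine (norm_sum_le _ _).trans ?_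
    refine (Finset.sum_le_sum fun y _ => Spc_lip hb lam θ θ' s t ht (sh y ω)).trans ?_
    rw [Finset.sum_const, nsmul_eq_mul]
  calc _ ≤ (B.card : ℝ)⁻¹ * (B.card * (2 * Kb d lam b * |t - s| + 2 * (∑ j, |θ j - θ' j|) * t)) :=
        mul_le_mul_of_nonneg_left h1 (by positivity)
    _ = _ := by field_simp

end Pool.Agent.Zk93.FT
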