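import Pool.Agent.Zk93.FT.Inc

/-! The influence of one site on the average position distribution at a fixed time. -/

set_option autoImplicit false

open scoped BigOperators Topology InnerProductSpace
open MeasureTheory Filter

namespace Pool.Agent.Zk93.FT

open Pool.Agent.Zk11.QD (Zd HZ PZ)
open Pool.Agent.Zk11.QQ (sh ex ex_norm)
open Pool.Agent.Zk93.TE

variable {d : ℕ}

/-- Bessel's inequality for the image of the basis -/
theorem bess (T : E2 d →L[ℂ] E2 d) (hT : ∀ u, ‖T u‖ = ‖u‖) (z : E2 d) (B : Finset (Zd d)) :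
    ∑ y ∈ B, ‖⟪z, T (dl y)⟫_ℂ‖ ^ 2 ≤ ‖z‖ ^ 2 := by
  set w := ContinuousLinearMap.adjoint T z with hw
  have h1 : ∀ y, ‖⟪z, T (dl y)⟫_ℂ‖ = ‖w y‖ := by
    intro y
    rw [← inner_dl, hw, ContinuousLinearMap.adjoint_inner_right, norm_inner_symm]
  simp only [h1]
  have h2 : ‖w‖ ≤ ‖z‖ := by
    have h3 : ‖T‖ ≤ 1 :=
      ContinuousLinearMap.opNorm_le_bound _ zero_le_one fun u => by rw [hT, one_mul]
    have h4 : ‖ContinuousLinearMap.adjoint T‖ ≤ 1 := by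
      rw [LinearIsometryEquiv.norm_map]
      exact h3
    calc ‖w‖ ≤ ‖ContinuousLinearMap.adjoint T‖ * ‖z‖ := ContinuousLinearMap.le_opNorm _ _
      _ ≤ 1 * ‖z‖ := mul_le_mul_of_nonneg_right h4 (norm_nonneg _)
      _ = _ := one_mul _
  calc _ ≤ ‖w‖ ^ 2 := sum_le_hasSum B (fun _ _ => sq_nonneg _) (hs w)
    _ ≤ _ := pow_le_pow_left₀ (norm_nonneg _) h2 2

section
variable (lam : ℝ) {b : ℝ} {ω ω' : Zd d → ℝ} (hω : ∀ x, |ω x| ≤ b) (hω' : ∀ x, |ω' x| ≤ b)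

/-- the interpolation between two evolutions -/
noncomputable def Q (t s : ℝ) : E2 d →L[ℂ] E2 d := U lam hω' (t - s) * U lam hω s

theorem Q_apply (t s : ℝ) (u : E2 d) : Q lam hω hω' t s u = U lam hω' (t - s) (U lam hω s u) :=
  rfl

theorem Q_norm (t s : ℝ) (u : E2 d) : ‖Q lam hω hω' t s u‖ = ‖u‖ := by
  rw [Q_apply, U_norm, U_norm]

theorem Q_deriv (t s : ℝ) (u : E2 d) :
    HasDerivAt (fun s => Q lam hω hω' t s u)
      (U lam hω' (t - s) (A lam hω (U lam hω s u) - A lam hω' (U lam hω s u))) s := by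
  have h1 : HasDerivAt (fun s => U lam hω' (t - s)) (-(U lam hω' (t - s) * A lam hω')) s := by
    have h2 := hasDerivAt_exp_smul_const (𝕂 := ℝ) (A lam hω') (t - s)
    have h3 : HasDerivAt (fun s : ℝ => t - s) (-1) s := by
      simpa using (hasDerivAt_id s).const_sub t
    have h4 := h2.scomp s h3
    refine h4.congr_deriv ?_
    rw [neg_smul, one_smul]
    rfl
  have h5 := h1.mul (U_deriv lam hω s)
  have h6 := ((ContinuousLinearMap.apply ℂ (E2 d) u).restrictScalars ℝ).hasFDerivAt.comp_hasDerivAt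
    s h5
  refine h6.congr_deriv ?_
  change (-(U lam hω' (t - s) * A lam hω') * U lam hω s + U lam hω' (t - s) *
    (A lam hω * U lam hω s)) u = _
  rw [map_sub]
  change -(U lam hω' (t - s) (A lam hω' (U lam hω s u))) +
    U lam hω' (t - s) (A lam hω (U lam hω s u)) = _
  abel

theorem A_sub (u : E2 d) (x : Zd d) :
    (A lam hω u - A lam hω' u) x = -Complex.I * ((lam * (ω x - ω' x) : ℝ) : ℂ) * u x := by
  rw [lp.coeFn_sub, Pi.sub_apply]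
  unfold A
  rw [smul_apply, smul_apply, lp.coeFn_smul, lp.coeFn_smul, Pi.smul_apply, Pi.smul_apply, H_apply,
    H_apply, smul_eq_mul, smul_eq_mul]
  unfold HZ
  push_cast
  ring

end

section
variable (lam : ℝ) {b : ℝ} {ω : Zd d → ℝ} (hω : ∀ x, |ω x| ≤ b)

theorem up_bd (hω : ∀ x, |ω x| ≤ b) (v : Zd d) (x : Zd d) : |Function.update ω v 0 x| ≤ b := by
  rw [Function.update_apply]
  split_ifs
  · rw [abs_zero]
    exact (abs_nonneg _).trans (hω v)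
  · exact hω x

theorem A_up (v : Zd d) (u : E2 d) :
    A lam hω u - A lam (up_bd hω v) u = (-Complex.I * ((lam * ω v : ℝ) : ℂ) * u v) • dl v := by
  ext x
  rw [A_sub, lp.coeFn_smul, Pi.smul_apply, dl_apply, smul_eq_mul, Function.update_apply]
  by_cases h : x = v
  · rw [if_pos h, if_pos h, h]
    simp
  · rw [if_neg h, if_neg h]
    simp

/-- the interpolated profile -/
noncomputable def Kv (θ : Fin d → ℝ) (B : Finset (Zd d)) (t : ℝ) (v : Zd d) (s : ℝ) : ℂ :=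
  ∑ y ∈ B, (starRingEnd ℂ) (ex θ y) *
    ⟪Q lam hω (up_bd hω v) t s (dl y), Xp θ (Q lam hω (up_bd hω v) t s (dl y))⟫_ℂ

/-- its derivative -/
noncomputable def Kd (θ : Fin d → ℝ) (B : Finset (Zd d)) (t : ℝ) (v : Zd d) (s : ℝ) : ℂ :=
  ∑ y ∈ B, (starRingEnd ℂ) (ex θ y) *
    (⟪Q lam hω (up_bd hω v) t s (dl y),
      Xp θ ((-Complex.I * ((lam * ω v : ℝ) : ℂ) * (U lam hω s (dl y)) v) •
        U lam (up_bd hω v) (t - s) (dl v))⟫_ℂ +
    ⟪(-Complex.I * ((lam * ω v : ℝ) : ℂ) * (U lam hω s (dl y)) v) •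
        U lam (up_bd hω v) (t - s) (dl v), Xp θ (Q lam hω (up_bd hω v) t s (dl y))⟫_ℂ)

theorem Kv_deriv (θ : Fin d → ℝ) (B : Finset (Zd d)) (t : ℝ) (v : Zd d) (s : ℝ) :
    HasDerivAt (Kv lam hω θ B t v) (Kd lam hω θ B t v s) s := by
  unfold Kv Kd
  refine HasDerivAt.fun_sum fun y _ => HasDerivAt.const_mul _ ?_
  have h1 := Q_deriv lam hω (up_bd hω v) t s (dl y)
  rw [A_up, map_smul] at h1
  have h2 := ((Xp θ).restrictScalars ℝ).hasFDerivAt.comp_hasDerivAt s h1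
  exact HasDerivAt.inner ℂ h1 h2

theorem term_norm (θ : Fin d → ℝ) (c : ℂ) (w z : E2 d) :
    ‖⟪w, Xp θ (c • z)⟫_ℂ + ⟪c • z, Xp θ w⟫_ℂ‖ ≤
      ‖c‖ * (‖⟪Xp θ z, w⟫_ℂ‖ + ‖⟪z, Xp θ w⟫_ℂ‖) := by
  rw [map_smul, inner_smul_right, inner_smul_left]
  refine (norm_add_le _ _).trans (le_of_eq ?_)
  rw [norm_mul, norm_mul, RCLike.norm_conj, norm_inner_symm w, mul_add]

theorem Kd_sq (θ : Fin d → ℝ) (B : Finset (Zd d)) (t : ℝ) (v : Zd d) (s : ℝ) :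
    ‖Kd lam hω θ B t v s‖ ^ 2 ≤
      4 * (lam * ω v) ^ 2 * ∑ y ∈ B, ‖(U lam hω s (dl y)) v‖ ^ 2 := by
  set z := U lam (up_bd hω v) (t - s) (dl v) with hz
  have hz1 : ‖z‖ = 1 := by rw [hz, U_norm, dl_norm]
  set q : Zd d → E2 d := fun y => Q lam hω (up_bd hω v) t s (dl y) with hq
  set f : Zd d → ℝ := fun y => |lam * ω v| * ‖(U lam hω s (dl y)) v‖ with hf
  set g1 : Zd d → ℝ := fun y => ‖⟪Xp θ z, q y⟫_ℂ‖ with hg1
  set g2 : Zd d → ℝ := fun y => ‖⟪z, Xp θ (q y)⟫_ℂ‖ with hg2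
  have h1 : ‖Kd lam hω θ B t v s‖ ≤ ∑ y ∈ B, f y * (g1 y + g2 y) := by
    unfold Kd
    refine (norm_sum_le _ _).trans (Finset.sum_le_sum fun y _ => ?_)
    have hc : ‖-Complex.I * ((lam * ω v : ℝ) : ℂ) * (U lam hω s (dl y)) v‖ = f y := by
      rw [norm_mul, norm_mul, norm_neg, Complex.norm_I, one_mul, Complex.norm_real,
        Real.norm_eq_abs]
    rw [norm_mul, RCLike.norm_conj, ex_norm, one_mul, ← hc]
    exact term_norm θ _ _ _
  have h2 : ∑ y ∈ B, (g1 y + g2 y) ^ 2 ≤ 4 := by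
    have h3 : ∑ y ∈ B, g1 y ^ 2 ≤ 1 := by
      have := bess (Q lam hω (up_bd hω v) t s) (Q_norm lam hω (up_bd hω v) t s) (Xp θ z) B
      rwa [Xp_norm, hz1, one_pow] at this
    have h4 : ∑ y ∈ B, g2 y ^ 2 ≤ 1 := by
      have := bess (Xp θ ∘L Q lam hω (up_bd hω v) t s)
        (fun u => by
          change ‖Xp θ (Q lam hω (up_bd hω v) t s u)‖ = ‖u‖
          rw [Xp_norm, Q_norm]) z B
      rwa [hz1, one_pow] at this
    calc ∑ y ∈ B, (g1 y + g2 y) ^ 2 ≤ ∑ y ∈ B, 2 * (g1 y ^ 2 + g2 y ^ 2) :=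
          Finset.sum_le_sum fun y _ => by nlinarith [sq_nonneg (g1 y - g2 y)]
      _ = 2 * (∑ y ∈ B, g1 y ^ 2 + ∑ y ∈ B, g2 y ^ 2) := by
          rw [← Finset.mul_sum, Finset.sum_add_distrib]
      _ ≤ _ := by linarith
  have h5 : ∑ y ∈ B, f y ^ 2 = (lam * ω v) ^ 2 * ∑ y ∈ B, ‖(U lam hω s (dl y)) v‖ ^ 2 := by
    rw [Finset.mul_sum]
    refine Finset.sum_congr rfl fun y _ => ?_
    rw [hf]
    simp only
    rw [mul_pow, sq_abs]
  have h6 : 0 ≤ ∑ y ∈ B, f y ^ 2 := Finset.sum_nonneg fun _ _ => sq_nonneg _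
  calc ‖Kd lam hω θ B t v s‖ ^ 2 ≤ (∑ y ∈ B, f y * (g1 y + g2 y)) ^ 2 :=
        pow_le_pow_left₀ (norm_nonneg _) h1 2
    _ ≤ (∑ y ∈ B, f y ^ 2) * ∑ y ∈ B, (g1 y + g2 y) ^ 2 := Finset.sum_mul_sq_le_sq_mul_sq _ _ _
    _ ≤ (∑ y ∈ B, f y ^ 2) * 4 := mul_le_mul_of_nonneg_left h2 h6
    _ = _ := by rw [h5]; ring

/-- the unnormalized profile -/
noncomputable def KK (θ : Fin d → ℝ) (B : Finset (Zd d)) (t : ℝ) : ℂ :=
  ∑ y ∈ B, (starRingEnd ℂ) (ex θ y) * ⟪U lam hω t (dl y), Xp θ (U lam hω t (dl y))⟫_ℂ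

theorem Kv_end (θ : Fin d → ℝ) (B : Finset (Zd d)) (t : ℝ) (v : Zd d) :
    Kv lam hω θ B t v t = KK lam hω θ B t := by
  unfold Kv KK
  refine Finset.sum_congr rfl fun y _ => ?_
  rw [Q_apply, sub_self, U_zero]
  rfl

theorem Kv_start (θ : Fin d → ℝ) (B : Finset (Zd d)) (t : ℝ) (v : Zd d) :
    Kv lam hω θ B t v 0 = KK lam (up_bd hω v) θ B t := by
  unfold Kv KK
  refine Finset.sum_congr rfl fun y _ => ?_
  rw [Q_apply, sub_zero, U_zero]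
  rfl

/-- **the total influence** -/
theorem infl (θ : Fin d → ℝ) (B Λ : Finset (Zd d)) (t : ℝ) (ht : 0 ≤ t) :
    ∑ v ∈ Λ, ‖KK lam hω θ B t - KK lam (up_bd hω v) θ B t‖ ^ 2 ≤
      4 * (lam * b * t) ^ 2 * B.card := by
  set ξ : Zd d → ℂ := fun v => KK lam hω θ B t - KK lam (up_bd hω v) θ B t with hξ
  set S0 := ∑ v ∈ Λ, ‖ξ v‖ ^ 2 with hS0
  have hS00 : 0 ≤ S0 := Finset.sum_nonneg fun _ _ => sq_nonneg _
  set F : ℝ → ℂ := fun s => ∑ v ∈ Λ, (starRingEnd ℂ) (ξ v) * Kv lam hω θ B t v s with hF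
  set F' : ℝ → ℂ := fun s => ∑ v ∈ Λ, (starRingEnd ℂ) (ξ v) * Kd lam hω θ B t v s with hF'
  have hd : ∀ s, HasDerivAt F (F' s) s := fun s =>
    HasDerivAt.fun_sum fun v _ => (Kv_deriv lam hω θ B t v s).const_mul _
  set C := Real.sqrt (S0 * (4 * (lam * b) ^ 2 * B.card)) with hC
  have hb : ∀ s, ‖F' s‖ ≤ C := by
    intro s
    apply Real.le_sqrt_of_sq_le
    have h1 : ‖F' s‖ ≤ ∑ v ∈ Λ, ‖ξ v‖ * ‖Kd lam hω θ B t v s‖ := by
      refine (norm_sum_le _ _).trans (Finset.sum_le_sum fun v _ => ?_)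
      rw [norm_mul, RCLike.norm_conj]
    have h2 : ∑ v ∈ Λ, ‖Kd lam hω θ B t v s‖ ^ 2 ≤ 4 * (lam * b) ^ 2 * B.card := by
      have h3 : ∀ v ∈ Λ, ‖Kd lam hω θ B t v s‖ ^ 2 ≤
          4 * (lam * b) ^ 2 * ∑ y ∈ B, ‖(U lam hω s (dl y)) v‖ ^ 2 := by
        intro v _
        refine (Kd_sq lam hω θ B t v s).trans ?_
        have h4 : (lam * ω v) ^ 2 ≤ (lam * b) ^ 2 := by
          rw [mul_pow, mul_pow]
          refine mul_le_mul_of_nonneg_left ?_ (sq_nonneg _)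
          rw [← sq_abs]
          exact pow_le_pow_left₀ (abs_nonneg _) (hω v) 2
        have h5 : 0 ≤ ∑ y ∈ B, ‖(U lam hω s (dl y)) v‖ ^ 2 :=
          Finset.sum_nonneg fun _ _ => sq_nonneg _
        gcongr
      refine (Finset.sum_le_sum h3).trans ?_
      rw [← Finset.mul_sum, Finset.sum_comm]
      have h6 : ∑ y ∈ B, ∑ v ∈ Λ, ‖(U lam hω s (dl y)) v‖ ^ 2 ≤ ∑ _y ∈ B, (1 : ℝ) := by
        refine Finset.sum_le_sum fun y _ => ?_
        have h7 := hs (U lam hω s (dl y))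
        rw [U_norm, dl_norm, one_pow] at h7
        exact sum_le_hasSum Λ (fun _ _ => sq_nonneg _) h7
      rw [Finset.sum_const, nsmul_eq_mul, mul_one] at h6
      gcongr
    calc ‖F' s‖ ^ 2 ≤ (∑ v ∈ Λ, ‖ξ v‖ * ‖Kd lam hω θ B t v s‖) ^ 2 :=
          pow_le_pow_left₀ (norm_nonneg _) h1 2
      _ ≤ (∑ v ∈ Λ, ‖ξ v‖ ^ 2) * ∑ v ∈ Λ, ‖Kd lam hω θ B t v s‖ ^ 2 :=
          Finset.sum_mul_sq_le_sq_mul_sq _ _ _
      _ ≤ _ := mul_le_mul_of_nonneg_left h2 hS00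
  have hmv := Convex.norm_image_sub_le_of_norm_hasDerivWithin_le (f := F) (f' := F') (C := C)
    (s := Set.univ) (x := 0) (y := t) (fun s _ => (hd s).hasDerivWithinAt) (fun s _ => hb s)
    convex_univ (Set.mem_univ _) (Set.mem_univ _)
  have hval : F t - F 0 = ((S0 : ℝ) : ℂ) := by
    have k1 : F t - F 0 = ∑ v ∈ Λ, (starRingEnd ℂ) (ξ v) * ξ v := by
      change ∑ v ∈ Λ, (starRingEnd ℂ) (ξ v) * Kv lam hω θ B t v t -
        ∑ v ∈ Λ, (starRingEnd ℂ) (ξ v) * Kv lam hω θ B t v 0 = _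
      rw [← Finset.sum_sub_distrib]
      refine Finset.sum_congr rfl fun v _ => ?_
      rw [Kv_end, Kv_start, ← mul_sub]
    rw [k1, hS0, Complex.ofReal_sum]
    refine Finset.sum_congr rfl fun v _ => ?_
    rw [mul_comm, Complex.mul_conj, Complex.normSq_eq_norm_sq]
  rw [hval, Complex.norm_real, Real.norm_eq_abs, abs_of_nonneg hS00, sub_zero, Real.norm_eq_abs,
    abs_of_nonneg ht] at hmv
  -- `S0 ≤ C t`
  have h8 : S0 ^ 2 ≤ (S0 * (4 * (lam * b) ^ 2 * B.card)) * t ^ 2 := by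
    calc S0 ^ 2 ≤ (C * t) ^ 2 := pow_le_pow_left₀ hS00 hmv 2
      _ = _ := by
          rw [mul_pow, hC, Real.sq_sqrt (by positivity)]
  rcases hS00.eq_or_lt with h9 | h9
  · have h11 : 0 ≤ 4 * (lam * b * t) ^ 2 * (B.card : ℝ) :=
      mul_nonneg (mul_nonneg (by norm_num) (sq_nonneg _)) (Nat.cast_nonneg _)
    linarith
  · have h10 : S0 * S0 ≤ S0 * (4 * (lam * b * t) ^ 2 * B.card) := by
      calc S0 * S0 = S0 ^ 2 := by ring
        _ ≤ _ := h8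
        _ = _ := by ring
    exact le_of_mul_le_mul_left h10 h9

end

end Pool.Agent.Zk93.FT
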