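import Pool.Agent.Zk93.FT.Inc
import Pool.Agent.Zk93.TE.AnnM

/-! The disorder average of the evolution at fixed times. -/

set_option autoImplicit false

open scoped BigOperators Topology InnerProductSpace
open MeasureTheory Filter

namespace Pool.Agent.Zk93.FT

open Pool.Agent.Zk11.QD (Zd HZ PZ g0 h0 g0_pos)
open Pool.Agent.Zk11.QQ (sh ex ex_norm sh_map sh_meas)
open Pool.Agent.Zk93.TE

variable {d : ℕ}

/-! ### the limit profile -/

theorem Mt_int (hd : 3 ≤ d) {V : ℝ} (hV : 0 < V) {c : ℝ} (hc : 0 ≤ c) (τ : ℝ) (hτ : 0 ≤ τ) :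
    IntegrableOn (fun E => (g0 d E).im * Real.exp (-(2 * τ * Dd d V E * c)))
      (Set.Ioo 0 (4 * d : ℝ)) := by
  refine Integrable.mono' (dos_int hd) ?_ ?_
  · refine ((g0_im_cont hd).measurable.mul (Real.measurable_exp.comp
      (((measurable_const.mul (Dd_meas hd V)).mul_const c).neg))).aestronglyMeasurable
  · refine (ae_restrict_mem measurableSet_Ioo).mono fun E hE => ?_
    have h1 := Dd_nonneg hd hV hE
    have h2 := g0_pos hd E hE.1 hE.2
    rw [Real.norm_eq_abs, abs_of_nonneg (by positivity)]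
    have h3 : Real.exp (-(2 * τ * Dd d V E * c)) ≤ 1 := by
      rw [Real.exp_le_one_iff]
      have : 0 ≤ 2 * τ * Dd d V E * c := by positivity
      linarith
    nlinarith

theorem Mt_zero (hd : 3 ≤ d) (V c : ℝ) : Mt d V c 0 = Real.pi := by
  unfold Mt
  rw [← dos_one hd]
  simp

/-- the increments of the profile -/
theorem Mt_incr (hd : 3 ≤ d) {V : ℝ} (hV : 0 < V) {c : ℝ} (hc : 0 ≤ c) (τ σ : ℝ) (hτ : 0 ≤ τ)
    (hσ : 0 ≤ σ) : |Mt d V c (τ + σ) - Mt d V c τ| ≤ Real.pi - Mt d V c σ := by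
  have i1 := Mt_int hd hV hc (τ + σ) (by positivity)
  have i2 := Mt_int hd hV hc τ hτ
  have i3 := Mt_int hd hV hc σ hσ
  have i4 := dos_int hd
  rw [← dos_one hd]
  unfold Mt
  rw [← integral_sub i1 i2, ← integral_sub i4 i3, ← Real.norm_eq_abs]
  refine norm_integral_le_of_norm_le (i4.sub i3) ?_
  refine (ae_restrict_mem measurableSet_Ioo).mono fun E hE => ?_
  have h1 := Dd_nonneg hd hV hE
  have h2 := g0_pos hd E hE.1 hE.2
  have e1 : (g0 d E).im * Real.exp (-(2 * (τ + σ) * Dd d V E * c)) -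
      (g0 d E).im * Real.exp (-(2 * τ * Dd d V E * c)) =
      -((g0 d E).im * Real.exp (-(2 * τ * Dd d V E * c)) *
        (1 - Real.exp (-(2 * σ * Dd d V E * c)))) := by
    have : -(2 * (τ + σ) * Dd d V E * c) = -(2 * τ * Dd d V E * c) + -(2 * σ * Dd d V E * c) := by
      ring
    rw [this, Real.exp_add]
    ring
  have h3 : Real.exp (-(2 * σ * Dd d V E * c)) ≤ 1 := by
    rw [Real.exp_le_one_iff]
    have : 0 ≤ 2 * σ * Dd d V E * c := by positivity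
    linarith
  have h4 : Real.exp (-(2 * τ * Dd d V E * c)) ≤ 1 := by
    rw [Real.exp_le_one_iff]
    have : 0 ≤ 2 * τ * Dd d V E * c := by positivity
    linarith
  rw [e1, norm_neg, Real.norm_eq_abs, abs_of_nonneg (by
    have := Real.exp_pos (-(2 * τ * Dd d V E * c))
    have h5 : 0 ≤ 1 - Real.exp (-(2 * σ * Dd d V E * c)) := by linarith
    positivity)]
  have h5 : 0 ≤ 1 - Real.exp (-(2 * σ * Dd d V E * c)) := by linarith
  calc (g0 d E).im * Real.exp (-(2 * τ * Dd d V E * c)) *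
        (1 - Real.exp (-(2 * σ * Dd d V E * c))) ≤
        (g0 d E).im * 1 * (1 - Real.exp (-(2 * σ * Dd d V E * c))) := by gcongr
    _ = _ := by ring

/-- uniform smallness near time zero -/
theorem Mt_small (hd : 3 ≤ d) (v0 C ε : ℝ) (hv0 : 0 < v0) (hC : 0 ≤ C) (hε : 0 < ε) :
    ∃ ρ : ℝ, 0 < ρ ∧ ρ ≤ 1 ∧ ∀ σ : ℝ, 0 ≤ σ → σ ≤ ρ → ∀ V : ℝ, v0 ≤ V → ∀ c : ℝ, 0 ≤ c → c ≤ C →
      Real.pi - Mt d V c σ ≤ ε := by
  -- reduction to one function
  have hlim : Tendsto (fun s : ℝ => Mt d v0 C s) (𝓝[>] 0) (𝓝 Real.pi) := by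
    rw [← Mt_zero hd v0 C]
    unfold Mt
    refine tendsto_integral_filter_of_dominated_convergence (fun E => (g0 d E).im) ?_ ?_
      (dos_int hd) ?_
    · filter_upwards [self_mem_nhdsWithin] with s hs
      exact (Mt_int hd hv0 hC s (le_of_lt hs)).aestronglyMeasurable
    · filter_upwards [self_mem_nhdsWithin] with s hs
      refine (ae_restrict_mem measurableSet_Ioo).mono fun E hE => ?_
      have hs' : (0 : ℝ) < s := hs
      have h1 := Dd_nonneg hd hv0 hE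
      have h2 := g0_pos hd E hE.1 hE.2
      rw [Real.norm_eq_abs, abs_of_nonneg (by positivity)]
      have h3 : Real.exp (-(2 * s * Dd d v0 E * C)) ≤ 1 := by
        rw [Real.exp_le_one_iff]
        have : 0 ≤ 2 * s * Dd d v0 E * C := by positivity
        linarith
      nlinarith
    · refine Eventually.of_forall fun E => ?_
      have hc : Continuous fun s : ℝ => (g0 d E).im * Real.exp (-(2 * s * Dd d v0 E * C)) := by
        fun_prop
      exact (hc.tendsto 0).mono_left nhdsWithin_le_nhds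
  have hev := hlim.eventually_const_le (show Real.pi - ε < Real.pi by linarith)
  obtain ⟨r, hr, hsub⟩ := mem_nhdsGT_iff_exists_Ioo_subset.1 hev
  have hr0 : (0 : ℝ) < r := hr
  refine ⟨min (r / 2) 1, lt_min (by linarith) one_pos, min_le_right _ _, ?_⟩
  intro σ hσ0 hσ1 V hV c hc0 hcC
  have hV0 : 0 < V := lt_of_lt_of_le hv0 hV
  set ρ := min (r / 2) 1 with hρ
  have hρ0 : 0 < ρ := lt_min (by linarith) one_pos
  have hρr : ρ < r := lt_of_le_of_lt (min_le_left _ _) (by linarith)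
  have h1 : Real.pi - ε ≤ Mt d v0 C ρ := hsub ⟨hρ0, hρr⟩
  have h2 : Mt d v0 C ρ ≤ Mt d V c σ := by
    unfold Mt
    refine setIntegral_mono_on (Mt_int hd hv0 hC ρ hρ0.le) (Mt_int hd hV0 hc0 σ hσ0)
      measurableSet_Ioo fun E hE => ?_
    have h3 := g0_pos hd E hE.1 hE.2
    have h4 := Zk11.QD.h0_pos hd E hE.1 hE.2
    refine mul_le_mul_of_nonneg_left (Real.exp_le_exp.2 (neg_le_neg ?_)) h3.le
    have h5 : Dd d V E ≤ Dd d v0 E := by
      unfold Dd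
      gcongr
    have h6 := Dd_nonneg hd hV0 hE
    have h7 := Dd_nonneg hd hv0 hE
    have h8 : 2 * σ * Dd d V E * c ≤ 2 * ρ * Dd d v0 E * C := by gcongr
    exact h8
  linarith

/-! ### fixed times -/

section
variable (μ : Measure ℝ) [IsProbabilityMeasure μ] {b : ℝ} (hb : 0 ≤ b) (lam : ℝ)
  (θ : Fin d → ℝ)

/-- the mean profile -/
noncomputable def mf (μ : Measure ℝ) (b lam : ℝ) (θ : Fin d → ℝ) (t : ℝ) : ℂ :=
  ∫ ω, Spc lam b θ t ω ∂(PZ d μ)

theorem mf_le (hb : 0 ≤ b) (t : ℝ) : ‖mf μ b lam θ t‖ ≤ 1 := by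
  unfold mf
  refine (norm_integral_le_of_norm_le_const (C := 1)
    (Eventually.of_forall fun ω => Spc_le hb lam θ t ω)).trans ?_
  simp

theorem mf_meas (hb : 0 ≤ b) : StronglyMeasurable (mf μ b lam θ) := by
  have h1 : Measurable fun p : ℝ × (Zd d → ℝ) => Spc lam b θ p.1 p.2 := Spc_meas2 hb lam θ
  exact h1.stronglyMeasurable.integral_prod_right'

/-- the increments of the mean profile -/
theorem mf_incr (hb : 0 ≤ b) (s t : ℝ) :
    ‖mf μ b lam θ (s + t) - mf μ b lam θ t‖ ^ 2 ≤ 2 - 2 * (mf μ b lam θ s).re := by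
  refine le_trans ?_ (incr μ lam θ hb s t)
  have i1 : Integrable (fun ω => Spc lam b θ (s + t) ω) (PZ d μ) := Spc_int μ hb lam θ (s + t)
  have i2 : Integrable (fun ω => Spc lam b θ t ω) (PZ d μ) := Spc_int μ hb lam θ t
  unfold mf
  rw [← integral_sub i1 i2]
  set F : (Zd d → ℝ) → ℂ := fun ω => Spc lam b θ (s + t) ω - Spc lam b θ t ω with hF
  have hFm : Measurable F := (Spc_meas lam θ hb (s + t)).sub (Spc_meas lam θ hb t)
  have hFb : ∀ ω, ‖F ω‖ ≤ 2 := fun ω => (norm_sub_le _ _).trans (by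
    have := Spc_le hb lam θ (s + t) ω
    have := Spc_le hb lam θ t ω
    linarith)
  have j1 : Integrable (fun ω => ‖F ω‖) (PZ d μ) :=
    Integrable.of_bound hFm.norm.aestronglyMeasurable 2 (Eventually.of_forall fun ω => by
      rw [norm_norm]
      exact hFb ω)
  have j2 : Integrable (fun ω => ‖F ω‖ ^ 2) (PZ d μ) :=
    Integrable.of_bound (hFm.norm.pow_const 2).aestronglyMeasurable 4
      (Eventually.of_forall fun ω => by
        rw [Real.norm_eq_abs, abs_of_nonneg (by positivity)]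
        calc ‖F ω‖ ^ 2 ≤ 2 ^ 2 := pow_le_pow_left₀ (norm_nonneg _) (hFb ω) 2
          _ = 4 := by norm_num)
  have h1 : ‖∫ ω, F ω ∂(PZ d μ)‖ ≤ ∫ ω, ‖F ω‖ ∂(PZ d μ) := norm_integral_le_integral_norm _
  set m := ∫ ω, ‖F ω‖ ∂(PZ d μ) with hm
  have h2 : 0 ≤ ∫ ω, (‖F ω‖ - m) ^ 2 ∂(PZ d μ) := integral_nonneg fun _ => sq_nonneg _
  have h3 : ∫ ω, (‖F ω‖ - m) ^ 2 ∂(PZ d μ) = ∫ ω, ‖F ω‖ ^ 2 ∂(PZ d μ) - m ^ 2 := by
    have e1 : ∀ ω, (‖F ω‖ - m) ^ 2 = (‖F ω‖ ^ 2 - (2 * m) * ‖F ω‖) + m ^ 2 := fun ω => by ring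
    simp only [e1]
    have k1 : Integrable (fun ω => ‖F ω‖ ^ 2 - (2 * m) * ‖F ω‖) (PZ d μ) :=
      j2.sub (j1.const_mul _)
    have k2 : ∫ ω, ((‖F ω‖ ^ 2 - (2 * m) * ‖F ω‖) + m ^ 2) ∂(PZ d μ) =
        ∫ ω, (‖F ω‖ ^ 2 - (2 * m) * ‖F ω‖) ∂(PZ d μ) + ∫ _ω, m ^ 2 ∂(PZ d μ) :=
      integral_add k1 (integrable_const _)
    have k3 : ∫ ω, (‖F ω‖ ^ 2 - (2 * m) * ‖F ω‖) ∂(PZ d μ) =
        ∫ ω, ‖F ω‖ ^ 2 ∂(PZ d μ) - (2 * m) * m := by
      rw [integral_sub j2 (j1.const_mul _), integral_const_mul, ← hm]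
    rw [k2, k3]
    simp
    ring
  have h4 : ‖∫ ω, F ω ∂(PZ d μ)‖ ^ 2 ≤ m ^ 2 := pow_le_pow_left₀ (norm_nonneg _) h1 2
  linarith

/-- **windows to fixed times** -/
theorem win_fix (hb : 0 ≤ b) (T : ℝ) (g : ℝ → ℝ) (hgm : StronglyMeasurable g)
    (R ρ ε₁ ε : ℝ) (hρ : 0 < ρ) (hρ1 : ρ ≤ 1) (hε : 0 < ε) (hε1 : ε ≤ 1)
    (hε₁ : ε₁ ≤ ε ^ 2 / 8) (hR : 0 ≤ R)
    (hg0 : ∀ τ, 0 ≤ τ → |g τ| ≤ 1)
    (hg1 : ∀ σ, 0 ≤ σ → σ ≤ ρ → 1 - g σ ≤ ε₁)
    (hg2 : ∀ τ σ, 0 ≤ τ → 0 ≤ σ → σ ≤ ρ → |g (τ + σ) - g τ| ≤ ε₁)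
    (hw : ∀ a c : ℝ, 0 ≤ a → a ≤ c → c ≤ R + 1 →
      ‖∫ τ in a..c, (mf μ b lam θ (τ * T) - ((g τ : ℝ) : ℂ))‖ ≤ ρ * ε₁)
    (τ : ℝ) (hτ0 : 0 ≤ τ) (hτ1 : τ ≤ R) : ‖mf μ b lam θ (τ * T) - ((g τ : ℝ) : ℂ)‖ ≤ ε := by
  have hmm : StronglyMeasurable fun s : ℝ => mf μ b lam θ (s * T) :=
    (mf_meas μ lam θ hb).comp_measurable (measurable_id.mul_const T)
  have hfi : ∀ a c : ℝ, IntervalIntegrable (fun s => mf μ b lam θ (s * T)) volume a c := by
    intro a c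
    exact (intervalIntegrable_const (c := (1 : ℝ))).mono_fun hmm.aestronglyMeasurable
      (Eventually.of_forall fun s => by
        rw [norm_one]
        exact mf_le μ lam θ hb _)
  have hfs : IntervalIntegrable (fun s => mf μ b lam θ ((τ + s) * T)) volume 0 ρ := by
    have hm2 : StronglyMeasurable fun s : ℝ => mf μ b lam θ ((τ + s) * T) :=
      (mf_meas μ lam θ hb).comp_measurable ((measurable_const.add measurable_id).mul_const T)
    exact (intervalIntegrable_const (c := (1 : ℝ))).mono_fun hm2.aestronglyMeasurable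
      (Eventually.of_forall fun s => by
        rw [norm_one]
        exact mf_le μ lam θ hb _)
  have hgi : ∀ a c : ℝ, 0 ≤ a → 0 ≤ c → IntervalIntegrable g volume a c := by
    intro a c ha hc
    refine (intervalIntegrable_const (c := (1 : ℝ))).mono_fun hgm.aestronglyMeasurable ?_
    refine (ae_restrict_mem measurableSet_uIoc).mono fun s hs => ?_
    change ‖g s‖ ≤ ‖(1 : ℝ)‖
    rw [norm_one, Real.norm_eq_abs]
    apply hg0
    have := hs.1
    have h3 : 0 ≤ min a c := le_min ha hc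
    linarith
  have hgic : ∀ a c : ℝ, 0 ≤ a → 0 ≤ c →
      IntervalIntegrable (fun s => ((g s : ℝ) : ℂ)) volume a c := by
    intro a c ha hc
    exact ⟨(hgi a c ha hc).1.ofReal, (hgi a c ha hc).2.ofReal⟩
  have hgs : IntervalIntegrable (fun s => g (τ + s)) volume 0 ρ := by
    have hm2 : StronglyMeasurable fun s : ℝ => g (τ + s) :=
      hgm.comp_measurable (measurable_const.add measurable_id)
    refine (intervalIntegrable_const (c := (1 : ℝ))).mono_fun hm2.aestronglyMeasurable ?_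
    refine (ae_restrict_mem measurableSet_uIoc).mono fun s hs => ?_
    change ‖g (τ + s)‖ ≤ ‖(1 : ℝ)‖
    rw [norm_one, Real.norm_eq_abs]
    apply hg0
    have := hs.1
    rw [min_eq_left hρ.le] at this
    linarith
  have hgsc : IntervalIntegrable (fun s => ((g (τ + s) : ℝ) : ℂ)) volume 0 ρ :=
    ⟨hgs.1.ofReal, hgs.2.ofReal⟩
  -- mass near time zero
  have hz1 := hw 0 ρ le_rfl hρ.le (by linarith)
  rw [intervalIntegral.integral_sub (hfi 0 ρ) (hgic 0 ρ le_rfl hρ.le)] at hz1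
  have hz2 : ∫ s in (0 : ℝ)..ρ, (1 - (mf μ b lam θ (s * T)).re) ≤ 2 * (ρ * ε₁) := by
    have e1 : ∫ s in (0 : ℝ)..ρ, (mf μ b lam θ (s * T)).re =
        (∫ s in (0 : ℝ)..ρ, mf μ b lam θ (s * T)).re := by
      have := (Complex.reCLM).intervalIntegral_comp_comm (hfi 0 ρ)
      simpa using this
    have e2 : (∫ s in (0 : ℝ)..ρ, ((g s : ℝ) : ℂ)).re = ∫ s in (0 : ℝ)..ρ, g s := by
      rw [intervalIntegral.integral_ofReal, Complex.ofReal_re]
    have hre : IntervalIntegrable (fun s => (mf μ b lam θ (s * T)).re) volume 0 ρ := by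
      have := (hfi 0 ρ)
      exact ⟨this.1.re, this.2.re⟩
    rw [intervalIntegral.integral_sub intervalIntegrable_const hre, e1]
    have h3 : |(∫ s in (0 : ℝ)..ρ, mf μ b lam θ (s * T)).re - ∫ s in (0 : ℝ)..ρ, g s| ≤
        ρ * ε₁ := by
      rw [← e2, ← Complex.sub_re]
      exact (Complex.abs_re_le_norm _).trans hz1
    have h4 : ∫ s in (0 : ℝ)..ρ, (1 - g s) ≤ ρ * ε₁ := by
      have h5 : ∫ s in (0 : ℝ)..ρ, (1 - g s) ≤ ∫ _s in (0 : ℝ)..ρ, ε₁ := by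
        refine intervalIntegral.integral_mono_on hρ.le
          (intervalIntegrable_const.sub (hgi 0 ρ le_rfl hρ.le)) intervalIntegrable_const ?_
        intro s hs
        exact hg1 s hs.1 hs.2
      rw [intervalIntegral.integral_const, smul_eq_mul, sub_zero] at h5
      exact h5
    rw [intervalIntegral.integral_sub intervalIntegrable_const (hgi 0 ρ le_rfl hρ.le)] at h4
    have := (abs_le.1 h3).1
    linarith
  -- the window at `τ`
  have hw1 := hw τ (τ + ρ) hτ0 (by linarith) (by linarith)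
  have e3 : ∫ s in τ..τ + ρ, (mf μ b lam θ (s * T) - ((g s : ℝ) : ℂ)) =
      ∫ s in (0 : ℝ)..ρ, (mf μ b lam θ ((τ + s) * T) - ((g (τ + s) : ℝ) : ℂ)) := by
    rw [intervalIntegral.integral_comp_add_left
      (fun s => mf μ b lam θ (s * T) - ((g s : ℝ) : ℂ)) τ, add_zero]
  rw [e3] at hw1
  have e4 : ((ρ : ℝ) : ℂ) * (mf μ b lam θ (τ * T) - ((g τ : ℝ) : ℂ)) =
      (∫ s in (0 : ℝ)..ρ, (mf μ b lam θ ((τ + s) * T) - ((g (τ + s) : ℝ) : ℂ))) -
      (∫ s in (0 : ℝ)..ρ, (mf μ b lam θ ((τ + s) * T) - mf μ b lam θ (τ * T))) +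
      ∫ s in (0 : ℝ)..ρ, (((g (τ + s) - g τ : ℝ)) : ℂ) := by
    have e5 : ∫ s in (0 : ℝ)..ρ, (((g (τ + s) - g τ : ℝ)) : ℂ) =
        (∫ s in (0 : ℝ)..ρ, ((g (τ + s) : ℝ) : ℂ)) - ρ * ((g τ : ℝ) : ℂ) := by
      simp only [Complex.ofReal_sub]
      rw [intervalIntegral.integral_sub hgsc intervalIntegrable_const,
        intervalIntegral.integral_const]
      simp
    rw [e5, intervalIntegral.integral_sub hfs hgsc,
      intervalIntegral.integral_sub hfs intervalIntegrable_const, intervalIntegral.integral_const]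
    simp only [sub_zero, Complex.real_smul]
    ring
  have h6 : ‖∫ s in (0 : ℝ)..ρ, (((g (τ + s) - g τ : ℝ)) : ℂ)‖ ≤ ρ * ε₁ := by
    have h7 := intervalIntegral.norm_integral_le_of_norm_le_const (a := 0) (b := ρ) (C := ε₁)
      (f := fun s => (((g (τ + s) - g τ : ℝ)) : ℂ)) (fun s hs => by
        rw [Set.uIoc_of_le hρ.le] at hs
        rw [Complex.norm_real, Real.norm_eq_abs]
        exact hg2 τ s hτ0 hs.1.le hs.2)
    rw [sub_zero, abs_of_pos hρ] at h7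
    linarith
  have h8 : ‖∫ s in (0 : ℝ)..ρ, (mf μ b lam θ ((τ + s) * T) - mf μ b lam θ (τ * T))‖ ≤
      ρ * (ε / 2) + 1 / ε * (2 * (ρ * ε₁)) := by
    have hre : IntervalIntegrable (fun s => (mf μ b lam θ (s * T)).re) volume 0 ρ := by
      have := (hfi 0 ρ)
      exact ⟨this.1.re, this.2.re⟩
    have h9 : ‖∫ s in (0 : ℝ)..ρ, (mf μ b lam θ ((τ + s) * T) - mf μ b lam θ (τ * T))‖ ≤
        ∫ s in (0 : ℝ)..ρ, (ε / 2 + 1 / ε * (1 - (mf μ b lam θ (s * T)).re)) := by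
      refine intervalIntegral.norm_integral_le_of_norm_le hρ.le ?_ ?_
      · refine Eventually.of_forall fun s hs => ?_
        have h10 := mf_incr μ lam θ hb (s * T) (τ * T)
        have e6 : s * T + τ * T = (τ + s) * T := by ring
        rw [e6] at h10
        set x := ‖mf μ b lam θ ((τ + s) * T) - mf μ b lam θ (τ * T)‖ with hx
        -- `x ≤ ε / 2 + x ^ 2 / (2 ε)`
        have h11 : x ≤ ε / 2 + 1 / ε * (x ^ 2 / 2) := by
          have h12 : ε / 2 + 1 / ε * (x ^ 2 / 2) - x = (x - ε) ^ 2 / (2 * ε) := by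
            field_simp
            ring
          have h13 : 0 ≤ (x - ε) ^ 2 / (2 * ε) := by positivity
          linarith
        refine h11.trans ?_
        have h14 : x ^ 2 / 2 ≤ 1 - (mf μ b lam θ (s * T)).re := by linarith
        have h15 := mul_le_mul_of_nonneg_left h14 (show 0 ≤ 1 / ε by positivity)
        linarith
      · exact intervalIntegrable_const.add ((intervalIntegrable_const.sub hre).const_mul _)
    refine h9.trans ?_
    rw [intervalIntegral.integral_add intervalIntegrable_const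
      ((intervalIntegrable_const.sub hre).const_mul _), intervalIntegral.integral_const,
      intervalIntegral.integral_const_mul, sub_zero, smul_eq_mul]
    have := mul_le_mul_of_nonneg_left hz2 (show 0 ≤ 1 / ε by positivity)
    linarith
  have h16 : ρ * ‖mf μ b lam θ (τ * T) - ((g τ : ℝ) : ℂ)‖ ≤
      ρ * ε₁ + (ρ * (ε / 2) + 1 / ε * (2 * (ρ * ε₁))) + ρ * ε₁ := by
    have h17 : ρ * ‖mf μ b lam θ (τ * T) - ((g τ : ℝ) : ℂ)‖ =
        ‖((ρ : ℝ) : ℂ) * (mf μ b lam θ (τ * T) - ((g τ : ℝ) : ℂ))‖ := by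
      rw [norm_mul, Complex.norm_real, Real.norm_eq_abs, abs_of_pos hρ]
    rw [h17, e4]
    refine (norm_add_le _ _).trans ?_
    refine add_le_add ((norm_sub_le _ _).trans (add_le_add hw1 h8)) h6
  have h18 : ρ * ε₁ + (ρ * (ε / 2) + 1 / ε * (2 * (ρ * ε₁))) + ρ * ε₁ =
      ρ * (2 * ε₁ + ε / 2 + 2 / ε * ε₁) := by ring
  rw [h18] at h16
  have h19 := le_of_mul_le_mul_left h16 hρ
  refine h19.trans ?_
  have h20 : 2 / ε * ε₁ ≤ ε / 4 := by
    calc 2 / ε * ε₁ ≤ 2 / ε * (ε ^ 2 / 8) := mul_le_mul_of_nonneg_left hε₁ (by positivity)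
      _ = ε / 4 := by field_simp; norm_num
  have h21 : 2 * ε₁ ≤ ε / 4 := by nlinarith
  linarith

end

/-- **fixed times, disorder average** -/
theorem fixA (hd : 3 ≤ d) (b v0 : ℝ) (hv0 : 0 < v0) (κ : ℝ) (hκ0 : 0 < κ) (hκ1 : κ < 1 / 2)
    (R : ℝ) (ε : ℝ) (hε : 0 < ε) :
    ∃ δ : ℝ, 0 < δ ∧ ∀ (μ : Measure ℝ) [IsProbabilityMeasure μ], (∀ᵐ s ∂μ, |s| ≤ b) →
      ∀ V : ℝ, V = ∫ s, (s - ∫ t, t ∂μ) ^ 2 ∂μ → v0 ≤ V → ∀ lam : ℝ, 0 < lam → lam < δ →
      ∀ T : ℝ, lam ^ (-2 : ℝ) / δ ≤ T → T ≤ lam ^ (-(2 + κ)) →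
      ∀ P : Fin d → ℝ, (∀ j, |P j| ≤ R) → ∀ τ : ℝ, 0 ≤ τ → τ ≤ R →
      ‖mf μ b lam (fun j => lam / Real.sqrt T * P j) (τ * T) -
          ((Real.pi⁻¹ * Mt d V (∑ j, P j ^ 2) τ : ℝ) : ℂ)‖ ≤ ε := by
  have hpi := Real.pi_pos
  set ε' : ℝ := min ε 1 with hε'
  have hε'0 : 0 < ε' := lt_min hε one_pos
  set R' : ℝ := |R| with hR'
  have hR'0 : 0 ≤ R' := abs_nonneg R
  obtain ⟨ρ, hρ0, hρ1, hρ⟩ := Mt_small (d := d) hd v0 (d * R' ^ 2) (Real.pi * (ε' ^ 2 / 8)) hv0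
    (by positivity) (by positivity)
  obtain ⟨δ, hδ, h⟩ := evoA hd b v0 hv0 κ hκ0 hκ1 (R' + 1) (ρ * (ε' ^ 2 / 8)) (by positivity)
  refine ⟨δ, hδ, fun μ hμ hb V hV hv lam hl0 hl1 T hT1 hT2 P hP τ hτ0 hτ1 => ?_⟩
  have hb0 : 0 ≤ b := by
    obtain ⟨s, hs⟩ := hb.exists
    exact (abs_nonneg s).trans hs
  have hV0 : 0 < V := lt_of_lt_of_le hv0 hv
  obtain ⟨-, h2⟩ := h μ hb V hV hv lam hl0 hl1 (fun ω => psi lam (cl b ω) 0) (by
    filter_upwards [Zk11.QQ.ae_Z (d := d) μ b hb] with ω hω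
    rw [cl_eq hω]
    exact psi_ev hω 0)
  have hψ : ∀ᵐ ω ∂(PZ d μ), Ev lam ω 0 (psi lam (cl b ω) 0) := by
    filter_upwards [Zk11.QQ.ae_Z (d := d) μ b hb] with ω hω
    rw [cl_eq hω]
    exact psi_ev hω 0
  have hP' : ∀ j, |P j| ≤ R' := fun j => (hP j).trans (le_abs_self R)
  have hc0 : 0 ≤ ∑ j, P j ^ 2 := Finset.sum_nonneg fun _ _ => sq_nonneg _
  have hcC : ∑ j, P j ^ 2 ≤ d * R' ^ 2 := by
    have h3 : ∀ j ∈ (Finset.univ : Finset (Fin d)), P j ^ 2 ≤ R' ^ 2 := fun j _ => by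
      rw [← sq_abs]
      exact pow_le_pow_left₀ (abs_nonneg _) (hP' j) 2
    refine (Finset.sum_le_sum h3).trans ?_
    simp
  have hmain := win_fix μ lam (fun j => lam / Real.sqrt T * P j) hb0 T
    (fun τ => Real.pi⁻¹ * Mt d V (∑ j, P j ^ 2) τ) ((Mt_meas hd V _).const_mul _)
    R' ρ (ε' ^ 2 / 8) ε' hρ0 hρ1 hε'0 (min_le_right _ _) le_rfl hR'0 ?_ ?_ ?_ ?_ τ hτ0
    (hτ1.trans (le_abs_self R))
  · exact hmain.trans (min_le_left _ _)
  · intro σ hσ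
    have h3 := Mt_bd hd hV0 hc0 σ hσ
    rw [abs_of_nonneg (by have := h3.1; positivity)]
    calc Real.pi⁻¹ * Mt d V (∑ j, P j ^ 2) σ ≤ Real.pi⁻¹ * Real.pi :=
          mul_le_mul_of_nonneg_left h3.2 (by positivity)
      _ = 1 := inv_mul_cancel₀ hpi.ne'
  · intro σ hσ0 hσ1
    have h3 := hρ σ hσ0 hσ1 V hv _ hc0 hcC
    have h4 : 1 - Real.pi⁻¹ * Mt d V (∑ j, P j ^ 2) σ =
        Real.pi⁻¹ * (Real.pi - Mt d V (∑ j, P j ^ 2) σ) := by
      field_simp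
    change 1 - Real.pi⁻¹ * Mt d V (∑ j, P j ^ 2) σ ≤ _
    rw [h4]
    calc _ ≤ Real.pi⁻¹ * (Real.pi * (ε' ^ 2 / 8)) := mul_le_mul_of_nonneg_left h3 (by positivity)
      _ = _ := by field_simp
  · intro t σ ht hσ0 hσ1
    have h3 := hρ σ hσ0 hσ1 V hv _ hc0 hcC
    have h5 := Mt_incr hd hV0 hc0 t σ ht hσ0
    change |Real.pi⁻¹ * Mt d V (∑ j, P j ^ 2) (t + σ) - Real.pi⁻¹ * Mt d V (∑ j, P j ^ 2) t| ≤ _
    rw [← mul_sub, abs_mul, abs_of_pos (by positivity)]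
    calc _ ≤ Real.pi⁻¹ * (Real.pi * (ε' ^ 2 / 8)) :=
          mul_le_mul_of_nonneg_left (h5.trans h3) (by positivity)
      _ = _ := by field_simp
  · intro a c ha hac hcR
    have h3 := h2 T hT1 hT2 P (fun j => (hP' j).trans (by linarith)) a c ha hac hcR
    refine le_trans (le_of_eq ?_) h3
    congr 1
    refine intervalIntegral.integral_congr fun s _ => ?_
    congr 1
    exact (Spc_tsum μ hb0 hb lam _ (s * T) _ hψ).2.symm

end Pool.Agent.Zk93.FT
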