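import Pool.Agent.Zk93.FT.Op
import Pool.Agent.Zk93.TE.Ann

/-! Stationarity of the increments of the position: the mean profile `f(t) = E ⟨ψ_t, e^{iθX} ψ_t⟩`
satisfies `|f(t+s) - f(t)|² ≤ 2 (1 - Re f(s))`. -/

set_option autoImplicit false

open scoped BigOperators Topology InnerProductSpace
open MeasureTheory Filter

namespace Pool.Agent.Zk93.FT

open Pool.Agent.Zk11.QD (Zd HZ PZ)
open Pool.Agent.Zk11.QQ (sh ex ex_norm sh_map sh_meas)
open Pool.Agent.Zk93.TE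

variable {d : ℕ}

/-- multiplication by the plane wave -/
noncomputable def Xp (θ : Fin d → ℝ) : E2 d →L[ℂ] E2 d := M (ex θ) 1 fun x => (ex_norm θ x).le

theorem Xp_apply (θ : Fin d → ℝ) (u : E2 d) (x : Zd d) : Xp θ u x = ex θ x * u x := rfl

theorem ex_conj_mul (θ : Fin d → ℝ) (x : Zd d) : (starRingEnd ℂ) (ex θ x) * ex θ x = 1 := by
  rw [mul_comm, Complex.mul_conj, Complex.normSq_eq_norm_sq, ex_norm]
  simp

theorem Xp_inner (θ : Fin d → ℝ) (u v : E2 d) : ⟪Xp θ u, Xp θ v⟫_ℂ = ⟪u, v⟫_ℂ := by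
  rw [lp.inner_eq_tsum, lp.inner_eq_tsum]
  refine tsum_congr fun x => ?_
  simp only [RCLike.inner_apply, Xp_apply, map_mul]
  have := ex_conj_mul θ x
  linear_combination (v x * (starRingEnd ℂ) (u x)) * this

theorem Xp_norm (θ : Fin d → ℝ) (u : E2 d) : ‖Xp θ u‖ = ‖u‖ := by
  have h := Xp_inner θ u u
  rw [inner_self_eq_norm_sq_to_K, inner_self_eq_norm_sq_to_K] at h
  have h2 : ‖Xp θ u‖ ^ 2 = ‖u‖ ^ 2 := by exact_mod_cast h
  exact (pow_left_inj₀ (norm_nonneg _) (norm_nonneg _) two_ne_zero).1 h2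

/-- the profile as a matrix element -/
theorem Sp_inner (θ : Fin d → ℝ) (u : E2 d) :
    ⟪u, Xp θ u⟫_ℂ = ∑' x, ex θ x * ((‖u x‖ ^ 2 : ℝ) : ℂ) := by
  rw [lp.inner_eq_tsum]
  refine tsum_congr fun x => ?_
  simp only [RCLike.inner_apply, Xp_apply]
  have : u x * (starRingEnd ℂ) (u x) = ((‖u x‖ ^ 2 : ℝ) : ℂ) := by
    rw [Complex.mul_conj, Complex.normSq_eq_norm_sq]
  rw [← this]
  ring

section
variable {b : ℝ} (hb : 0 ≤ b) (lam : ℝ) (θ : Fin d → ℝ)

/-- the group for the truncated potential -/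
noncomputable def W (t : ℝ) (ω : Zd d → ℝ) : E2 d →L[ℂ] E2 d := U lam (cl_bd hb ω) t

theorem W_psi (t : ℝ) (ω : Zd d → ℝ) (y x : Zd d) :
    W hb lam t ω (dl y) x = psi lam (cl b ω) y t x := (psi_eq lam (cl_bd hb ω) y t x).symm

theorem Spc_inner (t : ℝ) (ω : Zd d → ℝ) :
    Spc lam b θ t ω = ⟪W hb lam t ω (dl 0), Xp θ (W hb lam t ω (dl 0))⟫_ℂ := by
  rw [Sp_inner]
  unfold Spc Sp
  refine tsum_congr fun x => ?_
  rw [W_psi]

/-- expansion of a vector -/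
theorem expand (T : E2 d →L[ℂ] E2 d) (u v : E2 d) :
    HasSum (fun x => (starRingEnd ℂ) (u x) * ⟪T (dl x), v⟫_ℂ) ⟪T u, v⟫_ℂ := by
  have h1 : HasSum (fun x => u x • dl x) u := by
    have := lp.hasSum_single (E := fun _ : Zd d => ℂ) (p := 2) (by norm_num) u
    refine this.congr_fun fun x => ?_
    unfold dl
    rw [← lp.single_smul, smul_eq_mul, mul_one]
  have h2 := (T.hasSum h1)
  have h3 : HasSum (fun x => ⟪v, T (u x • dl x)⟫_ℂ) ⟪v, T u⟫_ℂ :=
    (innerSL ℂ v).hasSum h2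
  have h4 := (Complex.conjCLE.toContinuousLinearMap).hasSum h3
  refine (h4.congr_fun fun x => ?_) |> fun h => by
    simpa [inner_conj_symm] using h
  simp [inner_conj_symm]

/-- the general shift of the evolution -/
theorem psi_shift (hb : 0 ≤ b) (ω : Zd d → ℝ) (a c : Zd d) (t : ℝ) (x : Zd d) :
    psi lam (cl b ω) (a + c) t (x + c) = psi lam (cl b (sh c ω)) a t x := by
  have h1 := (psi_ev (lam := lam) (cl_bd hb ω) (a + c)).shift
  have h2 := (psi_ev (lam := lam) (cl_bd hb (sh c ω)) a).shift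
  have e : sh (a + c) (cl b ω) = sh a (cl b (sh c ω)) := by
    rw [cl_sh]
    funext z
    unfold sh
    rw [add_assoc]
  have h3 := ev_unique (y := 0) (b := b) (lam := lam) (ω := sh (a + c) (cl b ω))
    (fun x => cl_bd hb ω _) h1 (by rw [e]; exact h2)
  have h4 := congrFun (congrFun h3 t) (x - a)
  have e1 : x - a + (a + c) = x + c := by abel
  have e2 : x - a + a = x := by abel
  change psi lam (cl b ω) (a + c) t (x - a + (a + c)) =
    psi lam (cl b (sh c ω)) a t (x - a + a) at h4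
  rwa [e1, e2] at h4

/-- the summand -/
noncomputable def G (s t : ℝ) (x a : Zd d) (ω : Zd d → ℝ) : ℂ :=
  (starRingEnd ℂ) (ex θ x * W hb lam t ω (dl a) x) *
    ⟪W hb lam s ω (dl x), Xp θ (W hb lam (s + t) ω (dl a))⟫_ℂ

theorem inner_eq (s r : ℝ) (x a : Zd d) (ω : Zd d → ℝ) :
    ⟪W hb lam s ω (dl x), Xp θ (W hb lam r ω (dl a))⟫_ℂ =
      ∑' w, (starRingEnd ℂ) (psi lam (cl b ω) x s w) * (ex θ w * psi lam (cl b ω) a r w) := by
  rw [lp.inner_eq_tsum]
  refine tsum_congr fun w => ?_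
  simp only [RCLike.inner_apply, Xp_apply, W_psi]
  ring

theorem ex_add (x y : Zd d) : ex θ (x + y) = ex θ x * ex θ y := by
  unfold ex
  rw [← Complex.exp_add]
  congr 1
  rw [← add_mul, ← Complex.ofReal_add, ← Finset.sum_add_distrib]
  congr 3
  funext j
  simp only [Pi.add_apply, Int.cast_add]
  ring

theorem G_shift (s t : ℝ) (x a c : Zd d) (ω : Zd d → ℝ) :
    G hb lam θ s t (x + c) (a + c) ω = G hb lam θ s t x a (sh c ω) := by
  unfold G
  rw [inner_eq, inner_eq, W_psi, W_psi, psi_shift lam hb]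
  have h1 : ∑' w, (starRingEnd ℂ) (psi lam (cl b ω) (x + c) s w) *
      (ex θ w * psi lam (cl b ω) (a + c) (s + t) w) =
      ex θ c * ∑' w, (starRingEnd ℂ) (psi lam (cl b (sh c ω)) x s w) *
      (ex θ w * psi lam (cl b (sh c ω)) a (s + t) w) := by
    rw [← tsum_mul_left, ← (Equiv.addRight c).tsum_eq]
    refine tsum_congr fun w => ?_
    simp only [Equiv.coe_addRight]
    rw [psi_shift lam hb, psi_shift lam hb, ex_add]
    ring
  rw [h1, ex_add, map_mul, map_mul, map_mul]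
  have := ex_conj_mul θ c
  set Q := ∑' w, (starRingEnd ℂ) (psi lam (cl b (sh c ω)) x s w) *
      (ex θ w * psi lam (cl b (sh c ω)) a (s + t) w)
  linear_combination ((starRingEnd ℂ) (ex θ x) *
    (starRingEnd ℂ) (psi lam (cl b (sh c ω)) a t x) * Q) * this

theorem W_add (s t : ℝ) (ω : Zd d → ℝ) (u : E2 d) :
    W hb lam (s + t) ω u = W hb lam s ω (W hb lam t ω u) := by
  unfold W
  rw [U_add]
  rfl

theorem W_norm (s : ℝ) (ω : Zd d → ℝ) (u : E2 d) : ‖W hb lam s ω u‖ = ‖u‖ := U_norm _ _ _ _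

theorem W_inner (s : ℝ) (ω : Zd d → ℝ) (u v : E2 d) :
    ⟪W hb lam s ω u, W hb lam s ω v⟫_ℂ = ⟪u, v⟫_ℂ := U_inner _ _ _ _ _

theorem W_left (s : ℝ) (ω : Zd d → ℝ) (u v : E2 d) :
    ⟪W hb lam s ω u, v⟫_ℂ = ⟪u, W hb lam (-s) ω v⟫_ℂ := U_inner_left _ _ _ _ _

theorem W_inv (s : ℝ) (ω : Zd d → ℝ) (u : E2 d) : W hb lam (-s) ω (W hb lam s ω u) = u := by
  rw [← W_add, neg_add_cancel]
  unfold W
  rw [U_zero]
  rfl

theorem W_inv' (s : ℝ) (ω : Zd d → ℝ) (u : E2 d) : W hb lam s ω (W hb lam (-s) ω u) = u := by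
  rw [← W_add, add_neg_cancel]
  unfold W
  rw [U_zero]
  rfl

/-- the sum over the first variable -/
theorem G_sum1 (s t : ℝ) (ω : Zd d → ℝ) :
    HasSum (fun x => G hb lam θ s t x 0 ω)
      ⟪W hb lam s ω (Xp θ (W hb lam t ω (dl 0))), Xp θ (W hb lam (s + t) ω (dl 0))⟫_ℂ :=
  expand (W hb lam s ω) (Xp θ (W hb lam t ω (dl 0))) _

/-- the sum over the second variable -/
theorem G_sum2 (s t : ℝ) (ω : Zd d → ℝ) :
    HasSum (fun x => G hb lam θ s t 0 x ω) (Spc lam b θ s ω) := by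
  have h1 := expand (ContinuousLinearMap.id ℂ (E2 d) ∘L (Xp θ ∘L W hb lam (s + t) ω))
    (W hb lam (-t) ω (dl 0)) (W hb lam s ω (dl 0))
  have h2 := (Complex.conjCLE.toContinuousLinearMap).hasSum h1
  have e1 : (Complex.conjCLE.toContinuousLinearMap)
      ⟪(ContinuousLinearMap.id ℂ (E2 d) ∘L (Xp θ ∘L W hb lam (s + t) ω))
        (W hb lam (-t) ω (dl 0)), W hb lam s ω (dl 0)⟫_ℂ = Spc lam b θ s ω := by
    rw [Spc_inner hb]
    change (starRingEnd ℂ) ⟪Xp θ (W hb lam (s + t) ω (W hb lam (-t) ω (dl 0))),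
      W hb lam s ω (dl 0)⟫_ℂ = _
    rw [inner_conj_symm, W_add, W_inv']
  rw [e1] at h2
  refine h2.congr_fun fun x => ?_
  unfold G
  change _ = (starRingEnd ℂ) ((starRingEnd ℂ) (W hb lam (-t) ω (dl 0) x) *
    ⟪Xp θ (W hb lam (s + t) ω (dl x)), W hb lam s ω (dl 0)⟫_ℂ)
  have e2 : ex θ 0 = 1 := by
    unfold ex
    simp
  have e3 : (starRingEnd ℂ) ⟪Xp θ (W hb lam (s + t) ω (dl x)), W hb lam s ω (dl 0)⟫_ℂ =
      ⟪W hb lam s ω (dl 0), Xp θ (W hb lam (s + t) ω (dl x))⟫_ℂ := inner_conj_symm _ _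
  have e4 : (starRingEnd ℂ) (W hb lam t ω (dl x) 0) = W hb lam (-t) ω (dl 0) x := by
    rw [← inner_dl, ← inner_dl]
    have e5 : (starRingEnd ℂ) ⟪dl 0, W hb lam t ω (dl x)⟫_ℂ = ⟪W hb lam t ω (dl x), dl 0⟫_ℂ :=
      inner_conj_symm _ _
    rw [e5, W_left]
  rw [e2, one_mul, map_mul, Complex.conj_conj, e3, e4]

theorem G_abs1 (s t : ℝ) (ω : Zd d → ℝ) :
    (Summable fun x => ‖G hb lam θ s t x 0 ω‖) ∧ ∑' x, ‖G hb lam θ s t x 0 ω‖ ≤ 1 := by
  set φ := Xp θ (W hb lam t ω (dl 0)) with hφ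
  set v := W hb lam (-s) ω (Xp θ (W hb lam (s + t) ω (dl 0))) with hv
  have hφ1 : ‖φ‖ = 1 := by rw [hφ, Xp_norm, W_norm, dl_norm]
  have hv1 : ‖v‖ = 1 := by rw [hv, W_norm, Xp_norm, W_norm, dl_norm]
  have h1 := hs φ
  have h2 := hs v
  rw [hφ1, one_pow] at h1
  rw [hv1, one_pow] at h2
  have h3 := (h1.add h2).div_const 2
  have h4 : ∀ x, ‖G hb lam θ s t x 0 ω‖ ≤ (‖φ x‖ ^ 2 + ‖v x‖ ^ 2) / 2 := by
    intro x
    have e1 : G hb lam θ s t x 0 ω = (starRingEnd ℂ) (φ x) * v x := by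
      unfold G
      rw [W_left, inner_dl]
      rfl
    rw [e1, norm_mul, RCLike.norm_conj]
    nlinarith [sq_nonneg (‖φ x‖ - ‖v x‖)]
  have h5 : Summable fun x => ‖G hb lam θ s t x 0 ω‖ :=
    Summable.of_nonneg_of_le (fun _ => norm_nonneg _) h4 h3.summable
  refine ⟨h5, ?_⟩
  refine (h5.tsum_le_tsum h4 h3.summable).trans (le_of_eq ?_)
  rw [h3.tsum_eq]
  norm_num

theorem G_abs2 (s t : ℝ) (ω : Zd d → ℝ) :
    Summable fun x => ‖G hb lam θ s t 0 x ω‖ := by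
  set φ := W hb lam (-t) ω (dl 0) with hφ
  have hT := (hs φ)
  -- the adjoint
  set w := ContinuousLinearMap.adjoint (Xp θ ∘L W hb lam (s + t) ω) (W hb lam s ω (dl 0)) with hw
  have h2 := hs w
  have h3 := (hT.add h2).div_const 2
  refine Summable.of_nonneg_of_le (fun _ => norm_nonneg _) (fun x => ?_) h3.summable
  have e1 : G hb lam θ s t 0 x ω = φ x * (starRingEnd ℂ) (w x) := by
    unfold G
    have e2 : ex θ 0 = 1 := by
      unfold ex
      simp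
    have e3 : (starRingEnd ℂ) (w x) =
        ⟪W hb lam s ω (dl 0), Xp θ (W hb lam (s + t) ω (dl x))⟫_ℂ := by
      rw [← inner_dl, hw, inner_conj_symm, ContinuousLinearMap.adjoint_inner_left]
      rfl
    rw [e3, e2, one_mul]
    congr 1
    rw [hφ, ← inner_dl, ← inner_dl, inner_conj_symm, W_left]
  rw [e1, norm_mul, RCLike.norm_conj]
  nlinarith [sq_nonneg (‖φ x‖ - ‖w x‖)]

theorem G_meas (s t : ℝ) (x a : Zd d) : Measurable (G hb lam θ s t x a) := by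
  have h1 : Measurable fun ω : Zd d → ℝ => W hb lam t ω (dl a) x := by
    simp only [W_psi]
    exact psi_meas hb lam a t x
  have h2 : Measurable fun ω : Zd d → ℝ =>
      ⟪W hb lam s ω (dl x), Xp θ (W hb lam (s + t) ω (dl a))⟫_ℂ := by
    refine measurable_of_tendsto_metrizable' (atTop : Filter (Finset (Zd d)))
      (f := fun F ω => ∑ w ∈ F, (starRingEnd ℂ) (psi lam (cl b ω) x s w) *
        (ex θ w * psi lam (cl b ω) a (s + t) w)) (fun F => ?_) ?_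
    · refine Finset.measurable_fun_sum _ fun w _ => ?_
      exact ((Complex.continuous_conj.measurable.comp (psi_meas hb lam x s w))).mul
        (measurable_const.mul (psi_meas hb lam a (s + t) w))
    · rw [tendsto_pi_nhds]
      intro ω
      have h3 := lp.hasSum_inner (𝕜 := ℂ) (W hb lam s ω (dl x)) (Xp θ (W hb lam (s + t) ω (dl a)))
      refine h3.congr_fun fun w => ?_
      simp only [RCLike.inner_apply, Xp_apply, W_psi]
      ring
  exact (Complex.continuous_conj.measurable.comp (h1.const_mul _)).mul h2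

end

section
variable (μ : Measure ℝ) [IsProbabilityMeasure μ] {b : ℝ} (hb : 0 ≤ b) (lam : ℝ)
  (θ : Fin d → ℝ)

theorem sh_int (f : (Zd d → ℝ) → ℂ) (hf : Measurable f) (y : Zd d) :
    ∫ ω, f (sh y ω) ∂(PZ d μ) = ∫ ω, f ω ∂(PZ d μ) := by
  have h1 := integral_map (μ := PZ d μ) (φ := sh y) (f := f) (sh_meas y).aemeasurable
    hf.aestronglyMeasurable
  rw [sh_map] at h1
  exact h1.symm

theorem sh_intR (f : (Zd d → ℝ) → ℝ) (hf : Measurable f) (y : Zd d) :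
    ∫ ω, f (sh y ω) ∂(PZ d μ) = ∫ ω, f ω ∂(PZ d μ) := by
  have h1 := integral_map (μ := PZ d μ) (φ := sh y) (f := f) (sh_meas y).aemeasurable
    hf.aestronglyMeasurable
  rw [sh_map] at h1
  exact h1.symm

theorem G_le (s t : ℝ) (x : Zd d) (ω : Zd d → ℝ) : ‖G hb lam θ s t x 0 ω‖ ≤ 1 := by
  have h := G_abs1 hb lam θ s t ω
  exact (h.1.le_tsum x fun _ _ => norm_nonneg _).trans h.2

theorem G_cov (s t : ℝ) (x : Zd d) (ω : Zd d → ℝ) :
    G hb lam θ s t 0 x ω = G hb lam θ s t (-x) 0 (sh x ω) := by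
  have := G_shift hb lam θ s t (-x) 0 x ω
  rw [neg_add_cancel, zero_add] at this
  exact this

theorem key (s t : ℝ) :
    ∫ ω, ⟪W hb lam s ω (Xp θ (W hb lam t ω (dl 0))), Xp θ (W hb lam (s + t) ω (dl 0))⟫_ℂ
      ∂(PZ d μ) = ∫ ω, Spc lam b θ s ω ∂(PZ d μ) := by
  have hi : ∀ x, Integrable (G hb lam θ s t x 0) (PZ d μ) := fun x =>
    Integrable.of_bound (G_meas hb lam θ s t x 0).aestronglyMeasurable 1
      (Eventually.of_forall fun ω => G_le hb lam θ s t x ω)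
  have hi2 : ∀ x, Integrable (G hb lam θ s t 0 x) (PZ d μ) := fun x =>
    Integrable.of_bound (G_meas hb lam θ s t 0 x).aestronglyMeasurable 1
      (Eventually.of_forall fun ω => by rw [G_cov]; exact G_le hb lam θ s t _ _)
  have hsum : Summable fun x => ∫ ω, ‖G hb lam θ s t x 0 ω‖ ∂(PZ d μ) := by
    refine summable_of_sum_le (c := 1) (fun x => integral_nonneg fun _ => norm_nonneg _)
      fun F => ?_
    rw [← integral_finsetSum _ fun x _ => (hi x).norm]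
    have h1 : ∫ ω, ∑ x ∈ F, ‖G hb lam θ s t x 0 ω‖ ∂(PZ d μ) ≤ ∫ _ω, (1 : ℝ) ∂(PZ d μ) := by
      refine integral_mono (integrable_finsetSum _ fun x _ => (hi x).norm) (integrable_const _)
        fun ω => ?_
      have h := G_abs1 hb lam θ s t ω
      exact (h.1.sum_le_tsum F fun _ _ => norm_nonneg _).trans h.2
    simpa using h1
  have e1 : ∀ x, ∫ ω, G hb lam θ s t 0 x ω ∂(PZ d μ) = ∫ ω, G hb lam θ s t (-x) 0 ω ∂(PZ d μ) := by
    intro x
    rw [← sh_int μ (G hb lam θ s t (-x) 0) (G_meas hb lam θ s t (-x) 0) x]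
    exact integral_congr_ae (Eventually.of_forall fun ω => G_cov hb lam θ s t x ω)
  have e2 : ∀ x, ∫ ω, ‖G hb lam θ s t 0 x ω‖ ∂(PZ d μ) =
      ∫ ω, ‖G hb lam θ s t (-x) 0 ω‖ ∂(PZ d μ) := by
    intro x
    rw [← sh_intR μ (fun ω => ‖G hb lam θ s t (-x) 0 ω‖) (G_meas hb lam θ s t (-x) 0).norm x]
    exact integral_congr_ae (Eventually.of_forall fun ω => by
      change ‖G hb lam θ s t 0 x ω‖ = ‖G hb lam θ s t (-x) 0 (sh x ω)‖
      rw [G_cov])
  have hsum2 : Summable fun x => ∫ ω, ‖G hb lam θ s t 0 x ω‖ ∂(PZ d μ) := by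
    simp only [e2]
    exact (Equiv.neg (Zd d)).summable_iff.2 hsum
  have h1 := (int_tsum (μ := PZ d μ) (fun x ω => G hb lam θ s t x 0 ω) hi hsum
    (fun ω => (G_abs1 hb lam θ s t ω).1)).2
  have h2 := (int_tsum (μ := PZ d μ) (fun x ω => G hb lam θ s t 0 x ω) hi2 hsum2
    (fun ω => G_abs2 hb lam θ s t ω)).2
  simp only [fun ω => (G_sum1 hb lam θ s t ω).tsum_eq] at h1
  simp only [fun ω => (G_sum2 hb lam θ s t ω).tsum_eq, e1] at h2
  have h3 := (Equiv.neg (Zd d)).hasSum_iff.2 h1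
  exact h3.unique h2

/-- the pointwise bound -/
theorem pt (s t : ℝ) (ω : Zd d → ℝ) :
    ‖Spc lam b θ (s + t) ω - Spc lam b θ t ω‖ ^ 2 ≤
      2 - 2 * (⟪W hb lam s ω (Xp θ (W hb lam t ω (dl 0))),
        Xp θ (W hb lam (s + t) ω (dl 0))⟫_ℂ).re := by
  set u := W hb lam s ω (Xp θ (W hb lam t ω (dl 0))) with hu
  set v := Xp θ (W hb lam (s + t) ω (dl 0)) with hv
  have hu1 : ‖u‖ = 1 := by rw [hu, W_norm, Xp_norm, W_norm, dl_norm]
  have hv1 : ‖v‖ = 1 := by rw [hv, Xp_norm, W_norm, dl_norm]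
  have e1 : Spc lam b θ (s + t) ω - Spc lam b θ t ω =
      ⟪W hb lam (s + t) ω (dl 0), v - u⟫_ℂ := by
    rw [inner_sub_right, Spc_inner hb, Spc_inner hb]
    congr 1
    rw [W_add, hu, W_inner]
  rw [e1]
  have h1 := norm_inner_le_norm (𝕜 := ℂ) (W hb lam (s + t) ω (dl 0)) (v - u)
  rw [W_norm, dl_norm, one_mul] at h1
  have h2 := @norm_sub_sq ℂ _ _ _ _ v u
  rw [hu1, hv1] at h2
  have h3 : RCLike.re ⟪v, u⟫_ℂ = (⟪u, v⟫_ℂ).re := by
    have e2 : ⟪v, u⟫_ℂ = (starRingEnd ℂ) ⟪u, v⟫_ℂ := (inner_conj_symm v u).symm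
    rw [e2]
    exact Complex.conj_re _
  rw [h3] at h2
  calc _ ≤ ‖v - u‖ ^ 2 := pow_le_pow_left₀ (norm_nonneg _) h1 2
    _ = _ := by rw [h2]; ring

attribute [local irreducible] Spc

theorem Spc_meas (hb : 0 ≤ b) (t : ℝ) : Measurable fun ω : Zd d → ℝ => Spc lam b θ t ω := by
  have h1 : Measurable fun p : ℝ × (Zd d → ℝ) => Spc lam b θ p.1 p.2 := Spc_meas2 hb lam θ
  have h2 : Measurable fun ω : Zd d → ℝ => ((t, ω) : ℝ × (Zd d → ℝ)) :=
    measurable_const.prodMk measurable_id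
  exact h1.comp h2

/-- **stationarity of the increments** -/
theorem incr (hb : 0 ≤ b) (s t : ℝ) :
    ∫ ω, ‖Spc lam b θ (s + t) ω - Spc lam b θ t ω‖ ^ 2 ∂(PZ d μ) ≤
      2 - 2 * (∫ ω, Spc lam b θ s ω ∂(PZ d μ)).re := by
  have hbd : ∀ ω, ‖⟪W hb lam s ω (Xp θ (W hb lam t ω (dl 0))),
      Xp θ (W hb lam (s + t) ω (dl 0))⟫_ℂ‖ ≤ 1 := by
    intro ω
    refine (norm_inner_le_norm _ _).trans ?_
    rw [W_norm, Xp_norm, W_norm, Xp_norm, W_norm, dl_norm, one_mul]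
  have hm : Measurable fun ω => ⟪W hb lam s ω (Xp θ (W hb lam t ω (dl 0))),
      Xp θ (W hb lam (s + t) ω (dl 0))⟫_ℂ := by
    refine measurable_of_tendsto_metrizable' (atTop : Filter (Finset (Zd d)))
      (f := fun F ω => ∑ x ∈ F, G hb lam θ s t x 0 ω) (fun F => ?_) ?_
    · exact Finset.measurable_fun_sum _ fun x _ => G_meas hb lam θ s t x 0
    · rw [tendsto_pi_nhds]
      intro ω
      exact G_sum1 hb lam θ s t ω
  have hi : Integrable (fun ω => ⟪W hb lam s ω (Xp θ (W hb lam t ω (dl 0))),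
      Xp θ (W hb lam (s + t) ω (dl 0))⟫_ℂ) (PZ d μ) :=
    Integrable.of_bound hm.aestronglyMeasurable 1 (Eventually.of_forall hbd)
  have h1 : ∫ ω, ‖Spc lam b θ (s + t) ω - Spc lam b θ t ω‖ ^ 2 ∂(PZ d μ) ≤
      ∫ ω, (2 - 2 * (⟪W hb lam s ω (Xp θ (W hb lam t ω (dl 0))),
        Xp θ (W hb lam (s + t) ω (dl 0))⟫_ℂ).re) ∂(PZ d μ) := by
    refine integral_mono ?_ ((integrable_const _).sub (hi.re.const_mul 2))
      fun ω => pt hb lam θ s t ω
    refine Integrable.of_bound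
      (((Spc_meas lam θ hb (s + t)).sub (Spc_meas lam θ hb t)).norm.pow_const 2).aestronglyMeasurable
      4 (Eventually.of_forall fun ω => ?_)
    rw [Real.norm_eq_abs, abs_of_nonneg (by positivity)]
    have h2 : ‖Spc lam b θ (s + t) ω - Spc lam b θ t ω‖ ≤ 2 :=
      (norm_sub_le _ _).trans (by
        have := Spc_le hb lam θ (s + t) ω
        have := Spc_le hb lam θ t ω
        linarith)
    calc _ ≤ (2 : ℝ) ^ 2 := pow_le_pow_left₀ (norm_nonneg _) h2 2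
      _ = 4 := by norm_num
  refine h1.trans (le_of_eq ?_)
  have hir : Integrable (fun ω => (⟪W hb lam s ω (Xp θ (W hb lam t ω (dl 0))),
      Xp θ (W hb lam (s + t) ω (dl 0))⟫_ℂ).re) (PZ d μ) := hi.re
  have h3 : ∫ ω, (⟪W hb lam s ω (Xp θ (W hb lam t ω (dl 0))),
      Xp θ (W hb lam (s + t) ω (dl 0))⟫_ℂ).re ∂(PZ d μ) =
      (∫ ω, ⟪W hb lam s ω (Xp θ (W hb lam t ω (dl 0))),
      Xp θ (W hb lam (s + t) ω (dl 0))⟫_ℂ ∂(PZ d μ)).re := integral_re hi
  rw [integral_sub (integrable_const _) (hir.const_mul 2), integral_const_mul, h3, key]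
  simp

end

end Pool.Agent.Zk93.FT
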