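import Pool.Agent.Zk93.TE.Evo

/-! The evolution on the lattice as a unitary group. -/

set_option autoImplicit false

open scoped BigOperators Topology InnerProductSpace
open MeasureTheory Filter

namespace Pool.Agent.Zk93.FT

open Pool.Agent.Zk11.QD (Zd HZ)
open Pool.Agent.Zk93.TE

variable {d : ℕ}

/-- the Hilbert space `ℓ²(ℤ^d)` -/
noncomputable abbrev E2 (d : ℕ) := lp (fun _ : Zd d => ℂ) 2

theorem hs (f : E2 d) : HasSum (fun x => ‖f x‖ ^ 2) (‖f‖ ^ 2) := by
  have h := lp.hasSum_norm (p := 2) (by norm_num) f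
  simpa using h

theorem mem_iff (u : Zd d → ℂ) : Memℓp u 2 ↔ Summable fun x => ‖u x‖ ^ 2 := by
  rw [memℓp_gen_iff (by norm_num)]
  simp

/-- an element of `ℓ²` -/
def mk (u : Zd d → ℂ) (h : Summable fun x => ‖u x‖ ^ 2) : E2 d := ⟨u, (mem_iff u).2 h⟩

theorem mk_apply (u : Zd d → ℂ) (h : Summable fun x => ‖u x‖ ^ 2) (x : Zd d) : mk u h x = u x :=
  rfl

theorem norm_mk (u : Zd d → ℂ) (S : ℝ) (h : HasSum (fun x => ‖u x‖ ^ 2) S) :
    ‖mk u h.summable‖ ^ 2 = S :=
  (hs (mk u h.summable)).unique h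

theorem norm_le_mk (u : Zd d → ℂ) (h : Summable fun x => ‖u x‖ ^ 2) (C : ℝ) (hC : 0 ≤ C) (S : ℝ)
    (hS : HasSum (fun x => ‖u x‖ ^ 2) S) (hb : S ≤ C ^ 2) : ‖mk u h‖ ≤ C := by
  have h1 := norm_mk u S hS
  exact abs_le_of_sq_le_sq' (by rw [h1]; exact hb) hC |>.2

/-- translations: `(S a u)(x) = u (x + a)` -/
noncomputable def S (a : Zd d) : E2 d →L[ℂ] E2 d :=
  LinearMap.mkContinuous
    { toFun := fun u => mk (fun x => u (x + a)) (hasSum_shift (hs u) a).summable
      map_add' := fun u v => by ext x; rfl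
      map_smul' := fun c u => by ext x; rfl } 1 (fun u => by
        rw [one_mul]
        exact norm_le_mk _ (hasSum_shift (hs u) a).summable _ (norm_nonneg _) _
          (hasSum_shift (hs u) a) le_rfl)

theorem S_apply (a : Zd d) (u : E2 d) (x : Zd d) : S a u x = u (x + a) := rfl

theorem mul_sum (w : Zd d → ℂ) (C : ℝ) (hw : ∀ x, ‖w x‖ ≤ C) (u : E2 d) :
    Summable fun x => ‖w x * u x‖ ^ 2 := by
  refine Summable.of_nonneg_of_le (fun x => by positivity) (fun x => ?_)
    ((hs u).summable.mul_left (C ^ 2))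
  rw [norm_mul, mul_pow]
  have := hw x
  gcongr

/-- multiplication by a bounded function -/
noncomputable def M (w : Zd d → ℂ) (C : ℝ) (hw : ∀ x, ‖w x‖ ≤ C) : E2 d →L[ℂ] E2 d :=
  LinearMap.mkContinuous
    { toFun := fun u => mk (fun x => w x * u x) (mul_sum w C hw u)
      map_add' := fun u v => by
        ext x
        change w x * (u + v) x = w x * u x + w x * v x
        rw [lp.coeFn_add, Pi.add_apply, mul_add]
      map_smul' := fun c u => by
        ext x
        change w x * (c • u) x = c • (w x * u x)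
        rw [lp.coeFn_smul, Pi.smul_apply, smul_eq_mul, smul_eq_mul]
        ring } C (fun u => by
          have hC : 0 ≤ C := (norm_nonneg _).trans (hw 0)
          refine norm_le_mk _ (mul_sum w C hw u) _ (by positivity) _ (mul_sum w C hw u).hasSum ?_
          rw [mul_pow, ← (hs u).tsum_eq, ← tsum_mul_left]
          refine Summable.tsum_le_tsum (fun x => ?_) (mul_sum w C hw u)
            ((hs u).summable.mul_left _)
          rw [norm_mul, mul_pow]
          have := hw x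
          gcongr)

theorem M_apply (w : Zd d → ℂ) (C : ℝ) (hw : ∀ x, ‖w x‖ ≤ C) (u : E2 d) (x : Zd d) :
    M w C hw u x = w x * u x := rfl

theorem inner_S (a : Zd d) (u v : E2 d) : ⟪S a u, v⟫_ℂ = ⟪u, S (-a) v⟫_ℂ := by
  rw [lp.inner_eq_tsum, lp.inner_eq_tsum]
  rw [← (Equiv.addRight (-a)).tsum_eq]
  refine tsum_congr fun x => ?_
  simp [S_apply]

theorem inner_M (w : Zd d → ℂ) (C : ℝ) (hw : ∀ x, ‖w x‖ ≤ C) (hr : ∀ x, star (w x) = w x)
    (u v : E2 d) : ⟪M w C hw u, v⟫_ℂ = ⟪u, M w C hw v⟫_ℂ := by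
  rw [lp.inner_eq_tsum, lp.inner_eq_tsum]
  refine tsum_congr fun x => ?_
  rw [M_apply, M_apply]
  simp only [RCLike.inner_apply]
  rw [map_mul]
  have := hr x
  rw [← starRingEnd_apply] at this
  rw [this]
  ring

theorem om_bd {b : ℝ} {ω : Zd d → ℝ} (hω : ∀ x, |ω x| ≤ b) (x : Zd d) : ‖((ω x : ℝ) : ℂ)‖ ≤ b := by
  rw [Complex.norm_real]
  exact hω x

/-- the Hamiltonian as a bounded operator -/
noncomputable def H (lam : ℝ) {b : ℝ} {ω : Zd d → ℝ} (hω : ∀ x, |ω x| ≤ b) :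
    E2 d →L[ℂ] E2 d :=
  -∑ i : Fin d, ((S (Pi.single i 1) - 1) + (S (-Pi.single i 1) - 1)) +
    (lam : ℂ) • M (fun x => ((ω x : ℝ) : ℂ)) b (om_bd hω)

theorem H_apply (lam : ℝ) {b : ℝ} {ω : Zd d → ℝ} (hω : ∀ x, |ω x| ≤ b) (u : E2 d) (x : Zd d) :
    H lam hω u x = HZ lam ω u x := by
  unfold H HZ
  rw [add_apply, neg_apply,
    sum_apply, lp.coeFn_add, Pi.add_apply, lp.coeFn_neg, Pi.neg_apply]
  congr 1
  · congr 1
    rw [lp.coeFn_sum, Finset.sum_apply]
    refine Finset.sum_congr rfl fun i _ => ?_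
    rfl
  · rw [smul_apply, lp.coeFn_smul, Pi.smul_apply, M_apply, smul_eq_mul]
    push_cast
    ring

theorem H_sa (lam : ℝ) {b : ℝ} {ω : Zd d → ℝ} (hω : ∀ x, |ω x| ≤ b) :
    IsSelfAdjoint (H lam hω) := by
  rw [ContinuousLinearMap.isSelfAdjoint_iff_isSymmetric]
  intro u v
  change ⟪H lam hω u, v⟫_ℂ = ⟪u, H lam hω v⟫_ℂ
  unfold H
  simp only [add_apply, neg_apply,
    sum_apply, sub_apply, one_apply_eq_self,
    smul_apply, inner_add_left, inner_add_right, inner_neg_left,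
    inner_neg_right, sum_inner, inner_sum, inner_sub_left, inner_sub_right, inner_smul_left,
    inner_smul_right, Complex.conj_ofReal]
  congr 1
  · congr 1
    refine Finset.sum_congr rfl fun i _ => ?_
    rw [inner_S, inner_S, neg_neg]
    ring
  · rw [inner_M _ _ _ (fun x => by simp)]

/-- the generator -/
noncomputable def A (lam : ℝ) {b : ℝ} {ω : Zd d → ℝ} (hω : ∀ x, |ω x| ≤ b) :
    E2 d →L[ℂ] E2 d := (-Complex.I) • H lam hω

/-- the unitary group `e^{-itH}` -/
noncomputable def U (lam : ℝ) {b : ℝ} {ω : Zd d → ℝ} (hω : ∀ x, |ω x| ≤ b) (t : ℝ) :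
    E2 d →L[ℂ] E2 d := NormedSpace.exp (t • A lam hω)

theorem A_star (lam : ℝ) {b : ℝ} {ω : Zd d → ℝ} (hω : ∀ x, |ω x| ≤ b) :
    star (A lam hω) = -A lam hω := by
  unfold A
  rw [star_smul, (H_sa lam hω).star_eq]
  simp

section
variable (lam : ℝ) {b : ℝ} {ω : Zd d → ℝ} (hω : ∀ x, |ω x| ≤ b)

theorem U_zero : U lam hω 0 = 1 := by
  unfold U
  rw [zero_smul, NormedSpace.exp_zero]

theorem U_add (s t : ℝ) : U lam hω (s + t) = U lam hω s * U lam hω t := by
  let _ : NormedAlgebra ℚ (E2 d →L[ℂ] E2 d) := NormedAlgebra.restrictScalars ℚ ℂ _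
  unfold U
  rw [add_smul, NormedSpace.exp_add_of_commute]
  exact (Commute.refl (A lam hω)).smul_left s |>.smul_right t

theorem U_star (t : ℝ) : star (U lam hω t) = U lam hω (-t) := by
  let _ : NormedAlgebra ℚ (E2 d →L[ℂ] E2 d) := NormedAlgebra.restrictScalars ℚ ℂ _
  have e : ∀ (r : ℝ), r • A lam hω = ((r : ℂ)) • A lam hω := fun r => (Complex.coe_smul r _).symm
  unfold U
  rw [NormedSpace.star_exp, e, e, star_smul, A_star]
  congr 1
  simp

theorem U_inv (t : ℝ) : U lam hω (-t) * U lam hω t = 1 := by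
  rw [← U_add, neg_add_cancel, U_zero]

theorem U_inner (t : ℝ) (u v : E2 d) : ⟪U lam hω t u, U lam hω t v⟫_ℂ = ⟪u, v⟫_ℂ := by
  rw [← ContinuousLinearMap.adjoint_inner_right, ← ContinuousLinearMap.star_eq_adjoint, U_star]
  have h1 : U lam hω (-t) (U lam hω t v) = (U lam hω (-t) * U lam hω t) v := rfl
  rw [h1, U_inv]
  rfl

theorem U_inner_left (t : ℝ) (u v : E2 d) : ⟪U lam hω t u, v⟫_ℂ = ⟪u, U lam hω (-t) v⟫_ℂ := by
  rw [← ContinuousLinearMap.adjoint_inner_right, ← ContinuousLinearMap.star_eq_adjoint, U_star]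

theorem U_norm (t : ℝ) (u : E2 d) : ‖U lam hω t u‖ = ‖u‖ := by
  have h := U_inner lam hω t u u
  rw [inner_self_eq_norm_sq_to_K, inner_self_eq_norm_sq_to_K] at h
  have h2 : ‖U lam hω t u‖ ^ 2 = ‖u‖ ^ 2 := by exact_mod_cast h
  exact (pow_left_inj₀ (norm_nonneg _) (norm_nonneg _) two_ne_zero).1 h2

theorem U_deriv (t : ℝ) : HasDerivAt (U lam hω) (A lam hω * U lam hω t) t := by
  have h := hasDerivAt_exp_smul_const' (𝕂 := ℝ) (A lam hω) t
  exact h

theorem U_deriv' (t : ℝ) (u : E2 d) :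
    HasDerivAt (fun s => U lam hω s u) (A lam hω (U lam hω t u)) t := by
  have h := (U_deriv lam hω t)
  have h2 := ((ContinuousLinearMap.apply ℂ (E2 d) u).restrictScalars ℝ).hasFDerivAt.comp_hasDerivAt
    t h
  exact h2

/-- the delta function -/
noncomputable def dl (y : Zd d) : E2 d := lp.single 2 y (1 : ℂ)

theorem dl_apply (y x : Zd d) : dl y x = if x = y then 1 else 0 := by
  unfold dl
  rw [lp.single_apply, Pi.single_apply]

theorem dl_norm (y : Zd d) : ‖dl y‖ = 1 := by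
  unfold dl
  rw [lp.norm_single (by norm_num)]
  simp

theorem inner_dl (y : Zd d) (u : E2 d) : ⟪dl y, u⟫_ℂ = u y := by
  unfold dl
  rw [lp.inner_single_left]
  simp

theorem U_ev (y : Zd d) : Ev lam ω y (fun t x => U lam hω t (dl y) x) where
  init := fun x => by
    simp only [U_zero]
    exact dl_apply y x
  mass := fun t => by
    have h := hs (U lam hω t (dl y))
    rwa [U_norm, dl_norm, one_pow] at h
  eq := fun t x => by
    have h := U_deriv' lam hω t (dl y)
    have h2 := ((lp.evalCLM (𝕜 := ℂ) (E := fun _ : Zd d => ℂ) (p := 2) x).restrictScalars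
      ℝ).hasFDerivAt.comp_hasDerivAt t h
    refine h2.congr_deriv ?_
    change A lam hω (U lam hω t (dl y)) x = _
    unfold A
    rw [smul_apply, lp.coeFn_smul, Pi.smul_apply, H_apply, smul_eq_mul]

theorem psi_eq (y : Zd d) (t : ℝ) (x : Zd d) : psi lam ω y t x = U lam hω t (dl y) x := by
  have := ev_unique hω (psi_ev hω y) (U_ev lam hω y)
  rw [this]

end

end Pool.Agent.Zk93.FT
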