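import Pool.Agent.Zk11.QQ.Qf
import Pool.Agent.Zk93.FT.Cnc
import Pool.Agent.Zk93.FT.Cts
import Pool.Agent.Zk93.FT.Fix

/-! The evolution at fixed times in one realization of the disorder. -/

set_option autoImplicit false

open scoped BigOperators Topology InnerProductSpace ENNReal
open MeasureTheory Filter

namespace Pool.Agent.Zk93.FT

open Pool.Agent.Zk11.QD (Zd HZ PZ g0 h0 g0_pos)
open Pool.Agent.Zk11.QQ (sh ex ex_norm sh_map sh_meas tot_exp union_bd grid floor_mem card_bd)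
open Pool.Agent.Zk93.TE

variable {d : ℕ}

theorem SBc_le' {b : ℝ} (hb : 0 ≤ b) (lam : ℝ) (θ : Fin d → ℝ) (B : Finset (Zd d)) (t : ℝ)
    (ω : Zd d → ℝ) : ‖SBc lam b θ B t ω‖ ≤ 1 := SB_le (fun y => psi_ev (cl_bd hb ω) y) θ B t

/-- concentration at one time -/
theorem conc1 (μ : Measure ℝ) [IsProbabilityMeasure μ] {b : ℝ} (hb : 0 ≤ b) (lam : ℝ)
    (θ : Fin d → ℝ) (B : Finset (Zd d)) (hB : B.Nonempty) (t : ℝ) (ht : 0 ≤ t) (a : ℝ)
    (ha : 0 < a) (ha1 : 4 * (lam * b * t) ^ 2 / B.card ≤ a) (s : ℝ) :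
    (PZ d μ) {ω | 2 * s < ‖SBc lam b θ B t ω - mf μ b lam θ t‖} ≤
      ENNReal.ofReal (30 * Real.exp (-(s / (2 * Real.sqrt a)))) := by
  have hm : ∫ ω, SBc lam b θ B t ω ∂(PZ d μ) = mf μ b lam θ t := SBc_mean μ hb lam θ B hB t
  have hc := SBc_cont hb lam θ B t
  have hi : Integrable (fun ω => SBc lam b θ B t ω) (PZ d μ) :=
    Integrable.of_bound hc.measurable.aestronglyMeasurable 1
      (Eventually.of_forall fun ω => SBc_le' hb lam θ B t ω)
  have hre : ∫ ω, (SBc lam b θ B t ω).re ∂(PZ d μ) = (mf μ b lam θ t).re := by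
    rw [← hm]
    exact integral_re hi
  have him : ∫ ω, (SBc lam b θ B t ω).im ∂(PZ d μ) = (mf μ b lam θ t).im := by
    rw [← hm]
    exact integral_im hi
  have hinf := SBc_infl hb lam θ B hB t ht
  have h1 := lconc μ (fun ω => (SBc lam b θ B t ω).re) (Complex.continuous_re.comp hc)
    (fun ω => (Complex.abs_re_le_norm _).trans (SBc_le' hb lam θ B t ω)) a ha
    (fun Λ ω => by
      refine le_trans (Finset.sum_le_sum fun v _ => ?_) ((hinf Λ ω).trans ha1)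
      rw [← Complex.sub_re, ← sq_abs]
      exact pow_le_pow_left₀ (abs_nonneg _) (Complex.abs_re_le_norm _) 2) s
  have h2 := lconc μ (fun ω => (SBc lam b θ B t ω).im) (Complex.continuous_im.comp hc)
    (fun ω => (Complex.abs_im_le_norm _).trans (SBc_le' hb lam θ B t ω)) a ha
    (fun Λ ω => by
      refine le_trans (Finset.sum_le_sum fun v _ => ?_) ((hinf Λ ω).trans ha1)
      rw [← Complex.sub_im, ← sq_abs]
      exact pow_le_pow_left₀ (abs_nonneg _) (Complex.abs_im_le_norm _) 2) s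
  rw [hre] at h1
  rw [him] at h2
  refine le_trans (measure_mono (t := {ω | s < |(SBc lam b θ B t ω).re - (mf μ b lam θ t).re|} ∪
    {ω | s < |(SBc lam b θ B t ω).im - (mf μ b lam θ t).im|}) ?_) ?_
  · intro ω hω
    have h3 : 2 * s < ‖SBc lam b θ B t ω - mf μ b lam θ t‖ := hω
    by_contra h4
    rw [Set.mem_union, not_or] at h4
    have h5 : |(SBc lam b θ B t ω).re - (mf μ b lam θ t).re| ≤ s := not_lt.1 h4.1
    have h6 : |(SBc lam b θ B t ω).im - (mf μ b lam θ t).im| ≤ s := not_lt.1 h4.2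
    have h7 := Complex.norm_le_abs_re_add_abs_im (SBc lam b θ B t ω - mf μ b lam θ t)
    rw [Complex.sub_re, Complex.sub_im] at h7
    linarith
  · refine (measure_union_le _ _).trans ((add_le_add h1 h2).trans ?_)
    rw [← ENNReal.ofReal_add (by positivity) (by positivity)]
    apply ENNReal.ofReal_le_ofReal
    have := Real.exp_pos (-(s / (2 * Real.sqrt a)))
    linarith

theorem mf_lip (μ : Measure ℝ) [IsProbabilityMeasure μ] {b : ℝ} (hb : 0 ≤ b) (lam : ℝ)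
    (θ θ' : Fin d → ℝ) (s t : ℝ) (ht : 0 ≤ t) :
    ‖mf μ b lam θ t - mf μ b lam θ' s‖ ≤
      2 * Kb d lam b * |t - s| + 2 * (∑ j, |θ j - θ' j|) * t := by
  have i1 : Integrable (fun ω => Spc lam b θ t ω) (PZ d μ) := Spc_int μ hb lam θ t
  have i2 : Integrable (fun ω => Spc lam b θ' s ω) (PZ d μ) := Spc_int μ hb lam θ' s
  unfold mf
  rw [← integral_sub i1 i2]
  refine (norm_integral_le_of_norm_le_const
    (Eventually.of_forall fun ω => Spc_lip hb lam θ θ' s t ht ω)).trans ?_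
  simp

theorem om_ae (μ : Measure ℝ) [IsProbabilityMeasure μ] (b : ℝ) (hb : ∀ᵐ s ∂μ, |s| ≤ b)
    (Good : Set (Zd d → ℝ)) : (PZ d μ).real (Good ∩ {ω : Zd d → ℝ | ∀ x, |ω x| ≤ b}) =
      (PZ d μ).real Good := by
  apply measureReal_congr
  filter_upwards [Zk11.QQ.ae_Z (d := d) μ b hb] with ω hω
  apply propext
  constructor
  · exact fun h => h.1
  · exact fun h => ⟨h, hω⟩

theorem om_ms (b : ℝ) : MeasurableSet {ω : Zd d → ℝ | ∀ x, |ω x| ≤ b} := by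
  have : {ω : Zd d → ℝ | ∀ x, |ω x| ≤ b} = ⋂ x : Zd d, {ω : Zd d → ℝ | |ω x| ≤ b} := by
    ext ω
    simp
  rw [this]
  exact MeasurableSet.iInter fun x => measurableSet_le (measurable_pi_apply x).abs measurable_const

set_option maxHeartbeats 4000000 in
/-- **fixed times, one realization** -/
theorem fixQ (hd : 3 ≤ d) (b v0 : ℝ) (hv0 : 0 < v0) (κ : ℝ) (hκ0 : 0 < κ) (hκ1 : κ < 1 / 2)
    (β γ : ℝ) (hγ : 0 < γ) (hβ : 2 + 2 * κ + 2 * γ < β) (R : ℝ) (ε : ℝ) (hε : 0 < ε) :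
    ∃ δ : ℝ, 0 < δ ∧ ∀ (μ : Measure ℝ) [IsProbabilityMeasure μ], (∀ᵐ s ∂μ, |s| ≤ b) →
      ∀ V : ℝ, V = ∫ s, (s - ∫ t, t ∂μ) ^ 2 ∂μ → v0 ≤ V → ∀ lam : ℝ, 0 < lam → lam < δ →
      ∀ 𝓑 : Finset (Finset (Zd d)), (𝓑.card : ℝ) ≤ Real.exp (lam ^ (-γ)) →
      (∀ B ∈ 𝓑, lam ^ (-β) ≤ (B.card : ℝ)) →
      ∃ Good : Set (Zd d → ℝ), MeasurableSet Good ∧
        1 - Real.exp (-lam ^ (-γ)) ≤ (PZ d μ).real Good ∧
        (∀ ω ∈ Good, ∀ x, |ω x| ≤ b) ∧
        ∀ ω ∈ Good, ∀ ψ : Zd d → ℝ → Zd d → ℂ, (∀ y, Ev lam ω y (ψ y)) →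
          ∀ B ∈ 𝓑, ∀ T : ℝ, lam ^ (-2 : ℝ) / δ ≤ T → T ≤ lam ^ (-(2 + κ)) →
          ∀ P : Fin d → ℝ, (∀ j, |P j| ≤ R) → ∀ τ : ℝ, 0 ≤ τ → τ ≤ R →
          ‖SB (fun j => lam / Real.sqrt T * P j) B ψ (τ * T) -
            ((Real.pi⁻¹ * Mt d V (∑ j, P j ^ 2) τ : ℝ) : ℂ)‖ ≤ ε := by
  classical
  set b' : ℝ := |b| + 1 with hb'
  have hb'0 : 0 < b' := by have := abs_nonneg b; linarith
  set R' : ℝ := |R| + 1 with hR'
  have hR'1 : 1 ≤ R' := by have := abs_nonneg R; linarith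
  have hR'0 : 0 < R' := by linarith
  have hRR' : R ≤ R' := by have := le_abs_self R; linarith
  set s : ℝ := ε / 8 with hs
  have hs0 : 0 < s := by positivity
  set g' : ℝ := (β - 2 - 2 * κ) / 2 with hg'
  have hgg : γ < g' := by rw [hg']; linarith
  set c2 : ℝ := s / (4 * b' * R') with hc2
  have hc20 : 0 < c2 := by positivity
  have hdR : (3 : ℝ) ≤ d := by exact_mod_cast hd
  set c3 : ℝ := min 1 (ε / (16 * (4 * d + b' + d * R'))) with hc3
  have hden : 0 < 16 * (4 * d + b' + d * R') := by positivity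
  have hc30 : 0 < c3 := lt_min one_pos (by positivity)
  have hc31 : c3 ≤ 1 := min_le_left _ _
  have hc3e : 16 * (4 * d + b' + d * R') * c3 ≤ ε := by
    have h1 : c3 ≤ ε / (16 * (4 * d + b' + d * R')) := min_le_right _ _
    rw [le_div_iff₀ hden] at h1
    linarith
  obtain ⟨δ₁, hδ₁, hfix⟩ := fixA hd b v0 hv0 κ hκ0 hκ1 R (ε / 2) (by positivity)
  -- small parameters
  set Cc : ℝ := ((2 * R' + 3) / c3) ^ (d + 1) with hCc
  set Nn : ℝ := 6 * (d + 1) with hNn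
  have hev := tot_exp Cc Nn c2 γ g' hc20 hγ hgg
  obtain ⟨δ₂, hδ₂, hsub⟩ := mem_nhdsGT_iff_exists_Ioo_subset.1 hev
  have hδ₂0 : 0 < δ₂ := hδ₂
  set δ : ℝ := min (min δ₁ δ₂) 1 with hδ
  have hδ0 : 0 < δ := lt_min (lt_min hδ₁ hδ₂0) one_pos
  have d1 : δ ≤ δ₁ := (min_le_left _ _).trans (min_le_left _ _)
  have d2 : δ ≤ δ₂ := (min_le_left _ _).trans (min_le_right _ _)
  have d3 : δ ≤ 1 := min_le_right _ _
  refine ⟨δ, hδ0, ?_⟩
  intro μ _ hμb V hV hVv lam hl0 hl1 𝓑 h𝓑 hcard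
  have htot := hsub ⟨hl0, lt_of_lt_of_le hl1 d2⟩
  have hb0 : 0 ≤ b := by
    obtain ⟨s, hs⟩ := hμb.exists
    exact (abs_nonneg s).trans hs
  have hbb' : b ≤ b' := by
    have := le_abs_self b
    linarith
  have hlam1 : lam ≤ 1 := by linarith
  set ρ : ℝ := c3 * lam ^ 3 with hρ
  have hρ0 : 0 < ρ := by positivity
  have hl3 : lam ^ 3 ≤ 1 := pow_le_one₀ hl0.le hlam1
  have hρ1 : ρ ≤ 1 := by
    calc c3 * lam ^ 3 ≤ 1 * 1 := mul_le_mul hc31 hl3 (by positivity) zero_le_one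
      _ = 1 := one_mul _
  set tm : ℝ := R' * lam ^ (-(2 + κ)) with htm
  have hlk : 0 < lam ^ (-(2 + κ)) := Real.rpow_pos_of_pos hl0 _
  have htm0 : 0 < tm := by positivity
  set M : ℝ := R' * (lam ^ 3)⁻¹ with hM
  have hM0 : 0 < M := by positivity
  have hlk3 : lam ^ (-(2 + κ)) ≤ (lam ^ 3)⁻¹ := by
    rw [← Real.rpow_natCast, ← Real.rpow_neg hl0.le]
    exact Real.rpow_le_rpow_of_exponent_ge hl0 hlam1 (by push_cast; linarith)
  have htmM : tm ≤ M := mul_le_mul_of_nonneg_left hlk3 hR'0.le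
  set K : ℕ := ⌈M / ρ⌉₊ with hK
  have hKl : M / ρ ≤ K := Nat.le_ceil _
  set I0 : Finset ℤ := Finset.Icc (-(K : ℤ)) K with hI0
  set J : Finset (Finset (Zd d) × ℤ × (Fin d → ℤ)) :=
    𝓑 ×ˢ (I0 ×ˢ Fintype.piFinset fun _ : Fin d => I0) with hJ
  have hI0c : I0.card = 2 * K + 1 := by
    rw [hI0, Int.card_Icc]
    omega
  have hJc : (J.card : ℝ) ≤ Real.exp (lam ^ (-γ)) * (Cc * lam ^ (-Nn)) := by
    have h1 : (I0.card : ℝ) ≤ (2 * M + 3) / ρ := by
      rw [hI0c]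
      exact card_bd K M ρ hρ0 hρ1 hM0.le hK
    have h1b : (2 * M + 3) / ρ ≤ (2 * R' + 3) / c3 * (lam ^ 6)⁻¹ := by
      have h2 : (2 * M + 3) ≤ (2 * R' + 3) * (lam ^ 3)⁻¹ := by
        have h3 : 1 ≤ (lam ^ 3)⁻¹ := (one_le_inv₀ (by positivity)).2 hl3
        rw [hM]
        nlinarith
      calc (2 * M + 3) / ρ ≤ ((2 * R' + 3) * (lam ^ 3)⁻¹) / ρ := by gcongr
        _ = _ := by
            rw [hρ]
            field_simp
    have h2 : J.card = 𝓑.card * I0.card ^ (d + 1) := by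
      rw [hJ, Finset.card_product, Finset.card_product, Fintype.card_piFinset_const]
      ring
    rw [h2]
    push_cast
    have h3 : ((I0.card : ℝ)) ^ (d + 1) ≤ Cc * lam ^ (-Nn) := by
      calc ((I0.card : ℝ)) ^ (d + 1) ≤ ((2 * R' + 3) / c3 * (lam ^ 6)⁻¹) ^ (d + 1) :=
            pow_le_pow_left₀ (Nat.cast_nonneg _) (h1.trans h1b) _
        _ = Cc * (lam ^ 6)⁻¹ ^ (d + 1) := by
            rw [hCc, ← mul_pow]
        _ = Cc * lam ^ (-Nn) := by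
            congr 1
            rw [Real.rpow_neg hl0.le, inv_pow, ← pow_mul, hNn, ← Real.rpow_natCast]
            congr 2
            push_cast
            ring
    exact mul_le_mul h𝓑 h3 (by positivity) (Real.exp_pos _).le
  have hp0 : 0 ≤ 30 * Real.exp (-(c2 * lam ^ (-g'))) := by positivity
  -- the variance proxy
  set a0 : ℝ := (2 * b' * R' * lam ^ g') ^ 2 with ha0
  have hlg : 0 < lam ^ g' := Real.rpow_pos_of_pos hl0 _
  have ha00 : 0 < a0 := by positivity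
  have hsq : Real.sqrt a0 = 2 * b' * R' * lam ^ g' := Real.sqrt_sq (by positivity)
  have hexp : s / (2 * Real.sqrt a0) = c2 * lam ^ (-g') := by
    rw [hsq, hc2, Real.rpow_neg hl0.le]
    field_simp
    norm_num
  have hcardpos : ∀ B ∈ 𝓑, B.Nonempty := by
    intro B hB
    have h1 := lt_of_lt_of_le (Real.rpow_pos_of_pos hl0 (-β)) (hcard B hB)
    rw [← Finset.card_pos]
    exact_mod_cast h1
  have hvar : ∀ B ∈ 𝓑, ∀ t : ℝ, 0 ≤ t → t ≤ tm → 4 * (lam * b * t) ^ 2 / B.card ≤ a0 := by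
    intro B hB t ht0 ht1
    have hN := hcard B hB
    have hNp : (0 : ℝ) < B.card := by exact_mod_cast (hcardpos B hB).card_pos
    have h1 : (lam * b * t) ^ 2 ≤ (lam * b' * tm) ^ 2 := by gcongr
    rw [div_le_iff₀ hNp]
    have h2 : 4 * (lam * b' * tm) ^ 2 = a0 * lam ^ (-β) := by
      have e1 : lam ^ (-β) = (lam ^ (-β / 2)) ^ 2 := by
        rw [← Real.rpow_natCast, ← Real.rpow_mul hl0.le]
        congr 1
        push_cast
        ring
      have e2 : lam * lam ^ (-(2 + κ)) = lam ^ g' * lam ^ (-β / 2) := by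
        rw [← Real.rpow_add hl0, hg']
        conv_lhs => rw [← Real.rpow_one lam]
        rw [Real.rpow_one, ← Real.rpow_one_add' hl0.le (by linarith)]
        congr 1
        ring
      rw [e1, ha0, htm]
      calc 4 * (lam * b' * (R' * lam ^ (-(2 + κ)))) ^ 2 =
            (2 * b' * R' * (lam * lam ^ (-(2 + κ)))) ^ 2 := by ring
        _ = _ := by
            rw [e2]
            ring
    calc 4 * (lam * b * t) ^ 2 ≤ 4 * (lam * b' * tm) ^ 2 := by linarith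
      _ = a0 * lam ^ (-β) := h2
      _ ≤ a0 * B.card := mul_le_mul_of_nonneg_left hN ha00.le
  obtain ⟨Good, hGm, hGp, hGood⟩ := union_bd (PZ d μ) J
    (fun i => {ω | (0 ≤ ρ * (i.2.1 : ℝ) ∧ ρ * (i.2.1 : ℝ) ≤ tm) ∧
      2 * s < ‖SBc lam b (fun j => ρ * (i.2.2 j : ℝ)) i.1 (ρ * (i.2.1 : ℝ)) ω -
        mf μ b lam (fun j => ρ * (i.2.2 j : ℝ)) (ρ * (i.2.1 : ℝ))‖})
    (30 * Real.exp (-(c2 * lam ^ (-g')))) (Real.exp (-lam ^ (-γ))) hp0
    (fun i hi => by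
      have hiB : i.1 ∈ 𝓑 := (Finset.mem_product.1 hi).1
      by_cases hc : 0 ≤ ρ * (i.2.1 : ℝ) ∧ ρ * (i.2.1 : ℝ) ≤ tm
      · have h1 := conc1 μ hb0 lam (fun j => ρ * (i.2.2 j : ℝ)) i.1 (hcardpos _ hiB)
          (ρ * (i.2.1 : ℝ)) hc.1 a0 ha00 (hvar _ hiB _ hc.1 hc.2) s
        rw [hexp] at h1
        exact (measure_mono fun ω hω => hω.2).trans h1
      · have h1 : {ω : Zd d → ℝ | (0 ≤ ρ * (i.2.1 : ℝ) ∧ ρ * (i.2.1 : ℝ) ≤ tm) ∧
            2 * s < ‖SBc lam b (fun j => ρ * (i.2.2 j : ℝ)) i.1 (ρ * (i.2.1 : ℝ)) ω -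
              mf μ b lam (fun j => ρ * (i.2.2 j : ℝ)) (ρ * (i.2.1 : ℝ))‖} = ∅ := by
          ext ω
          simp only [Set.mem_setOf_eq, Set.mem_empty_iff_false, iff_false]
          exact fun h => hc h.1
        rw [h1, measure_empty]
        exact bot_le)
    ((mul_le_mul_of_nonneg_right hJc hp0).trans htot)
  refine ⟨Good ∩ {ω : Zd d → ℝ | ∀ x, |ω x| ≤ b}, hGm.inter (om_ms b), ?_, fun ω hω => hω.2, ?_⟩
  · rw [om_ae μ b hμb]
    exact hGp
  intro ω hω ψ hψ B hB T hT1 hT2 P hP τ hτ0 hτ1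
  have hωb := hω.2
  have hωb' : ∀ x, |ω x| ≤ b := hωb
  set θ : Fin d → ℝ := fun j => lam / Real.sqrt T * P j with hθ
  set t : ℝ := τ * T with ht
  -- the profile is the canonical one
  have hSB : SB θ B ψ t = SBc lam b θ B t ω := by
    unfold SBc
    rw [cl_eq hωb']
    have h1 : ψ = fun y => psi lam ω y := funext fun y => ev_unique hωb' (hψ y) (psi_ev hωb' y)
    rw [h1]
  rw [hSB]
  have hT0 : 1 ≤ T := by
    have h1 : 1 ≤ lam ^ (-2 : ℝ) := Real.one_le_rpow_of_pos_of_le_one_of_nonpos hl0 hlam1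
      (by norm_num)
    have h2 : lam ^ (-2 : ℝ) ≤ lam ^ (-2 : ℝ) / δ := by
      rw [le_div_iff₀ hδ0]
      calc lam ^ (-2 : ℝ) * δ ≤ lam ^ (-2 : ℝ) * 1 := mul_le_mul_of_nonneg_left d3 (by linarith)
        _ = _ := mul_one _
    linarith
  have ht0 : 0 ≤ t := by positivity
  have ht1 : t ≤ tm := by
    rw [ht, htm]
    exact mul_le_mul (hτ1.trans hRR') hT2 (by linarith) hR'0.le
  set k : ℤ := ⌊t / ρ⌋ with hk
  set m : Fin d → ℤ := fun j => ⌊θ j / ρ⌋ with hm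
  have hR'P : ∀ j, |P j| ≤ R' := fun j => (hP j).trans hRR'
  have hθ1 : ∀ j, |θ j| ≤ M := by
    intro j
    have h1 : 1 ≤ Real.sqrt T := by
      rw [← Real.sqrt_one]
      exact Real.sqrt_le_sqrt hT0
    have h2 : lam / Real.sqrt T ≤ 1 := by
      rw [div_le_one (by linarith)]
      linarith
    rw [hθ]
    simp only
    rw [abs_mul, abs_of_nonneg (by positivity)]
    calc lam / Real.sqrt T * |P j| ≤ 1 * R' := mul_le_mul h2 (hR'P j) (abs_nonneg _) zero_le_one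
      _ = R' * 1 := by ring
      _ ≤ R' * (lam ^ 3)⁻¹ := mul_le_mul_of_nonneg_left ((one_le_inv₀ (by positivity)).2 hl3)
          hR'0.le
  have hmem : (B, k, m) ∈ J := by
    rw [hJ, Finset.mem_product, Finset.mem_product, Fintype.mem_piFinset]
    refine ⟨hB, floor_mem t ρ M K hρ0 (by rw [abs_of_nonneg ht0]; exact ht1.trans htmM) hKl,
      fun j => floor_mem (θ j) ρ M K hρ0 (hθ1 j) hKl⟩
  have hnb := hGood ω hω.1 _ hmem
  set t' : ℝ := ρ * (k : ℝ) with ht'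
  set θ' : Fin d → ℝ := fun j => ρ * (m j : ℝ) with hθ'
  have ht'0 : 0 ≤ t' := by
    have h1 : (0 : ℤ) ≤ k := Int.floor_nonneg.2 (by positivity)
    have h2 : (0 : ℝ) ≤ k := by exact_mod_cast h1
    positivity
  have ht't : t' ≤ t := by
    have h1 := Int.floor_le (t / ρ)
    have h2 : ρ * (k : ℝ) ≤ ρ * (t / ρ) := mul_le_mul_of_nonneg_left h1 hρ0.le
    have h3 : ρ * (t / ρ) = t := by field_simp
    linarith
  have hnear : ‖SBc lam b θ' B t' ω - mf μ b lam θ' t'‖ ≤ 2 * s := by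
    by_contra h1
    apply hnb
    exact ⟨⟨ht'0, ht't.trans ht1⟩, not_le.1 h1⟩
  -- the Lipschitz bound
  have hK4 : Kb d lam b ≤ 4 * d + b' := by
    unfold Kb
    rw [abs_of_pos hl0, abs_of_nonneg hb0]
    have : lam * b ≤ 1 * b' := mul_le_mul hlam1 hbb' hb0 zero_le_one
    linarith
  have hρt : ρ * t ≤ c3 * R' := by
    have h1 : lam ^ 3 * lam ^ (-(2 + κ)) ≤ 1 := by
      calc lam ^ 3 * lam ^ (-(2 + κ)) ≤ lam ^ 3 * (lam ^ 3)⁻¹ :=
            mul_le_mul_of_nonneg_left hlk3 (by positivity)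
        _ = 1 := mul_inv_cancel₀ (by positivity)
    calc ρ * t ≤ ρ * tm := mul_le_mul_of_nonneg_left ht1 hρ0.le
      _ = c3 * R' * (lam ^ 3 * lam ^ (-(2 + κ))) := by rw [hρ, htm]; ring
      _ ≤ c3 * R' * 1 := mul_le_mul_of_nonneg_left h1 (by positivity)
      _ = _ := mul_one _
  have hLip : 2 * Kb d lam b * |t - t'| + 2 * (∑ j, |θ j - θ' j|) * t ≤ ε / 8 := by
    have h1 : |t - t'| ≤ ρ := grid t ρ hρ0
    have h2 : ∑ j, |θ j - θ' j| ≤ d * ρ := by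
      refine (Finset.sum_le_sum fun j _ => grid (θ j) ρ hρ0).trans (le_of_eq ?_)
      simp
    have h3 : 2 * Kb d lam b * |t - t'| ≤ 2 * (4 * d + b') * ρ := by
      have := Kb_nonneg d lam b
      gcongr
    have h4 : 2 * (∑ j, |θ j - θ' j|) * t ≤ 2 * (d * (ρ * t)) := by
      calc 2 * (∑ j, |θ j - θ' j|) * t ≤ 2 * (d * ρ) * t := by gcongr
        _ = _ := by ring
    have h5 : ρ ≤ c3 := by
      calc c3 * lam ^ 3 ≤ c3 * 1 := mul_le_mul_of_nonneg_left hl3 hc30.le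
        _ = c3 := mul_one _
    have h6 : 2 * (4 * d + b') * ρ ≤ 2 * (4 * d + b') * c3 := by gcongr
    have h7 : 2 * (d * (ρ * t)) ≤ 2 * (d * (c3 * R')) := by gcongr
    nlinarith
  have hL1 := SBc_lip hb0 lam θ θ' B (hcardpos B hB) t' t ht0 ω
  have hL2 := mf_lip μ hb0 lam θ θ' t' t ht0
  have hA := hfix μ hμb V hV hVv lam hl0 (lt_of_lt_of_le hl1 d1) T (le_trans (by
    have : 0 < lam ^ (-2 : ℝ) := Real.rpow_pos_of_pos hl0 _
    gcongr) hT1) hT2 P hP τ hτ0 hτ1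
  have e1 : SBc lam b θ B t ω - ((Real.pi⁻¹ * Mt d V (∑ j, P j ^ 2) τ : ℝ) : ℂ) =
      (SBc lam b θ B t ω - SBc lam b θ' B t' ω) + (SBc lam b θ' B t' ω - mf μ b lam θ' t') -
      (mf μ b lam θ t - mf μ b lam θ' t') +
      (mf μ b lam θ t - ((Real.pi⁻¹ * Mt d V (∑ j, P j ^ 2) τ : ℝ) : ℂ)) := by ring
  rw [e1]
  have n1 := norm_add_le ((SBc lam b θ B t ω - SBc lam b θ' B t' ω) +
    (SBc lam b θ' B t' ω - mf μ b lam θ' t') - (mf μ b lam θ t - mf μ b lam θ' t'))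
    (mf μ b lam θ t - ((Real.pi⁻¹ * Mt d V (∑ j, P j ^ 2) τ : ℝ) : ℂ))
  have n2 := norm_sub_le ((SBc lam b θ B t ω - SBc lam b θ' B t' ω) +
    (SBc lam b θ' B t' ω - mf μ b lam θ' t')) (mf μ b lam θ t - mf μ b lam θ' t')
  have n3 := norm_add_le (SBc lam b θ B t ω - SBc lam b θ' B t' ω)
    (SBc lam b θ' B t' ω - mf μ b lam θ' t')
  have n4 : ‖mf μ b lam θ t - ((Real.pi⁻¹ * Mt d V (∑ j, P j ^ 2) τ : ℝ) : ℂ)‖ ≤ ε / 2 := hA
  linarith

end Pool.Agent.Zk93.FT
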