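import Pool.Agent.Zk93.FT.TwoE
import Pool.Agent.Zk93.FT.Cts

/-! Two-time profiles: the disorder average at fixed times. -/

set_option autoImplicit false

open scoped BigOperators Topology InnerProductSpace
open MeasureTheory Filter

namespace Pool.Agent.Zk93.FT

open Pool.Agent.Zk11.QD (Zd HZ PZ g0 h0 g0_pos)
open Pool.Agent.Zk11.QQ (sh ex ex_norm sh_map sh_meas)
open Pool.Agent.Zk93.TE

variable {d : ℕ}

/-- the two-time profile of the canonical evolution -/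
noncomputable def Spc2 (lam b : ℝ) (θ : Fin d → ℝ) (s t : ℝ) (ω : Zd d → ℝ) : ℂ :=
  Sp2 θ s (psi lam (cl b ω) 0) t

section

attribute [local irreducible] psi

theorem psi_sh_meas {b : ℝ} (hb : 0 ≤ b) (lam : ℝ) (s : ℝ) (x : Zd d) :
    Measurable fun p : ℝ × (Zd d → ℝ) => psi lam (cl b p.2) 0 (p.1 + s) x := by
  have h0 : Measurable fun p : ℝ × (Zd d → ℝ) => psi lam (cl b p.2) 0 p.1 x :=
    psi_meas2 hb lam 0 x
  have h1 : Measurable fun p : ℝ × (Zd d → ℝ) => ((p.1 + s, p.2) : ℝ × (Zd d → ℝ)) :=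
    (measurable_fst.add_const s).prodMk measurable_snd
  exact h0.comp h1

end

theorem Spc2_meas2 {b : ℝ} (hb : 0 ≤ b) (lam : ℝ) (θ : Fin d → ℝ) (s : ℝ) :
    Measurable fun p : ℝ × (Zd d → ℝ) => Spc2 lam b θ s p.1 p.2 := by
  refine measurable_of_tendsto_metrizable' (atTop : Filter (Finset (Zd d)))
    (f := fun F p => ∑ x ∈ F, ex θ x * ((starRingEnd ℂ) (psi lam (cl b p.2) 0 (p.1 + s) x) *
      psi lam (cl b p.2) 0 p.1 x)) (fun F => ?_) ?_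
  · refine Finset.measurable_fun_sum _ fun x _ => ?_
    exact measurable_const.mul ((Complex.continuous_conj.measurable.comp
      (psi_sh_meas hb lam s x)).mul (psi_meas2 hb lam 0 x))
  · rw [tendsto_pi_nhds]
    intro p
    exact (Sp2_summable (psi_ev (cl_bd hb p.2) 0) θ s p.1).of_norm.hasSum

theorem Spc2_le {b : ℝ} (hb : 0 ≤ b) (lam : ℝ) (θ : Fin d → ℝ) (s t : ℝ) (ω : Zd d → ℝ) :
    ‖Spc2 lam b θ s t ω‖ ≤ 1 := Sp2_le (psi_ev (cl_bd hb ω) 0) θ s t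

theorem Sp2_shift {lam b : ℝ} (hb : 0 ≤ b) (θ : Fin d → ℝ) (s : ℝ) (y : Zd d) (t : ℝ)
    (ω : Zd d → ℝ) :
    Sp2 θ s (fun t x => psi lam (cl b ω) y t (x + y)) t = Spc2 lam b θ s t (sh y ω) := by
  unfold Spc2
  have h1 := (psi_ev (lam := lam) (cl_bd hb ω) y).shift
  have h2 := psi_ev (lam := lam) (cl_bd hb (sh y ω)) 0
  have h3 := ev_unique (cl_bd hb (sh y ω)) (by rw [cl_sh]; exact h1) h2
  rw [← h3]

theorem Spc2_inner {b : ℝ} (hb : 0 ≤ b) (lam : ℝ) (θ : Fin d → ℝ) (s t : ℝ) (ω : Zd d → ℝ) :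
    Spc2 lam b θ s t ω = ⟪W hb lam (t + s) ω (dl 0), Xp θ (W hb lam t ω (dl 0))⟫_ℂ := by
  rw [lp.inner_eq_tsum]
  unfold Spc2 Sp2
  refine tsum_congr fun x => ?_
  simp only [RCLike.inner_apply, Xp_apply, W_psi]
  ring

theorem pt2 {b : ℝ} (hb : 0 ≤ b) (lam : ℝ) (θ : Fin d → ℝ) (s r t : ℝ) (ω : Zd d → ℝ) :
    ‖Spc2 lam b θ s (r + t) ω - Spc2 lam b θ s t ω‖ ^ 2 ≤
      2 - 2 * (⟪W hb lam r ω (Xp θ (W hb lam t ω (dl 0))),
        Xp θ (W hb lam (r + t) ω (dl 0))⟫_ℂ).re := by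
  set u := W hb lam r ω (Xp θ (W hb lam t ω (dl 0))) with hu
  set v := Xp θ (W hb lam (r + t) ω (dl 0)) with hv
  have hu1 : ‖u‖ = 1 := by rw [hu, W_norm, Xp_norm, W_norm, dl_norm]
  have hv1 : ‖v‖ = 1 := by rw [hv, Xp_norm, W_norm, dl_norm]
  have e1 : Spc2 lam b θ s (r + t) ω - Spc2 lam b θ s t ω =
      ⟪W hb lam (r + t + s) ω (dl 0), v - u⟫_ℂ := by
    rw [inner_sub_right, Spc2_inner hb, Spc2_inner hb]
    congr 1
    rw [add_assoc, W_add hb lam r (t + s), hu, W_inner]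
  rw [e1]
  have h1 := norm_inner_le_norm (𝕜 := ℂ) (W hb lam (r + t + s) ω (dl 0)) (v - u)
  rw [W_norm, dl_norm, one_mul] at h1
  have h2 := @norm_sub_sq ℂ _ _ _ _ v u
  rw [hu1, hv1] at h2
  have h3 : RCLike.re ⟪v, u⟫_ℂ = (⟪u, v⟫_ℂ).re := by
    have e2 : ⟪v, u⟫_ℂ = (starRingEnd ℂ) ⟪u, v⟫_ℂ := (inner_conj_symm v u).symm
    rw [e2]
    exact Complex.conj_re _
  rw [h3] at h2
  calc _ ≤ ‖v - u‖ ^ 2 := pow_le_pow_left₀ (norm_nonneg _) h1 2
    _ = _ := by rw [h2]; ring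

/-- the average two-time profile of the canonical evolution -/
noncomputable def SBc2 (lam b : ℝ) (θ : Fin d → ℝ) (s : ℝ) (B : Finset (Zd d)) (t : ℝ)
    (ω : Zd d → ℝ) : ℂ := SB2 θ s B (fun y => psi lam (cl b ω) y) t

theorem SBc2_eq {lam b : ℝ} (hb : 0 ≤ b) (θ : Fin d → ℝ) (s : ℝ) (B : Finset (Zd d)) (t : ℝ)
    (ω : Zd d → ℝ) :
    SBc2 lam b θ s B t ω = (B.card : ℂ)⁻¹ * ∑ y ∈ B, Spc2 lam b θ s t (sh y ω) := by
  unfold SBc2 SB2
  congr 1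
  exact Finset.sum_congr rfl fun y _ => Sp2_shift hb θ s y t ω

theorem SBc2_le {b : ℝ} (hb : 0 ≤ b) (lam : ℝ) (θ : Fin d → ℝ) (s : ℝ) (B : Finset (Zd d))
    (t : ℝ) (ω : Zd d → ℝ) : ‖SBc2 lam b θ s B t ω‖ ≤ 1 :=
  SB2_le (fun y => psi_ev (cl_bd hb ω) y) θ s B t

attribute [local irreducible] Spc Spc2

theorem Spc2_meas {b : ℝ} (hb : 0 ≤ b) (lam : ℝ) (θ : Fin d → ℝ) (s t : ℝ) :
    Measurable fun ω : Zd d → ℝ => Spc2 lam b θ s t ω := by
  have h1 := Spc2_meas2 hb lam θ s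
  have h2 : Measurable fun ω : Zd d → ℝ => ((t, ω) : ℝ × (Zd d → ℝ)) :=
    measurable_const.prodMk measurable_id
  exact h1.comp h2

theorem SBc2_meas2 {b : ℝ} (hb : 0 ≤ b) (lam : ℝ) (θ : Fin d → ℝ) (s : ℝ) (B : Finset (Zd d)) :
    Measurable fun p : ℝ × (Zd d → ℝ) => SBc2 lam b θ s B p.1 p.2 := by
  have h1 : (fun p : ℝ × (Zd d → ℝ) => SBc2 lam b θ s B p.1 p.2) =
      fun p => (B.card : ℂ)⁻¹ * ∑ y ∈ B, Spc2 lam b θ s p.1 (sh y p.2) := by
    funext p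
    exact SBc2_eq hb θ s B p.1 p.2
  rw [h1]
  have h2 : ∀ y ∈ B, Measurable fun p : ℝ × (Zd d → ℝ) => Spc2 lam b θ s p.1 (sh y p.2) := by
    intro y _
    have h3 : Measurable fun p : ℝ × (Zd d → ℝ) => (p.1, sh y p.2) :=
      measurable_fst.prodMk ((sh_meas y).comp measurable_snd)
    exact (Spc2_meas2 hb lam θ s).comp h3
  exact measurable_const.mul (Finset.measurable_fun_sum B h2)

section
variable (μ : Measure ℝ) [IsProbabilityMeasure μ] {b : ℝ} (lam : ℝ) (θ : Fin d → ℝ)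

/-- the mean two-time profile -/
noncomputable def mf2 (μ : Measure ℝ) (b lam : ℝ) (θ : Fin d → ℝ) (s t : ℝ) : ℂ :=
  ∫ ω, Spc2 lam b θ s t ω ∂(PZ d μ)

theorem Spc2_int (hb : 0 ≤ b) (s t : ℝ) : Integrable (fun ω => Spc2 lam b θ s t ω) (PZ d μ) :=
  Integrable.of_bound (Spc2_meas hb lam θ s t).aestronglyMeasurable 1
    (Eventually.of_forall fun ω => Spc2_le hb lam θ s t ω)

theorem mf2_le (hb : 0 ≤ b) (s t : ℝ) : ‖mf2 μ b lam θ s t‖ ≤ 1 := by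
  unfold mf2
  refine (norm_integral_le_of_norm_le_const (C := 1)
    (Eventually.of_forall fun ω => Spc2_le hb lam θ s t ω)).trans ?_
  simp

theorem mf2_meas (hb : 0 ≤ b) (s : ℝ) : StronglyMeasurable (mf2 μ b lam θ s) := by
  have h1 : Measurable fun p : ℝ × (Zd d → ℝ) => Spc2 lam b θ s p.1 p.2 := Spc2_meas2 hb lam θ s
  exact h1.stronglyMeasurable.integral_prod_right'

theorem SBc2_mean (hb : 0 ≤ b) (s : ℝ) (B : Finset (Zd d)) (hB : B.Nonempty) (t : ℝ) :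
    ∫ ω, SBc2 lam b θ s B t ω ∂(PZ d μ) = mf2 μ b lam θ s t := by
  simp only [SBc2_eq hb]
  have hi : ∀ y, Integrable (fun ω => Spc2 lam b θ s t (sh y ω)) (PZ d μ) := fun y =>
    Integrable.of_bound ((Spc2_meas hb lam θ s t).comp (sh_meas y)).aestronglyMeasurable 1
      (Eventually.of_forall fun ω => Spc2_le hb lam θ s t _)
  rw [integral_const_mul, integral_finsetSum _ fun y _ => hi y,
    Finset.sum_congr rfl fun y _ => sh_int μ (fun ω => Spc2 lam b θ s t ω)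
      (Spc2_meas hb lam θ s t) y, Finset.sum_const, nsmul_eq_mul,
    inv_mul_cancel_left₀]
  · rfl
  exact_mod_cast hB.card_pos.ne'

theorem jensen (F : (Zd d → ℝ) → ℂ) (hFm : Measurable F) (hFb : ∀ ω, ‖F ω‖ ≤ 2) :
    ‖∫ ω, F ω ∂(PZ d μ)‖ ^ 2 ≤ ∫ ω, ‖F ω‖ ^ 2 ∂(PZ d μ) := by
  have j1 : Integrable (fun ω => ‖F ω‖) (PZ d μ) :=
    Integrable.of_bound hFm.norm.aestronglyMeasurable 2 (Eventually.of_forall fun ω => by
      rw [norm_norm]
      exact hFb ω)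
  have j2 : Integrable (fun ω => ‖F ω‖ ^ 2) (PZ d μ) :=
    Integrable.of_bound (hFm.norm.pow_const 2).aestronglyMeasurable 4
      (Eventually.of_forall fun ω => by
        rw [Real.norm_eq_abs, abs_of_nonneg (by positivity)]
        calc ‖F ω‖ ^ 2 ≤ 2 ^ 2 := pow_le_pow_left₀ (norm_nonneg _) (hFb ω) 2
          _ = 4 := by norm_num)
  have h1 : ‖∫ ω, F ω ∂(PZ d μ)‖ ≤ ∫ ω, ‖F ω‖ ∂(PZ d μ) := norm_integral_le_integral_norm _
  set m := ∫ ω, ‖F ω‖ ∂(PZ d μ) with hm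
  have h2 : 0 ≤ ∫ ω, (‖F ω‖ - m) ^ 2 ∂(PZ d μ) := integral_nonneg fun _ => sq_nonneg _
  have h3 : ∫ ω, (‖F ω‖ - m) ^ 2 ∂(PZ d μ) = ∫ ω, ‖F ω‖ ^ 2 ∂(PZ d μ) - m ^ 2 := by
    have e1 : ∀ ω, (‖F ω‖ - m) ^ 2 = (‖F ω‖ ^ 2 - (2 * m) * ‖F ω‖) + m ^ 2 := fun ω => by ring
    simp only [e1]
    have k1 : Integrable (fun ω => ‖F ω‖ ^ 2 - (2 * m) * ‖F ω‖) (PZ d μ) :=
      j2.sub (j1.const_mul _)
    have k2 : ∫ ω, ((‖F ω‖ ^ 2 - (2 * m) * ‖F ω‖) + m ^ 2) ∂(PZ d μ) =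
        ∫ ω, (‖F ω‖ ^ 2 - (2 * m) * ‖F ω‖) ∂(PZ d μ) + ∫ _ω, m ^ 2 ∂(PZ d μ) :=
      integral_add k1 (integrable_const _)
    have k3 : ∫ ω, (‖F ω‖ ^ 2 - (2 * m) * ‖F ω‖) ∂(PZ d μ) =
        ∫ ω, ‖F ω‖ ^ 2 ∂(PZ d μ) - (2 * m) * m := by
      rw [integral_sub j2 (j1.const_mul _), integral_const_mul, ← hm]
    rw [k2, k3]
    simp
    ring
  have h4 : ‖∫ ω, F ω ∂(PZ d μ)‖ ^ 2 ≤ m ^ 2 := pow_le_pow_left₀ (norm_nonneg _) h1 2
  linarith

/-- the increments of the mean two-time profile -/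
theorem mf2_incr (hb : 0 ≤ b) (s r t : ℝ) :
    ‖mf2 μ b lam θ s (r + t) - mf2 μ b lam θ s t‖ ^ 2 ≤ 2 - 2 * (mf μ b lam θ r).re := by
  have i1 := Spc2_int μ lam θ hb s (r + t)
  have i2 := Spc2_int μ lam θ hb s t
  unfold mf2
  rw [← integral_sub i1 i2]
  set F : (Zd d → ℝ) → ℂ := fun ω => Spc2 lam b θ s (r + t) ω - Spc2 lam b θ s t ω with hF
  have hFm : Measurable F := (Spc2_meas hb lam θ s (r + t)).sub (Spc2_meas hb lam θ s t)
  have hFb : ∀ ω, ‖F ω‖ ≤ 2 := fun ω => (norm_sub_le _ _).trans (by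
    have := Spc2_le hb lam θ s (r + t) ω
    have := Spc2_le hb lam θ s t ω
    linarith)
  refine (jensen μ F hFm hFb).trans ?_
  have hbd : ∀ ω, ‖⟪W hb lam r ω (Xp θ (W hb lam t ω (dl 0))),
      Xp θ (W hb lam (r + t) ω (dl 0))⟫_ℂ‖ ≤ 1 := by
    intro ω
    refine (norm_inner_le_norm _ _).trans ?_
    rw [W_norm, Xp_norm, W_norm, Xp_norm, W_norm, dl_norm, one_mul]
  have hm : Measurable fun ω => ⟪W hb lam r ω (Xp θ (W hb lam t ω (dl 0))),
      Xp θ (W hb lam (r + t) ω (dl 0))⟫_ℂ := by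
    refine measurable_of_tendsto_metrizable' (atTop : Filter (Finset (Zd d)))
      (f := fun F ω => ∑ x ∈ F, G hb lam θ r t x 0 ω) (fun F => ?_) ?_
    · exact Finset.measurable_fun_sum _ fun x _ => G_meas hb lam θ r t x 0
    · rw [tendsto_pi_nhds]
      intro ω
      exact G_sum1 hb lam θ r t ω
  have hi : Integrable (fun ω => ⟪W hb lam r ω (Xp θ (W hb lam t ω (dl 0))),
      Xp θ (W hb lam (r + t) ω (dl 0))⟫_ℂ) (PZ d μ) :=
    Integrable.of_bound hm.aestronglyMeasurable 1 (Eventually.of_forall hbd)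
  have hir : Integrable (fun ω => (⟪W hb lam r ω (Xp θ (W hb lam t ω (dl 0))),
      Xp θ (W hb lam (r + t) ω (dl 0))⟫_ℂ).re) (PZ d μ) := hi.re
  have h1 : ∫ ω, ‖F ω‖ ^ 2 ∂(PZ d μ) ≤
      ∫ ω, (2 - 2 * (⟪W hb lam r ω (Xp θ (W hb lam t ω (dl 0))),
        Xp θ (W hb lam (r + t) ω (dl 0))⟫_ℂ).re) ∂(PZ d μ) := by
    refine integral_mono ?_ ((integrable_const _).sub (hir.const_mul 2))
      fun ω => pt2 hb lam θ s r t ω
    refine Integrable.of_bound (hFm.norm.pow_const 2).aestronglyMeasurable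
      4 (Eventually.of_forall fun ω => ?_)
    rw [Real.norm_eq_abs, abs_of_nonneg (by positivity)]
    calc _ ≤ (2 : ℝ) ^ 2 := pow_le_pow_left₀ (norm_nonneg _) (hFb ω) 2
      _ = 4 := by norm_num
  refine h1.trans (le_of_eq ?_)
  have h3 : ∫ ω, (⟪W hb lam r ω (Xp θ (W hb lam t ω (dl 0))),
      Xp θ (W hb lam (r + t) ω (dl 0))⟫_ℂ).re ∂(PZ d μ) =
      (∫ ω, ⟪W hb lam r ω (Xp θ (W hb lam t ω (dl 0))),
      Xp θ (W hb lam (r + t) ω (dl 0))⟫_ℂ ∂(PZ d μ)).re := integral_re hi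
  rw [integral_sub (integrable_const _) (hir.const_mul 2), integral_const_mul, h3, key]
  unfold mf
  simp

end

/-- **time windows, disorder average** -/
theorem evoAS (hd : 3 ≤ d) (b v0 : ℝ) (hv0 : 0 < v0) (κ : ℝ) (hκ0 : 0 < κ) (hκ1 : κ < 1 / 2)
    (R : ℝ) (ε : ℝ) (hε : 0 < ε) :
    ∃ δ : ℝ, 0 < δ ∧ ∀ (μ : Measure ℝ) [IsProbabilityMeasure μ], (∀ᵐ s ∂μ, |s| ≤ b) →
      ∀ V : ℝ, V = ∫ s, (s - ∫ t, t ∂μ) ^ 2 ∂μ → v0 ≤ V → ∀ lam : ℝ, 0 < lam → lam < δ →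
      ∀ T : ℝ, lam ^ (-2 : ℝ) / δ ≤ T → T ≤ lam ^ (-(2 + κ)) →
      ∀ P : Fin d → ℝ, (∀ j, |P j| ≤ R) → ∀ s : ℝ, 0 ≤ s → s ≤ R →
      ∀ a c : ℝ, 0 ≤ a → a ≤ c → c ≤ R →
      ‖∫ τ in a..c, (mf2 μ b lam (fun j => lam / Real.sqrt T * P j) s (τ * T) -
          (Real.pi : ℂ)⁻¹ * Ms d V (∑ j, P j ^ 2) s τ)‖ ≤ ε := by
  classical
  have hpi := Real.pi_pos
  obtain ⟨δ1, hδ1, h1⟩ := evoS hd b v0 hv0 κ hκ0 hκ1 (7 + 3 * κ) 1 one_pos (by linarith) R
    (ε / 2) (by positivity)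
  set δ : ℝ := min (min δ1 1) (ε / (4 * (|R| + 1))) with hδ
  have hR0 := abs_nonneg R
  have hδ0 : 0 < δ := by
    rw [hδ]
    exact lt_min (lt_min hδ1 one_pos) (by positivity)
  have hδa : δ ≤ δ1 := (min_le_left _ _).trans (min_le_left _ _)
  have hδc : δ ≤ ε / (4 * (|R| + 1)) := min_le_right _ _
  refine ⟨δ, hδ0, fun μ hμ hb V hV hv lam hl0 hl1 => ?_⟩
  have hb0 : 0 ≤ b := by
    obtain ⟨s, hs⟩ := hb.exists
    exact (abs_nonneg s).trans hs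
  have hV0 : 0 < V := lt_of_lt_of_le hv0 hv
  intro T hT1 hT2 P hP s hs0 hs1 a c ha hac hcR
  -- the set `B`
  have : Nonempty (Fin d) := ⟨⟨0, by omega⟩⟩
  obtain ⟨B, hBc⟩ := Infinite.exists_subset_card_eq (Zd d) ⌈lam ^ (-(7 + 3 * κ))⌉₊
  have hBcard : lam ^ (-(7 + 3 * κ)) ≤ (B.card : ℝ) := by
    rw [hBc]
    exact Nat.le_ceil _
  have hBne : B.Nonempty := by
    rw [← Finset.card_pos]
    have h2 : (0 : ℝ) < lam ^ (-(7 + 3 * κ)) := by positivity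
    exact_mod_cast lt_of_lt_of_le h2 hBcard
  obtain ⟨Good, hGm, hGp, hGb, hG⟩ := h1 μ hb V hV hv lam hl0 (lt_of_lt_of_le hl1 hδa) {B}
    (by
      rw [Finset.card_singleton, Nat.cast_one]
      exact Real.one_le_exp (by positivity))
    (by
      intro B' hB'
      rw [Finset.mem_singleton] at hB'
      rw [hB']
      exact hBcard)
  set θ : Fin d → ℝ := fun j => lam / Real.sqrt T * P j with hθ
  set cc : ℝ := ∑ j, P j ^ 2 with hcc
  have hcc0 : 0 ≤ cc := Finset.sum_nonneg fun _ _ => by positivity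
  set L : ℝ → ℂ := fun τ => (Real.pi : ℂ)⁻¹ * Ms d V cc s τ with hL
  have hLm : StronglyMeasurable L := stronglyMeasurable_const.mul (Ms_meas hd V cc s)
  have hLb : ∀ τ, 0 < τ → ‖L τ‖ ≤ 1 := fun τ hτ => pi_Ms_le hd hV0 hcc0 s τ hτ.le
  -- the integrand
  set D : ℝ → (Zd d → ℝ) → ℂ := fun τ ω => SBc2 lam b θ s B (τ * T) ω - L τ with hD
  have hDm : Measurable (Function.uncurry D) := by
    have h3 : Measurable fun p : ℝ × (Zd d → ℝ) => (p.1 * T, p.2) :=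
      (measurable_fst.mul_const T).prodMk measurable_snd
    have h4 := (SBc2_meas2 hb0 lam θ s B).comp h3
    have h5 : Measurable fun p : ℝ × (Zd d → ℝ) => L p.1 := hLm.measurable.comp measurable_fst
    exact h4.sub h5
  have hDb : ∀ τ ω, 0 < τ → ‖D τ ω‖ ≤ 2 := by
    intro τ ω hτ
    refine (norm_sub_le _ _).trans ?_
    have := SBc2_le hb0 lam θ s B (τ * T) ω
    have := hLb τ hτ
    linarith
  have hprod : Integrable (Function.uncurry D)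
      ((volume.restrict (Set.Ioc a c)).prod (PZ d μ)) := by
    refine Integrable.mono' (integrable_const (2 : ℝ)) hDm.aestronglyMeasurable ?_
    have h6 : ∀ᵐ p ∂((volume.restrict (Set.Ioc a c)).prod (PZ d μ)), p.1 ∈ Set.Ioc a c := by
      have h7 : ∀ᵐ τ ∂(volume.restrict (Set.Ioc a c)), τ ∈ Set.Ioc a c :=
        ae_restrict_mem measurableSet_Ioc
      exact (Measure.quasiMeasurePreserving_fst
        (μ := volume.restrict (Set.Ioc a c)) (ν := PZ d μ)).ae h7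
    filter_upwards [h6] with p hp
    exact hDb p.1 p.2 (lt_of_le_of_lt ha hp.1)
  -- the mean
  have hmean : ∀ τ : ℝ, mf2 μ b lam θ s (τ * T) - L τ = ∫ ω, D τ ω ∂(PZ d μ) := by
    intro τ
    rw [← SBc2_mean μ lam θ hb0 s B hBne (τ * T)]
    have hi : Integrable (fun ω => SBc2 lam b θ s B (τ * T) ω) (PZ d μ) := by
      have h3 := (SBc2_meas2 hb0 lam θ s B).comp (measurable_prodMk_left (x := τ * T))
      exact Integrable.mono' (integrable_const 1) h3.aestronglyMeasurable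
        (Eventually.of_forall fun ω => SBc2_le hb0 lam θ s B _ ω)
    have h4 : ∫ ω, D τ ω ∂(PZ d μ) = (∫ ω, SBc2 lam b θ s B (τ * T) ω ∂(PZ d μ)) -
        ∫ _ω, L τ ∂(PZ d μ) := integral_sub hi (integrable_const _)
    rw [h4]
    simp
  rw [intervalIntegral.integral_of_le hac]
  have h5 : ∫ τ in Set.Ioc a c, (mf2 μ b lam θ s (τ * T) - L τ) =
      ∫ ω, (∫ τ in Set.Ioc a c, D τ ω) ∂(PZ d μ) := by
    simp only [hmean]
    exact integral_integral_swap hprod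
  rw [h5]
  -- pointwise bounds
  have h6 : ∀ᵐ ω ∂(PZ d μ), ‖∫ τ in Set.Ioc a c, D τ ω‖ ≤
      ε / 2 + Goodᶜ.indicator (fun _ => 2 * |R|) ω := by
    refine Eventually.of_forall fun ω => ?_
    by_cases hω : ω ∈ Good
    · rw [Set.indicator_of_notMem (by simpa using hω), add_zero]
      have h7 := hG ω hω (psi lam ω) (fun y => psi_ev (hGb ω hω) y) B (Finset.mem_singleton_self B)
        T ((div_le_div_of_nonneg_left (by positivity) hδ0 hδa).trans hT1) hT2 P hP s hs0 hs1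
        a c ha hac hcR
      rw [intervalIntegral.integral_of_le hac] at h7
      have h8 : ∀ τ, D τ ω = Df2 V cc θ s B (psi lam ω) T τ := by
        intro τ
        rw [hD]
        simp only
        unfold Df2 SBc2
        rw [cl_eq (hGb ω hω)]
      simp only [h8]
      exact h7
    · rw [Set.indicator_of_mem (by simpa using hω)]
      have h7 := norm_setIntegral_le_of_norm_le_const (μ := volume) (s := Set.Ioc a c)
        (f := fun τ => D τ ω) (C := 2) (by simp) (fun τ hτ => hDb τ ω (lt_of_le_of_lt ha hτ.1))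
      rw [Real.volume_real_Ioc_of_le hac] at h7
      have h8 : c - a ≤ |R| := by
        have := le_abs_self R
        linarith
      have h9 : (2 : ℝ) * (c - a) ≤ 2 * |R| := by linarith
      linarith
  have h7 : ‖∫ ω, (∫ τ in Set.Ioc a c, D τ ω) ∂(PZ d μ)‖ ≤
      ∫ ω, (ε / 2 + Goodᶜ.indicator (fun _ => 2 * |R|) ω) ∂(PZ d μ) := by
    refine norm_integral_le_of_norm_le ?_ h6
    exact (integrable_const _).add ((integrable_const _).indicator hGm.compl)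
  refine h7.trans ?_
  rw [integral_add (integrable_const _) ((integrable_const _).indicator hGm.compl),
    integral_indicator hGm.compl,
    integral_const, integral_const, measureReal_restrict_apply_univ, smul_eq_mul, smul_eq_mul,
    probReal_univ, one_mul]
  have h8 : (PZ d μ).real Goodᶜ ≤ lam := by
    rw [probReal_compl_eq_one_sub hGm]
    have h9 : Real.exp (-lam ^ (-(1 : ℝ))) ≤ lam := by
      rw [Real.rpow_neg_one, Real.exp_neg, inv_le_comm₀ (Real.exp_pos _) hl0]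
      have := Real.add_one_le_exp lam⁻¹
      linarith
    linarith
  have h9 : (PZ d μ).real Goodᶜ * (2 * |R|) ≤ ε / 2 := by
    have h10 : lam ≤ ε / (4 * (|R| + 1)) := hl1.le.trans hδc
    calc (PZ d μ).real Goodᶜ * (2 * |R|) ≤ (ε / (4 * (|R| + 1))) * (2 * (|R| + 1)) := by
          refine mul_le_mul (h8.trans h10) (by linarith) (by positivity) (by positivity)
      _ = ε / 2 := by
          field_simp
          ring
  linarith

/-- **fixed times, disorder average** -/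
theorem fixAS (hd : 3 ≤ d) (b v0 : ℝ) (hv0 : 0 < v0) (κ : ℝ) (hκ0 : 0 < κ) (hκ1 : κ < 1 / 2)
    (R : ℝ) (ε : ℝ) (hε : 0 < ε) :
    ∃ δ : ℝ, 0 < δ ∧ ∀ (μ : Measure ℝ) [IsProbabilityMeasure μ], (∀ᵐ s ∂μ, |s| ≤ b) →
      ∀ V : ℝ, V = ∫ s, (s - ∫ t, t ∂μ) ^ 2 ∂μ → v0 ≤ V → ∀ lam : ℝ, 0 < lam → lam < δ →
      ∀ T : ℝ, lam ^ (-2 : ℝ) / δ ≤ T → T ≤ lam ^ (-(2 + κ)) →
      ∀ P : Fin d → ℝ, (∀ j, |P j| ≤ R) → ∀ s : ℝ, 0 ≤ s → s ≤ R → ∀ τ : ℝ, 0 ≤ τ → τ ≤ R →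
      ‖mf2 μ b lam (fun j => lam / Real.sqrt T * P j) s (τ * T) -
          (Real.pi : ℂ)⁻¹ * Ms d V (∑ j, P j ^ 2) s τ‖ ≤ ε := by
  have hpi := Real.pi_pos
  set ε' : ℝ := min ε 1 with hε'
  have hε'0 : 0 < ε' := lt_min hε one_pos
  have hε'1 : ε' ≤ 1 := min_le_right _ _
  set e1 : ℝ := ε' ^ 2 / 64 with he1
  have he10 : 0 < e1 := by positivity
  have he11 : e1 ≤ ε' / 64 := by
    rw [he1]
    nlinarith
  set R' : ℝ := |R| with hR'
  have hR'0 : 0 ≤ R' := abs_nonneg R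
  obtain ⟨ρ, hρ0, hρ1, hρ⟩ := Mt_small (d := d) hd v0 (d * R' ^ 2) (Real.pi * e1) hv0
    (by positivity) (by positivity)
  obtain ⟨δ2, hδ2, h⟩ := evoAS hd b v0 hv0 κ hκ0 hκ1 (R' + 1) (ρ * e1) (by positivity)
  obtain ⟨δ3, hδ3, h0⟩ := fixA hd b v0 hv0 κ hκ0 hκ1 (R' + 1) e1 he10
  refine ⟨min δ2 δ3, lt_min hδ2 hδ3, fun μ hμ hb V hV hv lam hl0 hl1 T hT1 hT2 P hP s hs0 hs1
    τ hτ0 hτ1 => ?_⟩
  have hb0 : 0 ≤ b := by
    obtain ⟨s, hs⟩ := hb.exists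
    exact (abs_nonneg s).trans hs
  have hV0 : 0 < V := lt_of_lt_of_le hv0 hv
  have hlp : 0 < lam ^ (-2 : ℝ) := Real.rpow_pos_of_pos hl0 _
  have hTa : lam ^ (-2 : ℝ) / δ2 ≤ T :=
    (div_le_div_of_nonneg_left hlp.le (lt_min hδ2 hδ3) (min_le_left _ _)).trans hT1
  have hTb : lam ^ (-2 : ℝ) / δ3 ≤ T :=
    (div_le_div_of_nonneg_left hlp.le (lt_min hδ2 hδ3) (min_le_right _ _)).trans hT1
  have hP' : ∀ j, |P j| ≤ R' := fun j => (hP j).trans (le_abs_self R)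
  have hP1 : ∀ j, |P j| ≤ R' + 1 := fun j => (hP' j).trans (by linarith)
  have hsR : s ≤ R' + 1 := by
    have := le_abs_self R
    linarith
  have hτR : τ ≤ R' := hτ1.trans (le_abs_self R)
  set cc : ℝ := ∑ j, P j ^ 2 with hcc
  have hc0 : 0 ≤ cc := Finset.sum_nonneg fun _ _ => sq_nonneg _
  have hcC : cc ≤ d * R' ^ 2 := by
    have h3 : ∀ j ∈ (Finset.univ : Finset (Fin d)), P j ^ 2 ≤ R' ^ 2 := fun j _ => by
      rw [← sq_abs]
      exact pow_le_pow_left₀ (abs_nonneg _) (hP' j) 2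
    refine (Finset.sum_le_sum h3).trans ?_
    simp
  set θ : Fin d → ℝ := fun j => lam / Real.sqrt T * P j with hθ
  set gc : ℝ → ℂ := fun τ => (Real.pi : ℂ)⁻¹ * Ms d V cc s τ with hgc
  have hgcm : StronglyMeasurable gc := stronglyMeasurable_const.mul (Ms_meas hd V cc s)
  have hgcb : ∀ τ, 0 ≤ τ → ‖gc τ‖ ≤ 1 := fun τ hτ => pi_Ms_le hd hV0 hc0 s τ hτ
  have hsmall : ∀ σ, 0 ≤ σ → σ ≤ ρ → Real.pi⁻¹ * (Real.pi - Mt d V cc σ) ≤ e1 := by
    intro σ hσ0 hσ1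
    have h3 := hρ σ hσ0 hσ1 V hv _ hc0 hcC
    calc _ ≤ Real.pi⁻¹ * (Real.pi * e1) := mul_le_mul_of_nonneg_left h3 (by positivity)
      _ = _ := by field_simp
  have hgcd : ∀ σ, 0 ≤ σ → σ ≤ ρ → ‖gc (τ + σ) - gc τ‖ ≤ e1 := by
    intro σ hσ0 hσ1
    have h5 := Ms_incr hd hV0 hc0 s τ σ hτ0 hσ0
    rw [hgc]
    simp only
    rw [← mul_sub, norm_mul, norm_inv, Complex.norm_real, Real.norm_eq_abs, abs_of_pos hpi]
    exact (mul_le_mul_of_nonneg_left h5 (by positivity)).trans (hsmall σ hσ0 hσ1)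
  -- increments near time zero
  have hinc : ∀ σ, 0 ≤ σ → σ ≤ ρ →
      ‖mf2 μ b lam θ s ((τ + σ) * T) - mf2 μ b lam θ s (τ * T)‖ ≤ ε' / 4 := by
    intro σ hσ0 hσ1
    have h3 := mf2_incr μ lam θ hb0 s (σ * T) (τ * T)
    have e2 : σ * T + τ * T = (τ + σ) * T := by ring
    rw [e2] at h3
    have h4 := h0 μ hb V hV hv lam hl0 (lt_of_lt_of_le hl1 (min_le_right _ _)) T hTb hT2 P hP1 σ
      hσ0 (by linarith)
    have h5 : |(mf μ b lam θ (σ * T)).re - Real.pi⁻¹ * Mt d V cc σ| ≤ e1 := by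
      refine le_trans ?_ h4
      have h6 := Complex.abs_re_le_norm (mf μ b lam θ (σ * T) -
        ((Real.pi⁻¹ * Mt d V cc σ : ℝ) : ℂ))
      rwa [Complex.sub_re, Complex.ofReal_re] at h6
    have h6 := (abs_le.1 h5).1
    have h7 := hsmall σ hσ0 hσ1
    have h8 : Real.pi⁻¹ * (Real.pi - Mt d V cc σ) = 1 - Real.pi⁻¹ * Mt d V cc σ := by
      rw [mul_sub, inv_mul_cancel₀ hpi.ne']
    have h9 : ‖mf2 μ b lam θ s ((τ + σ) * T) - mf2 μ b lam θ s (τ * T)‖ ^ 2 ≤ (ε' / 4) ^ 2 := by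
      refine h3.trans ?_
      have h10 : 4 * e1 = (ε' / 4) ^ 2 := by
        rw [he1]
        ring
      linarith
    exact abs_le_of_sq_le_sq' h9 (by positivity) |>.2
  have hw := h μ hb V hV hv lam hl0 (lt_of_lt_of_le hl1 (min_le_left _ _)) T hTa hT2 P hP1 s hs0
    hsR τ (τ + ρ) hτ0 (by linarith) (by linarith)
  have hmm : StronglyMeasurable fun σ : ℝ => mf2 μ b lam θ s ((τ + σ) * T) :=
    (mf2_meas μ lam θ hb0 s).comp_measurable
      ((measurable_const.add measurable_id).mul_const T)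
  have hfs : IntervalIntegrable (fun σ => mf2 μ b lam θ s ((τ + σ) * T)) volume 0 ρ :=
    (intervalIntegrable_const (c := (1 : ℝ))).mono_fun hmm.aestronglyMeasurable
      (Eventually.of_forall fun σ => by
        rw [norm_one]
        exact mf2_le μ lam θ hb0 _ _)
  have hgs : IntervalIntegrable (fun σ => gc (τ + σ)) volume 0 ρ := by
    have hm2 : StronglyMeasurable fun σ : ℝ => gc (τ + σ) :=
      hgcm.comp_measurable (measurable_const.add measurable_id)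
    refine (intervalIntegrable_const (c := (1 : ℝ))).mono_fun hm2.aestronglyMeasurable ?_
    refine (ae_restrict_mem measurableSet_uIoc).mono fun σ hσ => ?_
    change ‖gc (τ + σ)‖ ≤ ‖(1 : ℝ)‖
    rw [norm_one]
    apply hgcb
    have := hσ.1
    rw [min_eq_left hρ0.le] at this
    linarith
  have e3 : ∫ σ in τ..τ + ρ, (mf2 μ b lam θ s (σ * T) - gc σ) =
      ∫ σ in (0 : ℝ)..ρ, (mf2 μ b lam θ s ((τ + σ) * T) - gc (τ + σ)) := by
    rw [intervalIntegral.integral_comp_add_left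
      (fun σ => mf2 μ b lam θ s (σ * T) - gc σ) τ, add_zero]
  have hw1 : ‖∫ σ in (0 : ℝ)..ρ, (mf2 μ b lam θ s ((τ + σ) * T) - gc (τ + σ))‖ ≤ ρ * e1 := by
    rw [← e3]
    exact hw
  have e4 : ((ρ : ℝ) : ℂ) * (mf2 μ b lam θ s (τ * T) - gc τ) =
      (∫ σ in (0 : ℝ)..ρ, (mf2 μ b lam θ s ((τ + σ) * T) - gc (τ + σ))) -
      (∫ σ in (0 : ℝ)..ρ, (mf2 μ b lam θ s ((τ + σ) * T) - mf2 μ b lam θ s (τ * T))) +
      ∫ σ in (0 : ℝ)..ρ, (gc (τ + σ) - gc τ) := by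
    rw [intervalIntegral.integral_sub hfs hgs,
      intervalIntegral.integral_sub hfs intervalIntegrable_const,
      intervalIntegral.integral_sub hgs intervalIntegrable_const, intervalIntegral.integral_const,
      intervalIntegral.integral_const]
    simp only [sub_zero, Complex.real_smul]
    ring
  have n1 : ‖∫ σ in (0 : ℝ)..ρ, (gc (τ + σ) - gc τ)‖ ≤ ρ * e1 := by
    have h7 := intervalIntegral.norm_integral_le_of_norm_le_const (a := 0) (b := ρ) (C := e1)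
      (f := fun σ => gc (τ + σ) - gc τ) (fun σ hσ => by
        rw [Set.uIoc_of_le hρ0.le] at hσ
        exact hgcd σ hσ.1.le hσ.2)
    rw [sub_zero, abs_of_pos hρ0] at h7
    linarith
  have n2 : ‖∫ σ in (0 : ℝ)..ρ, (mf2 μ b lam θ s ((τ + σ) * T) - mf2 μ b lam θ s (τ * T))‖ ≤
      ρ * (ε' / 4) := by
    have h7 := intervalIntegral.norm_integral_le_of_norm_le_const (a := 0) (b := ρ) (C := ε' / 4)
      (f := fun σ => mf2 μ b lam θ s ((τ + σ) * T) - mf2 μ b lam θ s (τ * T)) (fun σ hσ => by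
        rw [Set.uIoc_of_le hρ0.le] at hσ
        exact hinc σ hσ.1.le hσ.2)
    rw [sub_zero, abs_of_pos hρ0] at h7
    linarith
  have h16 : ρ * ‖mf2 μ b lam θ s (τ * T) - gc τ‖ ≤ ρ * e1 + ρ * (ε' / 4) + ρ * e1 := by
    have h17 : ρ * ‖mf2 μ b lam θ s (τ * T) - gc τ‖ =
        ‖((ρ : ℝ) : ℂ) * (mf2 μ b lam θ s (τ * T) - gc τ)‖ := by
      rw [norm_mul, Complex.norm_real, Real.norm_eq_abs, abs_of_pos hρ0]
    rw [h17, e4]
    refine (norm_add_le _ _).trans ?_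
    exact add_le_add ((norm_sub_le _ _).trans (add_le_add hw1 n2)) n1
  have h18 : ρ * e1 + ρ * (ε' / 4) + ρ * e1 = ρ * (2 * e1 + ε' / 4) := by ring
  rw [h18] at h16
  have h19 := le_of_mul_le_mul_left h16 hρ0
  have h20 : ε' ≤ ε := min_le_left _ _
  have h21 : ‖mf2 μ b lam θ s (τ * T) - gc τ‖ ≤ ε := by linarith
  exact h21

end Pool.Agent.Zk93.FT
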