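import Pool.Agent.Zk93.FT.TwoA
import Pool.Agent.Zk93.FT.Que

/-! Two-time profiles: the influence of the sites, continuity, concentration. -/

set_option autoImplicit false

open scoped BigOperators Topology InnerProductSpace
open MeasureTheory Filter

namespace Pool.Agent.Zk93.FT

open Pool.Agent.Zk11.QD (Zd HZ PZ g0 h0 g0_pos)
open Pool.Agent.Zk11.QQ (sh ex ex_norm sh_map sh_meas)
open Pool.Agent.Zk93.TE

variable {d : ℕ}

/-- the mean value inequality for a family -/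
theorem mv_sq (Λ : Finset (Zd d)) (K K' : Zd d → ℝ → ℂ)
    (hd : ∀ v s, HasDerivAt (K v) (K' v s) s) (C : ℝ) (hC : 0 ≤ C)
    (hb : ∀ s, ∑ v ∈ Λ, ‖K' v s‖ ^ 2 ≤ C ^ 2) (t : ℝ) (ht : 0 ≤ t) :
    ∑ v ∈ Λ, ‖K v t - K v 0‖ ^ 2 ≤ (C * t) ^ 2 := by
  set ξ : Zd d → ℂ := fun v => K v t - K v 0 with hξ
  set S0 := ∑ v ∈ Λ, ‖ξ v‖ ^ 2 with hS0
  have hS00 : 0 ≤ S0 := Finset.sum_nonneg fun _ _ => sq_nonneg _
  set F : ℝ → ℂ := fun s => ∑ v ∈ Λ, (starRingEnd ℂ) (ξ v) * K v s with hF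
  set F' : ℝ → ℂ := fun s => ∑ v ∈ Λ, (starRingEnd ℂ) (ξ v) * K' v s with hF'
  have hd : ∀ s, HasDerivAt F (F' s) s := fun s =>
    HasDerivAt.fun_sum fun v _ => (hd v s).const_mul _
  set D := Real.sqrt (S0 * C ^ 2) with hD
  have hb : ∀ s, ‖F' s‖ ≤ D := by
    intro s
    apply Real.le_sqrt_of_sq_le
    have h1 : ‖F' s‖ ≤ ∑ v ∈ Λ, ‖ξ v‖ * ‖K' v s‖ := by
      refine (norm_sum_le _ _).trans (Finset.sum_le_sum fun v _ => ?_)
      rw [norm_mul, RCLike.norm_conj]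
    calc ‖F' s‖ ^ 2 ≤ (∑ v ∈ Λ, ‖ξ v‖ * ‖K' v s‖) ^ 2 :=
          pow_le_pow_left₀ (norm_nonneg _) h1 2
      _ ≤ (∑ v ∈ Λ, ‖ξ v‖ ^ 2) * ∑ v ∈ Λ, ‖K' v s‖ ^ 2 :=
          Finset.sum_mul_sq_le_sq_mul_sq _ _ _
      _ ≤ _ := mul_le_mul_of_nonneg_left (hb s) hS00
  have hmv := Convex.norm_image_sub_le_of_norm_hasDerivWithin_le (f := F) (f' := F') (C := D)
    (s := Set.univ) (x := 0) (y := t) (fun s _ => (hd s).hasDerivWithinAt) (fun s _ => hb s)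
    convex_univ (Set.mem_univ _) (Set.mem_univ _)
  have hval : F t - F 0 = ((S0 : ℝ) : ℂ) := by
    have k1 : F t - F 0 = ∑ v ∈ Λ, (starRingEnd ℂ) (ξ v) * ξ v := by
      change ∑ v ∈ Λ, (starRingEnd ℂ) (ξ v) * K v t -
        ∑ v ∈ Λ, (starRingEnd ℂ) (ξ v) * K v 0 = _
      rw [← Finset.sum_sub_distrib]
      refine Finset.sum_congr rfl fun v _ => ?_
      rw [← mul_sub]
    rw [k1, hS0, Complex.ofReal_sum]
    refine Finset.sum_congr rfl fun v _ => ?_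
    rw [mul_comm, Complex.mul_conj, Complex.normSq_eq_norm_sq]
  rw [hval, Complex.norm_real, Real.norm_eq_abs, abs_of_nonneg hS00, sub_zero, Real.norm_eq_abs,
    abs_of_nonneg ht] at hmv
  have h8 : S0 ^ 2 ≤ (S0 * C ^ 2) * t ^ 2 := by
    calc S0 ^ 2 ≤ (D * t) ^ 2 := pow_le_pow_left₀ hS00 hmv 2
      _ = _ := by
          rw [mul_pow, hD, Real.sq_sqrt (by positivity)]
  rcases hS00.eq_or_lt with h9 | h9
  · have h11 : 0 ≤ (C * t) ^ 2 := sq_nonneg _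
    linarith
  · have h10 : S0 * S0 ≤ S0 * (C * t) ^ 2 := by
      calc S0 * S0 = S0 ^ 2 := by ring
        _ ≤ _ := h8
        _ = _ := by ring
    exact le_of_mul_le_mul_left h10 h9

section
variable (lam : ℝ) {b : ℝ} {ω : Zd d → ℝ} (hω : ∀ x, |ω x| ≤ b)

/-- the first interpolation -/
noncomputable def K1 (Y : E2 d →L[ℂ] E2 d) (θ : Fin d → ℝ) (B : Finset (Zd d)) (t : ℝ) (v : Zd d)
    (s : ℝ) : ℂ :=
  ∑ y ∈ B, (starRingEnd ℂ) (ex θ y) *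
    ⟪Y (Q lam hω (up_bd hω v) t s (dl y)), Xp θ (Q lam hω (up_bd hω v) t s (dl y))⟫_ℂ

noncomputable def K1d (Y : E2 d →L[ℂ] E2 d) (θ : Fin d → ℝ) (B : Finset (Zd d)) (t : ℝ)
    (v : Zd d) (s : ℝ) : ℂ :=
  ∑ y ∈ B, (starRingEnd ℂ) (ex θ y) *
    (⟪Y (Q lam hω (up_bd hω v) t s (dl y)),
      Xp θ ((-Complex.I * ((lam * ω v : ℝ) : ℂ) * (U lam hω s (dl y)) v) •
        U lam (up_bd hω v) (t - s) (dl v))⟫_ℂ +
    ⟪Y ((-Complex.I * ((lam * ω v : ℝ) : ℂ) * (U lam hω s (dl y)) v) •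
        U lam (up_bd hω v) (t - s) (dl v)), Xp θ (Q lam hω (up_bd hω v) t s (dl y))⟫_ℂ)

theorem K1_deriv (Y : E2 d →L[ℂ] E2 d) (θ : Fin d → ℝ) (B : Finset (Zd d)) (t : ℝ) (v : Zd d)
    (s : ℝ) : HasDerivAt (K1 lam hω Y θ B t v) (K1d lam hω Y θ B t v s) s := by
  unfold K1 K1d
  refine HasDerivAt.fun_sum fun y _ => HasDerivAt.const_mul _ ?_
  have h1 := Q_deriv lam hω (up_bd hω v) t s (dl y)
  rw [A_up, map_smul] at h1
  have h2 := ((Xp θ).restrictScalars ℝ).hasFDerivAt.comp_hasDerivAt s h1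
  have h3 := (Y.restrictScalars ℝ).hasFDerivAt.comp_hasDerivAt s h1
  exact HasDerivAt.inner ℂ h3 h2

theorem term_norm2 (Y : E2 d →L[ℂ] E2 d) (θ : Fin d → ℝ) (c : ℂ) (w z : E2 d) :
    ‖⟪Y w, Xp θ (c • z)⟫_ℂ + ⟪Y (c • z), Xp θ w⟫_ℂ‖ ≤
      ‖c‖ * (‖⟪Xp θ z, Y w⟫_ℂ‖ + ‖⟪Y z, Xp θ w⟫_ℂ‖) := by
  rw [map_smul, map_smul, inner_smul_right, inner_smul_left]
  refine (norm_add_le _ _).trans (le_of_eq ?_)
  rw [norm_mul, norm_mul, RCLike.norm_conj, norm_inner_symm (Y w), mul_add]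

theorem K1d_sq (Y : E2 d →L[ℂ] E2 d) (hY : ∀ u, ‖Y u‖ = ‖u‖) (θ : Fin d → ℝ)
    (B : Finset (Zd d)) (t : ℝ) (v : Zd d) (s : ℝ) :
    ‖K1d lam hω Y θ B t v s‖ ^ 2 ≤
      4 * (lam * ω v) ^ 2 * ∑ y ∈ B, ‖(U lam hω s (dl y)) v‖ ^ 2 := by
  set z := U lam (up_bd hω v) (t - s) (dl v) with hz
  have hz1 : ‖z‖ = 1 := by rw [hz, U_norm, dl_norm]
  set q : Zd d → E2 d := fun y => Q lam hω (up_bd hω v) t s (dl y) with hq
  set f : Zd d → ℝ := fun y => |lam * ω v| * ‖(U lam hω s (dl y)) v‖ with hf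
  set g1 : Zd d → ℝ := fun y => ‖⟪Xp θ z, Y (q y)⟫_ℂ‖ with hg1
  set g2 : Zd d → ℝ := fun y => ‖⟪Y z, Xp θ (q y)⟫_ℂ‖ with hg2
  have h1 : ‖K1d lam hω Y θ B t v s‖ ≤ ∑ y ∈ B, f y * (g1 y + g2 y) := by
    unfold K1d
    refine (norm_sum_le _ _).trans (Finset.sum_le_sum fun y _ => ?_)
    have hc : ‖-Complex.I * ((lam * ω v : ℝ) : ℂ) * (U lam hω s (dl y)) v‖ = f y := by
      rw [norm_mul, norm_mul, norm_neg, Complex.norm_I, one_mul, Complex.norm_real,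
        Real.norm_eq_abs]
    rw [norm_mul, RCLike.norm_conj, ex_norm, one_mul, ← hc]
    exact term_norm2 Y θ _ _ _
  have h2 : ∑ y ∈ B, (g1 y + g2 y) ^ 2 ≤ 4 := by
    have h3 : ∑ y ∈ B, g1 y ^ 2 ≤ 1 := by
      have := bess (Y ∘L Q lam hω (up_bd hω v) t s)
        (fun u => by
          change ‖Y (Q lam hω (up_bd hω v) t s u)‖ = ‖u‖
          rw [hY, Q_norm]) (Xp θ z) B
      rwa [Xp_norm, hz1, one_pow] at this
    have h4 : ∑ y ∈ B, g2 y ^ 2 ≤ 1 := by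
      have := bess (Xp θ ∘L Q lam hω (up_bd hω v) t s)
        (fun u => by
          change ‖Xp θ (Q lam hω (up_bd hω v) t s u)‖ = ‖u‖
          rw [Xp_norm, Q_norm]) (Y z) B
      rwa [hY, hz1, one_pow] at this
    calc ∑ y ∈ B, (g1 y + g2 y) ^ 2 ≤ ∑ y ∈ B, 2 * (g1 y ^ 2 + g2 y ^ 2) :=
          Finset.sum_le_sum fun y _ => by nlinarith [sq_nonneg (g1 y - g2 y)]
      _ = 2 * (∑ y ∈ B, g1 y ^ 2 + ∑ y ∈ B, g2 y ^ 2) := by
          rw [← Finset.mul_sum, Finset.sum_add_distrib]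
      _ ≤ _ := by linarith
  have h5 : ∑ y ∈ B, f y ^ 2 = (lam * ω v) ^ 2 * ∑ y ∈ B, ‖(U lam hω s (dl y)) v‖ ^ 2 := by
    rw [Finset.mul_sum]
    refine Finset.sum_congr rfl fun y _ => ?_
    rw [hf]
    simp only
    rw [mul_pow, sq_abs]
  have h6 : 0 ≤ ∑ y ∈ B, f y ^ 2 := Finset.sum_nonneg fun _ _ => sq_nonneg _
  calc ‖K1d lam hω Y θ B t v s‖ ^ 2 ≤ (∑ y ∈ B, f y * (g1 y + g2 y)) ^ 2 :=
        pow_le_pow_left₀ (norm_nonneg _) h1 2
    _ ≤ (∑ y ∈ B, f y ^ 2) * ∑ y ∈ B, (g1 y + g2 y) ^ 2 := Finset.sum_mul_sq_le_sq_mul_sq _ _ _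
    _ ≤ (∑ y ∈ B, f y ^ 2) * 4 := mul_le_mul_of_nonneg_left h2 h6
    _ = _ := by rw [h5]; ring

/-- the second interpolation -/
noncomputable def K2 (θ : Fin d → ℝ) (B : Finset (Zd d)) (s t : ℝ) (v : Zd d) (r : ℝ) : ℂ :=
  ∑ y ∈ B, (starRingEnd ℂ) (ex θ y) *
    ⟪Q lam hω (up_bd hω v) s r (U lam hω t (dl y)), Xp θ (U lam hω t (dl y))⟫_ℂ

noncomputable def K2d (θ : Fin d → ℝ) (B : Finset (Zd d)) (s t : ℝ) (v : Zd d) (r : ℝ) : ℂ :=
  ∑ y ∈ B, (starRingEnd ℂ) (ex θ y) *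
    ⟪(-Complex.I * ((lam * ω v : ℝ) : ℂ) * (U lam hω r (U lam hω t (dl y))) v) •
        U lam (up_bd hω v) (s - r) (dl v), Xp θ (U lam hω t (dl y))⟫_ℂ

theorem K2_deriv (θ : Fin d → ℝ) (B : Finset (Zd d)) (s t : ℝ) (v : Zd d) (r : ℝ) :
    HasDerivAt (K2 lam hω θ B s t v) (K2d lam hω θ B s t v r) r := by
  unfold K2 K2d
  refine HasDerivAt.fun_sum fun y _ => HasDerivAt.const_mul _ ?_
  have h1 := Q_deriv lam hω (up_bd hω v) s r (U lam hω t (dl y))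
  rw [A_up, map_smul] at h1
  have h2 : HasDerivAt (fun _ : ℝ => Xp θ (U lam hω t (dl y))) 0 r := hasDerivAt_const _ _
  have h3 := HasDerivAt.inner ℂ h1 h2
  rw [inner_zero_right, zero_add] at h3
  exact h3

theorem K2d_sq (θ : Fin d → ℝ) (B : Finset (Zd d)) (s t : ℝ) (v : Zd d) (r : ℝ) :
    ‖K2d lam hω θ B s t v r‖ ^ 2 ≤
      (lam * ω v) ^ 2 * ∑ y ∈ B, ‖(U lam hω (r + t) (dl y)) v‖ ^ 2 := by
  set z := U lam (up_bd hω v) (s - r) (dl v) with hz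
  have hz1 : ‖z‖ = 1 := by rw [hz, U_norm, dl_norm]
  have hU : ∀ y, U lam hω r (U lam hω t (dl y)) = U lam hω (r + t) (dl y) := by
    intro y
    rw [U_add]
    rfl
  set f : Zd d → ℝ := fun y => |lam * ω v| * ‖(U lam hω (r + t) (dl y)) v‖ with hf
  set g : Zd d → ℝ := fun y => ‖⟪z, Xp θ (U lam hω t (dl y))⟫_ℂ‖ with hg
  have h1 : ‖K2d lam hω θ B s t v r‖ ≤ ∑ y ∈ B, f y * g y := by
    unfold K2d
    refine (norm_sum_le _ _).trans (Finset.sum_le_sum fun y _ => ?_)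
    rw [norm_mul, RCLike.norm_conj, ex_norm, one_mul, inner_smul_left, norm_mul,
      RCLike.norm_conj, norm_mul, norm_mul, norm_neg, Complex.norm_I, one_mul, Complex.norm_real,
      Real.norm_eq_abs, hU]
  have h2 : ∑ y ∈ B, g y ^ 2 ≤ 1 := by
    have := bess (Xp θ ∘L U lam hω t)
      (fun u => by
        change ‖Xp θ (U lam hω t u)‖ = ‖u‖
        rw [Xp_norm, U_norm]) z B
    rwa [hz1, one_pow] at this
  have h5 : ∑ y ∈ B, f y ^ 2 = (lam * ω v) ^ 2 * ∑ y ∈ B, ‖(U lam hω (r + t) (dl y)) v‖ ^ 2 := by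
    rw [Finset.mul_sum]
    refine Finset.sum_congr rfl fun y _ => ?_
    rw [hf]
    simp only
    rw [mul_pow, sq_abs]
  have h6 : 0 ≤ ∑ y ∈ B, f y ^ 2 := Finset.sum_nonneg fun _ _ => sq_nonneg _
  calc ‖K2d lam hω θ B s t v r‖ ^ 2 ≤ (∑ y ∈ B, f y * g y) ^ 2 :=
        pow_le_pow_left₀ (norm_nonneg _) h1 2
    _ ≤ (∑ y ∈ B, f y ^ 2) * ∑ y ∈ B, g y ^ 2 := Finset.sum_mul_sq_le_sq_mul_sq _ _ _
    _ ≤ (∑ y ∈ B, f y ^ 2) * 1 := mul_le_mul_of_nonneg_left h2 h6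
    _ = _ := by rw [h5]; ring

/-- the unnormalized two-time profile -/
noncomputable def KK2 (θ : Fin d → ℝ) (s : ℝ) (B : Finset (Zd d)) (t : ℝ) : ℂ :=
  ∑ y ∈ B, (starRingEnd ℂ) (ex θ y) *
    ⟪U lam hω (t + s) (dl y), Xp θ (U lam hω t (dl y))⟫_ℂ

theorem K1_start (θ : Fin d → ℝ) (B : Finset (Zd d)) (s t : ℝ) (v : Zd d) :
    K1 lam hω (U lam (up_bd hω v) s) θ B t v 0 = KK2 lam (up_bd hω v) θ s B t := by
  unfold K1 KK2
  refine Finset.sum_congr rfl fun y _ => ?_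
  rw [Q_apply, sub_zero, U_zero, add_comm t s, U_add]
  rfl

theorem K12 (θ : Fin d → ℝ) (B : Finset (Zd d)) (s t : ℝ) (v : Zd d) :
    K1 lam hω (U lam (up_bd hω v) s) θ B t v t = K2 lam hω θ B s t v 0 := by
  unfold K1 K2
  refine Finset.sum_congr rfl fun y _ => ?_
  rw [Q_apply, sub_self, U_zero, Q_apply, sub_zero, U_zero]
  rfl

theorem K2_end (θ : Fin d → ℝ) (B : Finset (Zd d)) (s t : ℝ) (v : Zd d) :
    K2 lam hω θ B s t v s = KK2 lam hω θ s B t := by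
  unfold K2 KK2
  refine Finset.sum_congr rfl fun y _ => ?_
  rw [Q_apply, sub_self, U_zero, add_comm t s, U_add]
  rfl

theorem mass_sum (B Λ : Finset (Zd d)) (r : ℝ) :
    ∑ v ∈ Λ, ∑ y ∈ B, ‖(U lam hω r (dl y)) v‖ ^ 2 ≤ B.card := by
  rw [Finset.sum_comm]
  have h6 : ∑ y ∈ B, ∑ v ∈ Λ, ‖(U lam hω r (dl y)) v‖ ^ 2 ≤ ∑ _y ∈ B, (1 : ℝ) := by
    refine Finset.sum_le_sum fun y _ => ?_
    have h7 := hs (U lam hω r (dl y))
    rw [U_norm, dl_norm, one_pow] at h7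
    exact sum_le_hasSum Λ (fun _ _ => sq_nonneg _) h7
  rwa [Finset.sum_const, nsmul_eq_mul, mul_one] at h6

/-- **the total influence** -/
theorem infl2 (θ : Fin d → ℝ) (B Λ : Finset (Zd d)) (s t : ℝ) (hs0 : 0 ≤ s) (ht : 0 ≤ t) :
    ∑ v ∈ Λ, ‖KK2 lam hω θ s B t - KK2 lam (up_bd hω v) θ s B t‖ ^ 2 ≤
      8 * (lam * b * (t + s)) ^ 2 * B.card := by
  have hωv : ∀ v, (lam * ω v) ^ 2 ≤ (lam * b) ^ 2 := by
    intro v
    rw [mul_pow, mul_pow]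
    refine mul_le_mul_of_nonneg_left ?_ (sq_nonneg _)
    rw [← sq_abs]
    exact pow_le_pow_left₀ (abs_nonneg _) (hω v) 2
  have hN : (0 : ℝ) ≤ B.card := Nat.cast_nonneg _
  have a1 := mv_sq Λ (fun v => K1 lam hω (U lam (up_bd hω v) s) θ B t v)
    (fun v => K1d lam hω (U lam (up_bd hω v) s) θ B t v)
    (fun v r => K1_deriv lam hω _ θ B t v r) (2 * |lam * b| * Real.sqrt B.card) (by positivity)
    (fun r => by
      have h1 : ∀ v ∈ Λ, ‖K1d lam hω (U lam (up_bd hω v) s) θ B t v r‖ ^ 2 ≤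
          4 * (lam * b) ^ 2 * ∑ y ∈ B, ‖(U lam hω r (dl y)) v‖ ^ 2 := by
        intro v _
        refine (K1d_sq lam hω _ (fun u => U_norm lam (up_bd hω v) s u) θ B t v r).trans ?_
        have h5 : 0 ≤ ∑ y ∈ B, ‖(U lam hω r (dl y)) v‖ ^ 2 :=
          Finset.sum_nonneg fun _ _ => sq_nonneg _
        have := hωv v
        gcongr
      refine (Finset.sum_le_sum h1).trans ?_
      rw [← Finset.mul_sum]
      have h2 := mass_sum lam hω B Λ r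
      have e1 : (2 * |lam * b| * Real.sqrt B.card) ^ 2 = 4 * (lam * b) ^ 2 * B.card := by
        rw [mul_pow, mul_pow, sq_abs, Real.sq_sqrt hN]
        ring
      rw [e1]
      gcongr) t ht
  have a2 := mv_sq Λ (fun v => K2 lam hω θ B s t v) (fun v => K2d lam hω θ B s t v)
    (fun v r => K2_deriv lam hω θ B s t v r) (|lam * b| * Real.sqrt B.card) (by positivity)
    (fun r => by
      have h1 : ∀ v ∈ Λ, ‖K2d lam hω θ B s t v r‖ ^ 2 ≤
          (lam * b) ^ 2 * ∑ y ∈ B, ‖(U lam hω (r + t) (dl y)) v‖ ^ 2 := by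
        intro v _
        refine (K2d_sq lam hω θ B s t v r).trans ?_
        have h5 : 0 ≤ ∑ y ∈ B, ‖(U lam hω (r + t) (dl y)) v‖ ^ 2 :=
          Finset.sum_nonneg fun _ _ => sq_nonneg _
        have := hωv v
        gcongr
      refine (Finset.sum_le_sum h1).trans ?_
      rw [← Finset.mul_sum]
      have h2 := mass_sum lam hω B Λ (r + t)
      have e1 : (|lam * b| * Real.sqrt B.card) ^ 2 = (lam * b) ^ 2 * B.card := by
        rw [mul_pow, sq_abs, Real.sq_sqrt hN]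
      rw [e1]
      gcongr) s hs0
  have a3 : ∑ v ∈ Λ, ‖KK2 lam hω θ s B t - KK2 lam (up_bd hω v) θ s B t‖ ^ 2 ≤
      ∑ v ∈ Λ, (2 * ‖K1 lam hω (U lam (up_bd hω v) s) θ B t v t -
        K1 lam hω (U lam (up_bd hω v) s) θ B t v 0‖ ^ 2 +
        2 * ‖K2 lam hω θ B s t v s - K2 lam hω θ B s t v 0‖ ^ 2) := by
    refine Finset.sum_le_sum fun v _ => ?_
    rw [K1_start, K12, K2_end]
    have e1 : KK2 lam hω θ s B t - KK2 lam (up_bd hω v) θ s B t =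
        (KK2 lam hω θ s B t - K2 lam hω θ B s t v 0) +
        (K2 lam hω θ B s t v 0 - KK2 lam (up_bd hω v) θ s B t) := by ring
    rw [e1]
    have h1 := norm_add_le (KK2 lam hω θ s B t - K2 lam hω θ B s t v 0)
      (K2 lam hω θ B s t v 0 - KK2 lam (up_bd hω v) θ s B t)
    have h2 := pow_le_pow_left₀ (norm_nonneg _) h1 2
    nlinarith [sq_nonneg (‖KK2 lam hω θ s B t - K2 lam hω θ B s t v 0‖ -
      ‖K2 lam hω θ B s t v 0 - KK2 lam (up_bd hω v) θ s B t‖)]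
  refine a3.trans ?_
  rw [Finset.sum_add_distrib, ← Finset.mul_sum, ← Finset.mul_sum]
  have e2 : (2 * |lam * b| * Real.sqrt B.card * t) ^ 2 = 4 * (lam * b) ^ 2 * B.card * t ^ 2 := by
    rw [mul_pow, mul_pow, mul_pow, sq_abs, Real.sq_sqrt hN]
    ring
  have e3 : (|lam * b| * Real.sqrt B.card * s) ^ 2 = (lam * b) ^ 2 * B.card * s ^ 2 := by
    rw [mul_pow, mul_pow, sq_abs, Real.sq_sqrt hN]
  rw [e2] at a1
  rw [e3] at a2
  have h7 : 2 * (4 * (lam * b) ^ 2 * B.card * t ^ 2) + 2 * ((lam * b) ^ 2 * B.card * s ^ 2) ≤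
      8 * (lam * b * (t + s)) ^ 2 * B.card := by
    have h8 : 8 * (lam * b * (t + s)) ^ 2 * (B.card : ℝ) -
        (2 * (4 * (lam * b) ^ 2 * B.card * t ^ 2) + 2 * ((lam * b) ^ 2 * B.card * s ^ 2)) =
        (lam * b) ^ 2 * B.card * (16 * (t * s) + 6 * s ^ 2) := by ring
    have h9 : 0 ≤ (lam * b) ^ 2 * (B.card : ℝ) * (16 * (t * s) + 6 * s ^ 2) := by positivity
    linarith
  linarith

end

/-! ### the average profile -/

theorem Spc2_sh_KK {b : ℝ} (hb : 0 ≤ b) (lam : ℝ) (θ : Fin d → ℝ) (s : ℝ) (y : Zd d) (t : ℝ)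
    (ω : Zd d → ℝ) : Spc2 lam b θ s t (sh y ω) = (starRingEnd ℂ) (ex θ y) *
      ⟪U lam (cl_bd hb ω) (t + s) (dl y), Xp θ (U lam (cl_bd hb ω) t (dl y))⟫_ℂ := by
  rw [← Sp2_shift hb, lp.inner_eq_tsum]
  unfold Sp2
  simp only [RCLike.inner_apply, Xp_apply]
  rw [← tsum_mul_left, ← (Equiv.addRight y).tsum_eq (fun x => (starRingEnd ℂ) (ex θ y) *
    (ex θ x * (U lam (cl_bd hb ω) t (dl y)) x *
      (starRingEnd ℂ) ((U lam (cl_bd hb ω) (t + s) (dl y)) x)))]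
  refine tsum_congr fun x => ?_
  simp only [Equiv.coe_addRight]
  rw [psi_eq lam (cl_bd hb ω), psi_eq lam (cl_bd hb ω), ex_add]
  have := ex_conj_mul θ y
  linear_combination (-(ex θ x * ((starRingEnd ℂ)
    ((U lam (cl_bd hb ω) (t + s) (dl y)) (x + y)) *
      (U lam (cl_bd hb ω) t (dl y)) (x + y)))) * this

theorem SBc2_KK {b : ℝ} (hb : 0 ≤ b) (lam : ℝ) (θ : Fin d → ℝ) (s : ℝ) (B : Finset (Zd d))
    (t : ℝ) (ω : Zd d → ℝ) :
    SBc2 lam b θ s B t ω = (B.card : ℂ)⁻¹ * KK2 lam (cl_bd hb ω) θ s B t := by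
  rw [SBc2_eq hb]
  unfold KK2
  congr 1
  exact Finset.sum_congr rfl fun y _ => Spc2_sh_KK hb lam θ s y t ω

theorem KK2_congr (lam : ℝ) {b : ℝ} {ω ω' : Zd d → ℝ} (hω : ∀ x, |ω x| ≤ b)
    (hω' : ∀ x, |ω' x| ≤ b) (h : ω = ω') (θ : Fin d → ℝ) (s : ℝ) (B : Finset (Zd d)) (t : ℝ) :
    KK2 lam hω θ s B t = KK2 lam hω' θ s B t := by
  subst h
  rfl

theorem SBc2_infl {b : ℝ} (hb : 0 ≤ b) (lam : ℝ) (θ : Fin d → ℝ) (s : ℝ) (hs0 : 0 ≤ s)
    (B : Finset (Zd d)) (hB : B.Nonempty) (t : ℝ) (ht : 0 ≤ t) (Λ : Finset (Zd d))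
    (ω : Zd d → ℝ) :
    ∑ v ∈ Λ, ‖SBc2 lam b θ s B t ω - SBc2 lam b θ s B t (Function.update ω v 0)‖ ^ 2 ≤
      8 * (lam * b * (t + s)) ^ 2 / B.card := by
  have hN : (0 : ℝ) < B.card := by exact_mod_cast hB.card_pos
  have h1 := infl2 lam (cl_bd hb ω) θ B Λ s t hs0 ht
  have h2 : ∀ v, ‖SBc2 lam b θ s B t ω - SBc2 lam b θ s B t (Function.update ω v 0)‖ ^ 2 =
      ((B.card : ℝ) ^ 2)⁻¹ * ‖KK2 lam (cl_bd hb ω) θ s B t -
        KK2 lam (up_bd (cl_bd hb ω) v) θ s B t‖ ^ 2 := by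
    intro v
    rw [SBc2_KK hb, SBc2_KK hb, KK2_congr lam (cl_bd hb (Function.update ω v 0))
      (up_bd (cl_bd hb ω) v) (cl_up hb ω v), ← mul_sub, norm_mul, mul_pow, norm_inv,
      Complex.norm_natCast, inv_pow]
  simp only [h2]
  rw [← Finset.mul_sum]
  calc _ ≤ ((B.card : ℝ) ^ 2)⁻¹ * (8 * (lam * b * (t + s)) ^ 2 * B.card) :=
        mul_le_mul_of_nonneg_left h1 (by positivity)
    _ = _ := by field_simp

/-! ### continuity in the configuration -/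

theorem tail_le2 {p q : Zd d → ℂ} (hp : HasSum (fun x => ‖p x‖ ^ 2) 1)
    (hq : HasSum (fun x => ‖q x‖ ^ 2) 1) (e : Zd d → ℂ)
    (he : ∀ x, ‖e x‖ ≤ 1) (F : Finset (Zd d)) :
    ‖∑' x, e x * ((starRingEnd ℂ) (p x) * q x) - ∑ x ∈ F, e x * ((starRingEnd ℂ) (p x) * q x)‖ ≤
      1 - ∑ x ∈ F, (‖p x‖ ^ 2 + ‖q x‖ ^ 2) / 2 := by
  have hm : HasSum (fun x => (‖p x‖ ^ 2 + ‖q x‖ ^ 2) / 2) 1 := by
    have := (hp.add hq).div_const 2
    norm_num at this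
    exact this
  have hn : ∀ x, ‖e x * ((starRingEnd ℂ) (p x) * q x)‖ ≤ (‖p x‖ ^ 2 + ‖q x‖ ^ 2) / 2 := by
    intro x
    rw [norm_mul, norm_mul, RCLike.norm_conj]
    refine (mul_le_of_le_one_left (by positivity) (he x)).trans ?_
    nlinarith [sq_nonneg (‖p x‖ - ‖q x‖)]
  have hs : Summable fun x => ‖e x * ((starRingEnd ℂ) (p x) * q x)‖ :=
    Summable.of_nonneg_of_le (fun _ => norm_nonneg _) hn hm.summable
  have h1 := hs.of_norm.sum_add_tsum_subtype_compl F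
  have h2 := hm.summable.sum_add_tsum_subtype_compl F
  rw [hm.tsum_eq] at h2
  rw [← h1, add_sub_cancel_left]
  have h3 : 1 - ∑ x ∈ F, (‖p x‖ ^ 2 + ‖q x‖ ^ 2) / 2 =
      ∑' x : { x // x ∉ F }, (‖p x‖ ^ 2 + ‖q x‖ ^ 2) / 2 := by linarith
  rw [h3]
  have hs' := hs.comp_injective (Subtype.val_injective (p := fun x => x ∉ F))
  refine (norm_tsum_le_tsum_norm hs').trans ?_
  exact hs'.tsum_le_tsum (fun x => hn x)
    (hm.summable.comp_injective (Subtype.val_injective (p := fun x => x ∉ F)))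

theorem scheffe2 {Ω : Type} [TopologicalSpace Ω] (p q : Ω → Zd d → ℂ)
    (hp : ∀ ω, HasSum (fun x => ‖p ω x‖ ^ 2) 1) (hq : ∀ ω, HasSum (fun x => ‖q ω x‖ ^ 2) 1)
    (hcp : ∀ x, Continuous fun ω => p ω x) (hcq : ∀ x, Continuous fun ω => q ω x) (e : Zd d → ℂ)
    (he : ∀ x, ‖e x‖ ≤ 1) :
    Continuous fun ω => ∑' x, e x * ((starRingEnd ℂ) (p ω x) * q ω x) := by
  rw [continuous_iff_continuousAt]
  intro ω0
  rw [ContinuousAt, Metric.tendsto_nhds]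
  intro ε hε
  have hm : HasSum (fun x => (‖p ω0 x‖ ^ 2 + ‖q ω0 x‖ ^ 2) / 2) 1 := by
    have := ((hp ω0).add (hq ω0)).div_const 2
    norm_num at this
    exact this
  obtain ⟨F, hF⟩ := (hm.eventually_const_lt (show 1 - ε / 4 < 1 by linarith)).exists
  have h1 : Continuous fun ω => ∑ x ∈ F, (‖p ω x‖ ^ 2 + ‖q ω x‖ ^ 2) / 2 :=
    continuous_finsetSum _ fun x _ => (((hcp x).norm.pow 2).add ((hcq x).norm.pow 2)).div_const 2
  have h2 : Continuous fun ω => ∑ x ∈ F, e x * ((starRingEnd ℂ) (p ω x) * q ω x) :=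
    continuous_finsetSum _ fun x _ =>
      continuous_const.mul ((Complex.continuous_conj.comp (hcp x)).mul (hcq x))
  have h3 := (h1.tendsto ω0).eventually_const_lt hF
  have h4 := (Metric.tendsto_nhds.1 (h2.tendsto ω0)) (ε / 4) (by linarith)
  filter_upwards [h3, h4] with ω h5 h6
  have h7 := tail_le2 (hp ω) (hq ω) e he F
  have h8 := tail_le2 (hp ω0) (hq ω0) e he F
  rw [dist_eq_norm] at h6 ⊢
  set a := ∑' x, e x * ((starRingEnd ℂ) (p ω x) * q ω x)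
  set a' := ∑ x ∈ F, e x * ((starRingEnd ℂ) (p ω x) * q ω x)
  set c := ∑' x, e x * ((starRingEnd ℂ) (p ω0 x) * q ω0 x)
  set c' := ∑ x ∈ F, e x * ((starRingEnd ℂ) (p ω0 x) * q ω0 x)
  have e1 : a - c = (a - a') + (a' - c') - (c - c') := by ring
  rw [e1]
  refine lt_of_le_of_lt (norm_sub_le _ _) ?_
  have h9 := norm_add_le (a - a') (a' - c')
  linarith

theorem Spc2_cont {b : ℝ} (hb : 0 ≤ b) (lam : ℝ) (θ : Fin d → ℝ) (s t : ℝ) :
    Continuous fun ω : Zd d → ℝ => Spc2 lam b θ s t ω := by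
  unfold Spc2 Sp2
  exact scheffe2 (fun ω x => psi lam (cl b ω) 0 (t + s) x) (fun ω x => psi lam (cl b ω) 0 t x)
    (fun ω => (psi_ev (cl_bd hb ω) 0).mass (t + s)) (fun ω => (psi_ev (cl_bd hb ω) 0).mass t)
    (fun x => psi_cont hb lam 0 (t + s) x) (fun x => psi_cont hb lam 0 t x)
    (ex θ) (fun x => (ex_norm θ x).le)

theorem SBc2_cont {b : ℝ} (hb : 0 ≤ b) (lam : ℝ) (θ : Fin d → ℝ) (s : ℝ) (B : Finset (Zd d))
    (t : ℝ) : Continuous fun ω : Zd d → ℝ => SBc2 lam b θ s B t ω := by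
  have h1 : (fun ω : Zd d → ℝ => SBc2 lam b θ s B t ω) =
      fun ω => (B.card : ℂ)⁻¹ * ∑ y ∈ B, Spc2 lam b θ s t (sh y ω) := by
    funext ω
    exact SBc2_eq hb θ s B t ω
  rw [h1]
  exact continuous_const.mul (continuous_finsetSum _ fun y _ =>
    (Spc2_cont hb lam θ s t).comp (sh_cont y))

/-! ### the Lipschitz bounds -/

theorem Spc2_lip {b : ℝ} (hb : 0 ≤ b) (lam : ℝ) (θ θ' : Fin d → ℝ) (s s' t' t : ℝ) (ht : 0 ≤ t)
    (ω : Zd d → ℝ) : ‖Spc2 lam b θ s t ω - Spc2 lam b θ' s' t' ω‖ ≤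
      2 * Kb d lam b * |t - t'| + Kb d lam b * |s - s'| + 2 * (∑ j, |θ j - θ' j|) * t := by
  set hω := cl_bd hb ω with hhω
  have e1 : ∀ (η : Fin d → ℝ) (r u : ℝ), Spc2 lam b η r u ω =
      ⟪U lam hω (u + r) (dl 0), Xp η (U lam hω u (dl 0))⟫_ℂ := fun η r u =>
    Spc2_inner hb lam η r u ω
  rw [e1, e1]
  set p := U lam hω (t + s) (dl 0) with hp
  set p' := U lam hω (t' + s') (dl 0) with hp'
  set q := U lam hω t (dl 0) with hq
  set q' := U lam hω t' (dl 0) with hq'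
  have hp1 : ‖p'‖ = 1 := by rw [hp', U_norm, dl_norm]
  have hq1 : ‖q‖ = 1 := by rw [hq, U_norm, dl_norm]
  have hK := Kb_nonneg d lam b
  have h1 : ‖p - p'‖ ≤ Kb d lam b * |t - t'| + Kb d lam b * |s - s'| := by
    have h0 := U_lip lam hω (dl 0) (t' + s') (t + s)
    rw [dl_norm, mul_one] at h0
    refine h0.trans ?_
    rw [← mul_add]
    refine mul_le_mul_of_nonneg_left ?_ hK
    have e2 : t + s - (t' + s') = (t - t') + (s - s') := by ring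
    rw [e2]
    exact abs_add_le _ _
  have h1' : ‖q - q'‖ ≤ Kb d lam b * |t - t'| := by
    have := U_lip lam hω (dl 0) t' t
    rwa [dl_norm, mul_one] at this
  have h2 : ‖Xp θ q - Xp θ' q‖ ≤ 2 * (∑ j, |θ j - θ' j|) * t := by
    have h3 := ball lam hω (fun j => θ j - θ' j) t ht
    have e2 : Xp θ q - Xp θ' q = Xp θ' (Xp (fun j => θ j - θ' j) q - q) := by
      ext x
      rw [lp.coeFn_sub, Pi.sub_apply, Xp_apply, Xp_apply, Xp_apply, lp.coeFn_sub, Pi.sub_apply,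
        Xp_apply]
      have e3 : ex θ x = ex θ' x * ex (fun j => θ j - θ' j) x := by
        unfold ex
        rw [← Complex.exp_add]
        congr 1
        rw [← add_mul, ← Complex.ofReal_add, ← Finset.sum_add_distrib]
        congr 3
        funext j
        ring
      rw [e3]
      ring
    rw [e2, Xp_norm]
    exact h3
  have e4 : ⟪p, Xp θ q⟫_ℂ - ⟪p', Xp θ' q'⟫_ℂ =
      ⟪p - p', Xp θ q⟫_ℂ + (⟪p', Xp θ q - Xp θ' q⟫_ℂ + ⟪p', Xp θ' (q - q')⟫_ℂ) := by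
    rw [map_sub, inner_sub_left, inner_sub_right, inner_sub_right]
    ring
  rw [e4]
  have h5 : ‖⟪p - p', Xp θ q⟫_ℂ‖ ≤ Kb d lam b * |t - t'| + Kb d lam b * |s - s'| := by
    refine (norm_inner_le_norm _ _).trans ?_
    rw [Xp_norm, hq1, mul_one]
    exact h1
  have h6 : ‖⟪p', Xp θ q - Xp θ' q⟫_ℂ‖ ≤ 2 * (∑ j, |θ j - θ' j|) * t := by
    refine (norm_inner_le_norm _ _).trans ?_
    rw [hp1, one_mul]
    exact h2
  have h7 : ‖⟪p', Xp θ' (q - q')⟫_ℂ‖ ≤ Kb d lam b * |t - t'| := by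
    refine (norm_inner_le_norm _ _).trans ?_
    rw [Xp_norm, hp1, one_mul]
    exact h1'
  have h8 := norm_add_le (⟪p - p', Xp θ q⟫_ℂ)
    (⟪p', Xp θ q - Xp θ' q⟫_ℂ + ⟪p', Xp θ' (q - q')⟫_ℂ)
  have h9 := norm_add_le (⟪p', Xp θ q - Xp θ' q⟫_ℂ) (⟪p', Xp θ' (q - q')⟫_ℂ)
  linarith

theorem SBc2_lip {b : ℝ} (hb : 0 ≤ b) (lam : ℝ) (θ θ' : Fin d → ℝ) (s s' : ℝ)
    (B : Finset (Zd d)) (hB : B.Nonempty) (t' t : ℝ) (ht : 0 ≤ t) (ω : Zd d → ℝ) :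
    ‖SBc2 lam b θ s B t ω - SBc2 lam b θ' s' B t' ω‖ ≤
      2 * Kb d lam b * |t - t'| + Kb d lam b * |s - s'| + 2 * (∑ j, |θ j - θ' j|) * t := by
  have hN : (0 : ℝ) < B.card := by exact_mod_cast hB.card_pos
  rw [SBc2_eq hb, SBc2_eq hb, ← mul_sub, ← Finset.sum_sub_distrib, norm_mul, norm_inv,
    Complex.norm_natCast]
  have h1 : ‖∑ y ∈ B, (Spc2 lam b θ s t (sh y ω) - Spc2 lam b θ' s' t' (sh y ω))‖ ≤
      B.card * (2 * Kb d lam b * |t - t'| + Kb d lam b * |s - s'| +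
        2 * (∑ j, |θ j - θ' j|) * t) := by
    refine (norm_sum_le _ _).trans ?_
    refine (Finset.sum_le_sum fun y _ => Spc2_lip hb lam θ θ' s s' t' t ht (sh y ω)).trans ?_
    rw [Finset.sum_const, nsmul_eq_mul]
  calc _ ≤ (B.card : ℝ)⁻¹ * (B.card * (2 * Kb d lam b * |t - t'| + Kb d lam b * |s - s'| +
        2 * (∑ j, |θ j - θ' j|) * t)) :=
        mul_le_mul_of_nonneg_left h1 (by positivity)
    _ = _ := by field_simp

theorem mf2_lip (μ : Measure ℝ) [IsProbabilityMeasure μ] {b : ℝ} (hb : 0 ≤ b) (lam : ℝ)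
    (θ θ' : Fin d → ℝ) (s s' t' t : ℝ) (ht : 0 ≤ t) :
    ‖mf2 μ b lam θ s t - mf2 μ b lam θ' s' t'‖ ≤
      2 * Kb d lam b * |t - t'| + Kb d lam b * |s - s'| + 2 * (∑ j, |θ j - θ' j|) * t := by
  have i1 := Spc2_int μ lam θ hb s t
  have i2 := Spc2_int μ lam θ' hb s' t'
  unfold mf2
  rw [← integral_sub i1 i2]
  refine (norm_integral_le_of_norm_le_const
    (Eventually.of_forall fun ω => Spc2_lip hb lam θ θ' s s' t' t ht ω)).trans ?_
  simp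

/-- concentration at one pair of times -/
theorem conc2 (μ : Measure ℝ) [IsProbabilityMeasure μ] {b : ℝ} (hb : 0 ≤ b) (lam : ℝ)
    (θ : Fin d → ℝ) (r : ℝ) (hr : 0 ≤ r) (B : Finset (Zd d)) (hB : B.Nonempty) (t : ℝ)
    (ht : 0 ≤ t) (a : ℝ) (ha : 0 < a) (ha1 : 8 * (lam * b * (t + r)) ^ 2 / B.card ≤ a) (s : ℝ) :
    (PZ d μ) {ω | 2 * s < ‖SBc2 lam b θ r B t ω - mf2 μ b lam θ r t‖} ≤
      ENNReal.ofReal (30 * Real.exp (-(s / (2 * Real.sqrt a)))) := by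
  have hm : ∫ ω, SBc2 lam b θ r B t ω ∂(PZ d μ) = mf2 μ b lam θ r t :=
    SBc2_mean μ lam θ hb r B hB t
  have hc := SBc2_cont hb lam θ r B t
  have hi : Integrable (fun ω => SBc2 lam b θ r B t ω) (PZ d μ) :=
    Integrable.of_bound hc.measurable.aestronglyMeasurable 1
      (Eventually.of_forall fun ω => SBc2_le hb lam θ r B t ω)
  have hre : ∫ ω, (SBc2 lam b θ r B t ω).re ∂(PZ d μ) = (mf2 μ b lam θ r t).re := by
    rw [← hm]
    exact integral_re hi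
  have him : ∫ ω, (SBc2 lam b θ r B t ω).im ∂(PZ d μ) = (mf2 μ b lam θ r t).im := by
    rw [← hm]
    exact integral_im hi
  have hinf := SBc2_infl hb lam θ r hr B hB t ht
  have h1 := lconc μ (fun ω => (SBc2 lam b θ r B t ω).re) (Complex.continuous_re.comp hc)
    (fun ω => (Complex.abs_re_le_norm _).trans (SBc2_le hb lam θ r B t ω)) a ha
    (fun Λ ω => by
      refine le_trans (Finset.sum_le_sum fun v _ => ?_) ((hinf Λ ω).trans ha1)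
      rw [← Complex.sub_re, ← sq_abs]
      exact pow_le_pow_left₀ (abs_nonneg _) (Complex.abs_re_le_norm _) 2) s
  have h2 := lconc μ (fun ω => (SBc2 lam b θ r B t ω).im) (Complex.continuous_im.comp hc)
    (fun ω => (Complex.abs_im_le_norm _).trans (SBc2_le hb lam θ r B t ω)) a ha
    (fun Λ ω => by
      refine le_trans (Finset.sum_le_sum fun v _ => ?_) ((hinf Λ ω).trans ha1)
      rw [← Complex.sub_im, ← sq_abs]
      exact pow_le_pow_left₀ (abs_nonneg _) (Complex.abs_im_le_norm _) 2) s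
  rw [hre] at h1
  rw [him] at h2
  refine le_trans (measure_mono (t := {ω | s < |(SBc2 lam b θ r B t ω).re -
    (mf2 μ b lam θ r t).re|} ∪ {ω | s < |(SBc2 lam b θ r B t ω).im - (mf2 μ b lam θ r t).im|})
    ?_) ?_
  · intro ω hω
    have h3 : 2 * s < ‖SBc2 lam b θ r B t ω - mf2 μ b lam θ r t‖ := hω
    by_contra h4
    rw [Set.mem_union, not_or] at h4
    have h5 : |(SBc2 lam b θ r B t ω).re - (mf2 μ b lam θ r t).re| ≤ s := not_lt.1 h4.1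
    have h6 : |(SBc2 lam b θ r B t ω).im - (mf2 μ b lam θ r t).im| ≤ s := not_lt.1 h4.2
    have h7 := Complex.norm_le_abs_re_add_abs_im (SBc2 lam b θ r B t ω - mf2 μ b lam θ r t)
    rw [Complex.sub_re, Complex.sub_im] at h7
    linarith
  · refine (measure_union_le _ _).trans ((add_le_add h1 h2).trans ?_)
    rw [← ENNReal.ofReal_add (by positivity) (by positivity)]
    apply ENNReal.ofReal_le_ofReal
    have := Real.exp_pos (-(s / (2 * Real.sqrt a)))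
    linarith

end Pool.Agent.Zk93.FT
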