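import Pool.Agent.Zk93.FT.TwoS
import Pool.Agent.Zk93.FT.Fix

/-! The limit of the two-time profiles, and the theorem on time windows. -/

set_option autoImplicit false

open scoped BigOperators Topology
open MeasureTheory Filter

namespace Pool.Agent.Zk93.FT

open Pool.Agent.Zk11.QD (Zd HZ PZ IsG Lap exp_norm exp_int exp_val g0 h0 g0_pos h0_pos)
open Pool.Agent.Zk60.LL.Dos (dos_mass)
open Pool.Agent.Zk11.QQ (Gc Gc_isG sh ex ex_norm Ph FZ quench)
open Pool.Agent.Zk93.TE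

variable {d : ℕ}

/-- the oscillating weight -/
noncomputable def osc (s E : ℝ) : ℂ := Complex.exp (((s * E : ℝ) : ℂ) * Complex.I)

theorem osc_norm (s E : ℝ) : ‖osc s E‖ = 1 := Complex.norm_exp_ofReal_mul_I _

theorem osc_cont (s : ℝ) : Continuous (osc s) := by
  unfold osc
  fun_prop

/-- bulk energies carry the whole mass -/
theorem bulkc {Q m : ℝ → ℂ} {Q0 g : ℝ → ℝ} {a b E1 E2 M ε₁ ε₂ : ℝ} (hQ : Integrable Q)
    (hQ0 : Integrable Q0) (hle : ∀ E, ‖Q E‖ ≤ Q0 E) (hM : ∫ E, Q0 E = M)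
    (hE1 : a < E1) (hE2 : E2 < b) (h12 : E1 ≤ E2)
    (hg : IntegrableOn g (Set.Ioo a b)) (hm : IntegrableOn m (Set.Ioo a b))
    (hmg : ∀ E ∈ Set.Ioo a b, ‖m E‖ ≤ g E)
    (hgM : ∫ E in Set.Ioo a b, g E ≤ M) (hgI : M - ε₁ ≤ ∫ E in Set.Icc E1 E2, g E)
    (h1 : ∀ E ∈ Set.Icc E1 E2, ‖Q E - m E‖ ≤ ε₂)
    (h2 : ∀ E ∈ Set.Icc E1 E2, |Q0 E - g E| ≤ ε₂) :
    ‖(∫ E, Q E) - ∫ E in Set.Ioo a b, m E‖ ≤ 2 * ε₁ + 2 * (ε₂ * (E2 - E1)) := by
  set I := Set.Icc E1 E2 with hI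
  have hIm : MeasurableSet I := measurableSet_Icc
  have hsub : I ⊆ Set.Ioo a b := fun E hE => ⟨lt_of_lt_of_le hE1 hE.1, lt_of_le_of_lt hE.2 hE2⟩
  have hvol : volume.real I = E2 - E1 := by
    rw [hI, Real.volume_real_Icc_of_le h12]
  have hgi : IntegrableOn g I := hg.mono_set hsub
  have hmi : IntegrableOn m I := hm.mono_set hsub
  -- on the bulk
  have b1 : ‖(∫ E in I, Q E) - ∫ E in I, m E‖ ≤ ε₂ * (E2 - E1) := by
    rw [← integral_sub hQ.integrableOn hmi, ← hvol]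
    exact norm_setIntegral_le_of_norm_le_const (by rw [hI]; exact measure_Icc_lt_top) h1
  have b2 : (∫ E in I, g E) - ε₂ * (E2 - E1) ≤ ∫ E in I, Q0 E := by
    have h3 : |∫ E in I, (Q0 E - g E)| ≤ ε₂ * (E2 - E1) := by
      rw [← Real.norm_eq_abs, ← hvol]
      exact norm_setIntegral_le_of_norm_le_const (by rw [hI]; exact measure_Icc_lt_top) h2
    rw [integral_sub hQ0.integrableOn hgi] at h3
    have := (abs_le.1 h3).1
    linarith
  -- off the bulk
  have b3 : ‖∫ E in Iᶜ, Q E‖ ≤ ε₁ + ε₂ * (E2 - E1) := by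
    have h3 : ‖∫ E in Iᶜ, Q E‖ ≤ ∫ E in Iᶜ, Q0 E :=
      norm_integral_le_of_norm_le hQ0.integrableOn (Eventually.of_forall hle)
    have h4 := integral_add_compl hIm hQ0
    rw [hM] at h4
    linarith
  have b4 : ‖(∫ E in Set.Ioo a b, m E) - ∫ E in I, m E‖ ≤ ε₁ := by
    have e1 := setIntegral_sdiff hIm hm hsub
    have e2 := setIntegral_sdiff hIm hg hsub
    rw [← e1]
    have hdm : MeasurableSet (Set.Ioo a b \ I) := measurableSet_Ioo.diff hIm
    have h4 : ‖∫ E in Set.Ioo a b \ I, m E‖ ≤ ∫ E in Set.Ioo a b \ I, g E :=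
      norm_integral_le_of_norm_le (hg.mono_set Set.sdiff_subset)
        ((ae_restrict_mem hdm).mono fun E hE => hmg E hE.1)
    rw [e2] at h4
    linarith
  have h5 := integral_add_compl hIm hQ
  rw [← h5]
  have e3 : (∫ E in I, Q E) + (∫ E in Iᶜ, Q E) - ∫ E in Set.Ioo a b, m E =
      ((∫ E in I, Q E) - ∫ E in I, m E) + (∫ E in Iᶜ, Q E) -
        ((∫ E in Set.Ioo a b, m E) - ∫ E in I, m E) := by
    ring
  rw [e3]
  refine (norm_sub_le _ _).trans ?_
  refine (add_le_add (norm_add_le _ _) le_rfl).trans ?_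
  linarith

/-- the limit profile -/
noncomputable def Ms (d : ℕ) (V c s τ : ℝ) : ℂ :=
  ∫ E in Set.Ioo 0 (4 * d : ℝ), osc s E *
    (((g0 d E).im * Real.exp (-(2 * τ * Dd d V E * c)) : ℝ) : ℂ)

/-- its Laplace transform -/
noncomputable def Msf (d : ℕ) (V c s : ℝ) : ℂ :=
  ∫ E in Set.Ioo 0 (4 * d : ℝ), osc s E * (((g0 d E).im / (1 + Dd d V E * c) : ℝ) : ℂ)

theorem osc_int {μ : Measure ℝ} (s : ℝ) {f : ℝ → ℝ} (hf : Integrable f μ) :
    Integrable (fun E => osc s E * ((f E : ℝ) : ℂ)) μ := by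
  refine (hf.ofReal (𝕜 := ℂ)).bdd_mul (c := 1) (osc_cont s).aestronglyMeasurable ?_
  exact Eventually.of_forall fun E => (osc_norm s E).le

theorem Ms_lap (hd : 3 ≤ d) {V : ℝ} (hV : 0 < V) {c : ℝ} (hc : 0 ≤ c) (s k : ℝ) (hk : 0 < k) :
    IntegrableOn (fun τ => ((k * Real.exp (-(k * τ)) : ℝ) : ℂ) * Ms d V c s τ) (Set.Ioi 0) ∧
    ∫ τ in Set.Ioi (0 : ℝ), ((k * Real.exp (-(k * τ)) : ℝ) : ℂ) * Ms d V c s τ =
      Msf d V (2 * c / k) s := by
  set f : ℝ → ℝ → ℝ := fun τ E => k * Real.exp (-(k * τ)) *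
    ((g0 d E).im * Real.exp (-(2 * τ * Dd d V E * c))) with hf
  have hmeas : Measurable (Function.uncurry f) := by
    rw [hf]
    unfold Function.uncurry
    have m1 : Measurable fun p : ℝ × ℝ => (g0 d p.2).im :=
      (g0_im_cont hd).measurable.comp measurable_snd
    have m2 : Measurable fun p : ℝ × ℝ => Dd d V p.2 := (Dd_meas hd V).comp measurable_snd
    have m3 : Measurable fun p : ℝ × ℝ => p.1 := measurable_fst
    exact ((measurable_const.mul (Real.measurable_exp.comp ((measurable_const.mul m3).neg)))).mul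
      (m1.mul (Real.measurable_exp.comp ((((measurable_const.mul m3).mul m2).mul_const c).neg)))
  have hint : Integrable (Function.uncurry f)
      ((volume.restrict (Set.Ioi 0)).prod (volume.restrict (Set.Ioo 0 (4 * d : ℝ)))) := by
    have h1 : Integrable (fun τ : ℝ => k * Real.exp (-(k * τ))) (volume.restrict (Set.Ioi 0)) :=
      (exp_int k hk).const_mul k
    have h2 := h1.mul_prod (dos_int hd)
    refine Integrable.mono' h2 hmeas.aestronglyMeasurable ?_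
    rw [Measure.prod_restrict]
    refine (ae_restrict_mem (measurableSet_Ioi.prod measurableSet_Ioo)).mono fun p hp => ?_
    obtain ⟨hp1, hp2⟩ := hp
    have hp1' : 0 < p.1 := hp1
    have h3 := Dd_nonneg hd hV hp2
    have h4 := g0_pos hd p.2 hp2.1 hp2.2
    rw [hf]
    unfold Function.uncurry
    simp only
    rw [Real.norm_eq_abs, abs_of_nonneg (by positivity)]
    refine mul_le_mul_of_nonneg_left ?_ (by positivity)
    refine mul_le_of_le_one_right h4.le ?_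
    rw [Real.exp_le_one_iff]
    have : 0 ≤ 2 * p.1 * Dd d V p.2 * c := by positivity
    linarith
  set fc : ℝ → ℝ → ℂ := fun τ E => osc s E * ((f τ E : ℝ) : ℂ) with hfc
  have hintc : Integrable (Function.uncurry fc)
      ((volume.restrict (Set.Ioi 0)).prod (volume.restrict (Set.Ioo 0 (4 * d : ℝ)))) := by
    have h1 : Function.uncurry fc = fun p : ℝ × ℝ => osc s p.2 *
        ((Function.uncurry f p : ℝ) : ℂ) := by
      funext p
      rfl
    rw [h1]
    refine (hint.ofReal (𝕜 := ℂ)).bdd_mul (c := 1) ?_ ?_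
    · exact ((osc_cont s).comp continuous_snd).aestronglyMeasurable
    · exact Eventually.of_forall fun p => (osc_norm s p.2).le
  have hswap := integral_integral_swap hintc
  have e1 : ∀ τ, ∫ E in Set.Ioo 0 (4 * d : ℝ), fc τ E =
      ((k * Real.exp (-(k * τ)) : ℝ) : ℂ) * Ms d V c s τ := by
    intro τ
    unfold Ms
    rw [← integral_const_mul]
    refine integral_congr_ae (Eventually.of_forall fun E => ?_)
    rw [hfc, hf]
    simp only
    push_cast
    ring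
  refine ⟨?_, ?_⟩
  · have h5 := hintc.integral_prod_left
    refine h5.congr (Eventually.of_forall fun τ => ?_)
    exact e1 τ
  · simp only [e1] at hswap
    rw [hswap]
    unfold Msf
    refine setIntegral_congr_fun measurableSet_Ioo fun E hE => ?_
    have h3 := Dd_nonneg hd hV hE
    have hpos : 0 < k + 2 * Dd d V E * c := by positivity
    have e2 : ∀ τ, f τ E = k * (g0 d E).im * Real.exp (-((k + 2 * Dd d V E * c) * τ)) := by
      intro τ
      rw [hf]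
      simp only
      have : Real.exp (-((k + 2 * Dd d V E * c) * τ)) =
          Real.exp (-(k * τ)) * Real.exp (-(2 * τ * Dd d V E * c)) := by
        rw [← Real.exp_add]
        congr 1
        ring
      rw [this]
      ring
    change ∫ τ in Set.Ioi (0 : ℝ), fc τ E = _
    rw [hfc]
    simp only [e2]
    rw [integral_const_mul, integral_complex_ofReal, integral_const_mul, exp_val _ hpos]
    have h1 : 0 < 1 + Dd d V E * (2 * c / k) := by positivity
    congr 2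
    field_simp

theorem Ms_int (hd : 3 ≤ d) {V : ℝ} (hV : 0 < V) {c : ℝ} (hc : 0 ≤ c) (s τ : ℝ) (hτ : 0 ≤ τ) :
    IntegrableOn (fun E => osc s E * (((g0 d E).im * Real.exp (-(2 * τ * Dd d V E * c)) : ℝ) : ℂ))
      (Set.Ioo 0 (4 * d : ℝ)) := osc_int s (Mt_int hd hV hc τ hτ)

theorem Ms_bd (hd : 3 ≤ d) {V : ℝ} (hV : 0 < V) {c : ℝ} (hc : 0 ≤ c) (s τ : ℝ) (hτ : 0 ≤ τ) :
    ‖Ms d V c s τ‖ ≤ Real.pi := by
  refine le_trans ?_ (Mt_bd hd hV hc τ hτ).2
  unfold Ms Mt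
  refine norm_integral_le_of_norm_le (Mt_int hd hV hc τ hτ) ?_
  refine (ae_restrict_mem measurableSet_Ioo).mono fun E hE => ?_
  have h2 := g0_pos hd E hE.1 hE.2
  rw [norm_mul, osc_norm, one_mul, Complex.norm_real, Real.norm_eq_abs,
    abs_of_nonneg (by positivity)]

theorem Ms_incr (hd : 3 ≤ d) {V : ℝ} (hV : 0 < V) {c : ℝ} (hc : 0 ≤ c) (s τ σ : ℝ) (hτ : 0 ≤ τ)
    (hσ : 0 ≤ σ) : ‖Ms d V c s (τ + σ) - Ms d V c s τ‖ ≤ Real.pi - Mt d V c σ := by
  have i1 := Ms_int hd hV hc s (τ + σ) (by positivity)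
  have i2 := Ms_int hd hV hc s τ hτ
  have i3 := Mt_int hd hV hc σ hσ
  have i4 := dos_int hd
  rw [← dos_one hd]
  unfold Mt Ms
  rw [← integral_sub i1 i2, ← integral_sub i4 i3]
  refine norm_integral_le_of_norm_le (i4.sub i3) ?_
  refine (ae_restrict_mem measurableSet_Ioo).mono fun E hE => ?_
  have h1 := Dd_nonneg hd hV hE
  have h2 := g0_pos hd E hE.1 hE.2
  have e1 : (g0 d E).im * Real.exp (-(2 * (τ + σ) * Dd d V E * c)) -
      (g0 d E).im * Real.exp (-(2 * τ * Dd d V E * c)) =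
      -((g0 d E).im * Real.exp (-(2 * τ * Dd d V E * c)) *
        (1 - Real.exp (-(2 * σ * Dd d V E * c)))) := by
    have : -(2 * (τ + σ) * Dd d V E * c) = -(2 * τ * Dd d V E * c) + -(2 * σ * Dd d V E * c) := by
      ring
    rw [this, Real.exp_add]
    ring
  have h3 : Real.exp (-(2 * σ * Dd d V E * c)) ≤ 1 := by
    rw [Real.exp_le_one_iff]
    have : 0 ≤ 2 * σ * Dd d V E * c := by positivity
    linarith
  have h4 : Real.exp (-(2 * τ * Dd d V E * c)) ≤ 1 := by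
    rw [Real.exp_le_one_iff]
    have : 0 ≤ 2 * τ * Dd d V E * c := by positivity
    linarith
  rw [← mul_sub, norm_mul, osc_norm, one_mul, ← Complex.ofReal_sub, e1, Complex.norm_real,
    norm_neg, Real.norm_eq_abs, abs_of_nonneg (by
    have := Real.exp_pos (-(2 * τ * Dd d V E * c))
    have h5 : 0 ≤ 1 - Real.exp (-(2 * σ * Dd d V E * c)) := by linarith
    positivity)]
  have h5 : 0 ≤ 1 - Real.exp (-(2 * σ * Dd d V E * c)) := by linarith
  calc (g0 d E).im * Real.exp (-(2 * τ * Dd d V E * c)) *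
        (1 - Real.exp (-(2 * σ * Dd d V E * c))) ≤
        (g0 d E).im * 1 * (1 - Real.exp (-(2 * σ * Dd d V E * c))) := by gcongr
    _ = _ := by ring

theorem Ms_meas (hd : 3 ≤ d) (V c s : ℝ) : StronglyMeasurable (Ms d V c s) := by
  unfold Ms
  have m1 : Measurable fun p : ℝ × ℝ => (g0 d p.2).im :=
    (g0_im_cont hd).measurable.comp measurable_snd
  have m2 : Measurable fun p : ℝ × ℝ => Dd d V p.2 := (Dd_meas hd V).comp measurable_snd
  have m3 : Measurable fun p : ℝ × ℝ => p.1 := measurable_fst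
  have h : Measurable (Function.uncurry fun τ E : ℝ => osc s E *
      (((g0 d E).im * Real.exp (-(2 * τ * Dd d V E * c)) : ℝ) : ℂ)) := by
    unfold Function.uncurry
    exact ((osc_cont s).measurable.comp measurable_snd).mul (Complex.measurable_ofReal.comp
      (m1.mul (Real.measurable_exp.comp ((((measurable_const.mul m3).mul m2).mul_const c).neg))))
  exact h.stronglyMeasurable.integral_prod_right

/-- the difference between the profile and its limit -/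
noncomputable def Df2 (V c : ℝ) (θ : Fin d → ℝ) (s : ℝ) (B : Finset (Zd d))
    (ψ : Zd d → ℝ → Zd d → ℂ) (T τ : ℝ) : ℂ :=
  SB2 θ s B ψ (τ * T) - (Real.pi : ℂ)⁻¹ * Ms d V c s τ

theorem pi_Ms_le (hd : 3 ≤ d) {V : ℝ} (hV : 0 < V) {c : ℝ} (hc : 0 ≤ c) (s τ : ℝ)
    (hτ : 0 ≤ τ) : ‖(Real.pi : ℂ)⁻¹ * Ms d V c s τ‖ ≤ 1 := by
  have hpi := Real.pi_pos
  have h2 := Ms_bd hd hV hc s τ hτ
  rw [norm_mul, norm_inv, Complex.norm_real, Real.norm_eq_abs, abs_of_pos hpi,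
    inv_mul_le_iff₀ hpi, mul_one]
  exact h2

theorem Df2_ad (hd : 3 ≤ d) {lam : ℝ} {ω : Zd d → ℝ} {ψ : Zd d → ℝ → Zd d → ℂ}
    (h : ∀ y, Ev lam ω y (ψ y)) {V : ℝ} (hV : 0 < V) {c : ℝ} (hc : 0 ≤ c) (θ : Fin d → ℝ)
    (s : ℝ) (B : Finset (Zd d)) (T : ℝ) : Ad (Df2 V c θ s B ψ T) := by
  constructor
  · unfold Df2
    refine AEStronglyMeasurable.sub ?_ ?_
    · exact ((SB2_meas h θ s B).comp (measurable_id.mul_const T)).aestronglyMeasurable
    · exact (stronglyMeasurable_const.mul (Ms_meas hd V c s)).aestronglyMeasurable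
  · intro τ hτ
    unfold Df2
    refine (norm_sub_le _ _).trans ?_
    have h1 := SB2_le h θ s B (τ * T)
    have h2 := pi_Ms_le hd hV hc s τ hτ.le
    linarith

theorem Df2_lap (hd : 3 ≤ d) {lam b : ℝ} {ω : Zd d → ℝ} (hω : ∀ x, |ω x| ≤ b)
    {ψ : Zd d → ℝ → Zd d → ℂ} (h : ∀ y, Ev lam ω y (ψ y)) {V : ℝ} (hV : 0 < V) {c : ℝ}
    (hc : 0 ≤ c) (θ : Fin d → ℝ) (s : ℝ) (hs : 0 ≤ s) (B : Finset (Zd d)) (hB : B.Nonempty)
    (T : ℝ) (hT : 0 < T) (k : ℕ) (hk : 1 ≤ k) :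
    ‖∫ τ in Set.Ioi (0 : ℝ), ((Real.exp (-((k : ℝ) * τ)) : ℝ) : ℂ) * Df2 V c θ s B ψ T τ‖ ≤
      ‖(∫ E : ℝ, osc s E * FZ lam ((E : ℂ) + (((k : ℝ) / (2 * T) : ℝ) : ℂ) * Complex.I) θ B ω) -
        Msf d V (2 * c / k) s‖ + (Real.exp ((k : ℝ) / (2 * T) * s) - 1) := by
  have hk0 : (0 : ℝ) < k := by exact_mod_cast hk
  have hk1 : (1 : ℝ) ≤ k := by exact_mod_cast hk
  have hpi := Real.pi_pos
  have hpi1 : 1 ≤ Real.pi := by have := Real.pi_gt_three; linarith
  have h1 := SB2_lap hω h θ B T k hT hk0 s hs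
  have h2 := Ms_lap hd hV hc s k hk0
  have hη : 0 < (k : ℝ) / (2 * T) := by positivity
  set X := ∫ E : ℝ, osc s E * FZ lam ((E : ℂ) + (((k : ℝ) / (2 * T) : ℝ) : ℂ) * Complex.I) θ B ω
    with hX
  have hXle : ‖X‖ ≤ Real.pi := by
    rw [← FZ_mass hω h ((k : ℝ) / (2 * T)) hη B hB, hX]
    refine norm_integral_le_of_norm_le (FZ_int hω h 0 _ hη B).1.re
      (Eventually.of_forall fun E => ?_)
    rw [norm_mul, osc_norm, one_mul]
    exact FZ_norm hω h θ _ hη B E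
  -- integrability of the two parts
  have i1 : IntegrableOn (fun τ : ℝ => (((k : ℝ) * Real.exp (-((k : ℝ) * τ)) : ℝ) : ℂ) *
      SB2 θ s B ψ (τ * T)) (Set.Ioi 0) := by
    refine Integrable.mono' ((exp_int (k : ℝ) hk0).const_mul (k : ℝ)) ?_
      (Eventually.of_forall fun τ => ?_)
    · exact (Continuous.aestronglyMeasurable (by fun_prop)).mul
        ((SB2_meas h θ s B).comp (measurable_id.mul_const T)).aestronglyMeasurable
    · rw [norm_mul, Complex.norm_real, Real.norm_eq_abs, abs_of_nonneg (by positivity)]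
      exact mul_le_of_le_one_right (by positivity) (SB2_le h θ s B _)
  have h4 : (k : ℂ) * ∫ τ in Set.Ioi (0 : ℝ), ((Real.exp (-((k : ℝ) * τ)) : ℝ) : ℂ) *
      Df2 V c θ s B ψ T τ = (Real.pi : ℂ)⁻¹ * ((X - Msf d V (2 * c / k) s) +
        (((Real.exp ((k : ℝ) / (2 * T) * s) - 1 : ℝ)) : ℂ) * X) := by
    have h5 : (Real.pi : ℂ)⁻¹ * ((X - Msf d V (2 * c / k) s) +
        (((Real.exp ((k : ℝ) / (2 * T) * s) - 1 : ℝ)) : ℂ) * X) =
        ((Real.exp ((k : ℝ) / (2 * T) * s) : ℝ) : ℂ) * ((Real.pi : ℂ)⁻¹ * X) -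
        (Real.pi : ℂ)⁻¹ * Msf d V (2 * c / k) s := by
      push_cast
      ring
    rw [h5]
    have h6 : ((Real.exp ((k : ℝ) / (2 * T) * s) : ℝ) : ℂ) * ((Real.pi : ℂ)⁻¹ * X) =
        ∫ τ in Set.Ioi (0 : ℝ), (((k : ℝ) * Real.exp (-((k : ℝ) * τ)) : ℝ) : ℂ) *
          SB2 θ s B ψ (τ * T) := h1.symm
    have h8 : (Real.pi : ℂ)⁻¹ * ∫ τ in Set.Ioi (0 : ℝ),
        (((k : ℝ) * Real.exp (-((k : ℝ) * τ)) : ℝ) : ℂ) * Ms d V c s τ =
        ∫ τ in Set.Ioi (0 : ℝ), (Real.pi : ℂ)⁻¹ *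
          ((((k : ℝ) * Real.exp (-((k : ℝ) * τ)) : ℝ) : ℂ) * Ms d V c s τ) :=
      (integral_const_mul _ _).symm
    rw [h6, ← h2.2, h8, ← integral_sub i1 (h2.1.const_mul _), ← integral_const_mul]
    refine integral_congr_ae (Eventually.of_forall fun τ => ?_)
    simp only
    unfold Df2
    push_cast
    ring
  have h5 := congrArg norm h4
  rw [norm_mul, norm_mul, Complex.norm_natCast, norm_inv, Complex.norm_real, Real.norm_eq_abs,
    abs_of_pos hpi] at h5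
  have hexp : 0 ≤ Real.exp ((k : ℝ) / (2 * T) * s) - 1 := by
    have := Real.one_le_exp (show 0 ≤ (k : ℝ) / (2 * T) * s by positivity)
    linarith
  have h7 : ‖(X - Msf d V (2 * c / k) s) + (((Real.exp ((k : ℝ) / (2 * T) * s) - 1 : ℝ)) : ℂ) *
      X‖ ≤ ‖X - Msf d V (2 * c / k) s‖ + (Real.exp ((k : ℝ) / (2 * T) * s) - 1) * Real.pi := by
    refine (norm_add_le _ _).trans (add_le_add le_rfl ?_)
    rw [norm_mul, Complex.norm_real, Real.norm_eq_abs, abs_of_nonneg hexp]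
    exact mul_le_mul_of_nonneg_left hXle hexp
  calc ‖∫ τ in Set.Ioi (0 : ℝ), ((Real.exp (-((k : ℝ) * τ)) : ℝ) : ℂ) * Df2 V c θ s B ψ T τ‖ ≤
        (k : ℝ) * ‖∫ τ in Set.Ioi (0 : ℝ), ((Real.exp (-((k : ℝ) * τ)) : ℝ) : ℂ) *
          Df2 V c θ s B ψ T τ‖ := le_mul_of_one_le_left (norm_nonneg _) hk1
    _ = Real.pi⁻¹ * _ := h5
    _ ≤ Real.pi⁻¹ * (‖X - Msf d V (2 * c / k) s‖ +
          (Real.exp ((k : ℝ) / (2 * T) * s) - 1) * Real.pi) :=
        mul_le_mul_of_nonneg_left h7 (by positivity)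
    _ = Real.pi⁻¹ * ‖X - Msf d V (2 * c / k) s‖ + (Real.exp ((k : ℝ) / (2 * T) * s) - 1) := by
        field_simp
    _ ≤ _ := by
        refine add_le_add ?_ le_rfl
        exact mul_le_of_le_one_left (norm_nonneg _) (inv_le_one_of_one_le₀ hpi1)

end Pool.Agent.Zk93.FT
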