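import Pool.Agent.Zk93.TE.Pla

/-! The autocorrelation form of Plancherel's theorem for the Laplace transform. -/

set_option autoImplicit false

open scoped BigOperators Topology FourierTransform ENNReal
open MeasureTheory Filter

namespace Pool.Agent.Zk93.FT

open Pool.Agent.Zk11.QD (Zd HZ IsG Lap exp_norm exp_int exp_val)
open Pool.Agent.Zk93.TE

theorem pl1 (f : ℝ → ℂ) (h1 : Integrable f) (h2 : MemLp f 2) :
    Integrable (fun ξ => ‖𝓕 f ξ‖ ^ 2) ∧ ∫ ξ, ‖𝓕 f ξ‖ ^ 2 = ∫ t, ‖f t‖ ^ 2 := by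
  have hcont : Continuous (𝓕 f) :=
    VectorFourier.fourierIntegral_continuous Real.continuous_fourierChar
      (innerSL ℝ).continuous₂ h1
  have hpl := Pool.Agent.Helper76.NormalHP.plancherel_lintegral f h1 h2
  have e1 : ∀ g : ℝ → ℂ, ∫⁻ ξ, ‖g ξ‖ₑ ^ 2 = ∫⁻ ξ, ENNReal.ofReal (‖g ξ‖ ^ 2) := by
    intro g
    refine lintegral_congr fun ξ => ?_
    rw [ENNReal.ofReal_pow (norm_nonneg _), ofReal_norm]
  have hI2 : Integrable fun t => ‖f t‖ ^ 2 :=
    (memLp_two_iff_integrable_sq_norm h1.aestronglyMeasurable).1 h2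
  have hfin : ∫⁻ t, ‖f t‖ₑ ^ 2 = ENNReal.ofReal (∫ t, ‖f t‖ ^ 2) := by
    rw [e1, ofReal_integral_eq_lintegral_ofReal hI2 (Eventually.of_forall fun t => by positivity)]
  have hm : AEStronglyMeasurable (fun ξ => ‖𝓕 f ξ‖ ^ 2) volume :=
    (hcont.norm.pow 2).aestronglyMeasurable
  have hint : Integrable (fun ξ => ‖𝓕 f ξ‖ ^ 2) := by
    refine ⟨hm, ?_⟩
    rw [hasFiniteIntegral_iff_ofReal (Eventually.of_forall fun ξ => by positivity), ← e1, hpl, hfin]
    exact ENNReal.ofReal_lt_top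
  refine ⟨hint, ?_⟩
  have h3 : ENNReal.ofReal (∫ ξ, ‖𝓕 f ξ‖ ^ 2) = ENNReal.ofReal (∫ t, ‖f t‖ ^ 2) := by
    rw [ofReal_integral_eq_lintegral_ofReal hint (Eventually.of_forall fun t => by positivity),
      ← e1, hpl, hfin]
  rwa [ENNReal.ofReal_eq_ofReal_iff (integral_nonneg fun _ => by positivity)
    (integral_nonneg fun _ => by positivity)] at h3

theorem polar (a b : ℂ) : (starRingEnd ℂ) a * b =
    (((‖a + 1 * b‖ ^ 2 : ℝ) : ℂ) - ((‖a + (-1) * b‖ ^ 2 : ℝ) : ℂ)) / 4 -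
      Complex.I * ((((‖a + Complex.I * b‖ ^ 2 : ℝ) : ℂ) -
        ((‖a + (-Complex.I) * b‖ ^ 2 : ℝ) : ℂ)) / 4) := by
  have hn : ∀ z : ℂ, ‖z‖ ^ 2 = z.re * z.re + z.im * z.im := fun z => by
    rw [Complex.sq_norm, Complex.normSq_apply]
  apply Complex.ext
  · simp only [hn]
    simp [Complex.mul_re, Complex.mul_im]
    ring
  · simp only [hn]
    simp [Complex.mul_re, Complex.mul_im]
    ring

theorem fou_lin (f g : ℝ → ℂ) (hf1 : Integrable f) (hg1 : Integrable g) (c : ℂ) (ξ : ℝ) :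
    𝓕 (fun t => f t + c * g t) ξ = 𝓕 f ξ + c * 𝓕 g ξ := by
  rw [Real.fourier_real_eq_integral_exp_smul, Real.fourier_real_eq_integral_exp_smul,
    Real.fourier_real_eq_integral_exp_smul, ← integral_const_mul, ← integral_add]
  · refine integral_congr_ae (Eventually.of_forall fun t => ?_)
    simp only [smul_eq_mul]
    ring
  · refine (hf1.bdd_mul (c := 1) ?_ ?_ : Integrable fun t => _ * f t)
    · exact Continuous.aestronglyMeasurable (by fun_prop)
    · refine Eventually.of_forall fun t => ?_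
      rw [Complex.norm_exp_ofReal_mul_I]
  · refine Integrable.const_mul ?_ c
    refine (hg1.bdd_mul (c := 1) ?_ ?_ : Integrable fun t => _ * g t)
    · exact Continuous.aestronglyMeasurable (by fun_prop)
    · refine Eventually.of_forall fun t => ?_
      rw [Complex.norm_exp_ofReal_mul_I]

theorem pl2 (f g : ℝ → ℂ) (hf1 : Integrable f) (hf2 : MemLp f 2) (hg1 : Integrable g)
    (hg2 : MemLp g 2) :
    ∫ ξ, (starRingEnd ℂ) (𝓕 f ξ) * 𝓕 g ξ = ∫ t, (starRingEnd ℂ) (f t) * g t := by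
  have hq : ∀ c : ℂ, Integrable (fun ξ => ‖𝓕 f ξ + c * 𝓕 g ξ‖ ^ 2) ∧
      Integrable (fun t => ‖f t + c * g t‖ ^ 2) ∧
      ∫ ξ, ‖𝓕 f ξ + c * 𝓕 g ξ‖ ^ 2 = ∫ t, ‖f t + c * g t‖ ^ 2 := by
    intro c
    have hi : Integrable fun t => f t + c * g t := hf1.add (hg1.const_mul c)
    have hm : MemLp (fun t => f t + c * g t) 2 := hf2.add (hg2.const_mul c)
    have h := pl1 _ hi hm
    simp only [fou_lin f g hf1 hg1] at h
    exact ⟨h.1, (memLp_two_iff_integrable_sq_norm hi.aestronglyMeasurable).1 hm, h.2⟩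
  have key : ∀ (A B : ℝ → ℂ), (∀ c : ℂ, Integrable (fun t => ‖A t + c * B t‖ ^ 2)) →
      ∫ t, (starRingEnd ℂ) (A t) * B t =
        (((∫ t, ‖A t + 1 * B t‖ ^ 2 : ℝ) : ℂ) - ((∫ t, ‖A t + (-1) * B t‖ ^ 2 : ℝ) : ℂ)) / 4 -
        Complex.I * ((((∫ t, ‖A t + Complex.I * B t‖ ^ 2 : ℝ) : ℂ) -
          ((∫ t, ‖A t + (-Complex.I) * B t‖ ^ 2 : ℝ) : ℂ)) / 4) := by
    intro A B hAB
    simp only [polar]
    have i : ∀ c : ℂ, Integrable (fun t => ((‖A t + c * B t‖ ^ 2 : ℝ) : ℂ)) := fun c =>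
      (hAB c).ofReal
    have j1 : Integrable (fun t => (((‖A t + 1 * B t‖ ^ 2 : ℝ) : ℂ) -
        ((‖A t + (-1) * B t‖ ^ 2 : ℝ) : ℂ)) / 4) := ((i 1).sub (i (-1))).div_const 4
    have j2 : Integrable (fun t => Complex.I * ((((‖A t + Complex.I * B t‖ ^ 2 : ℝ) : ℂ) -
        ((‖A t + (-Complex.I) * B t‖ ^ 2 : ℝ) : ℂ)) / 4)) :=
      (((i Complex.I).sub (i (-Complex.I))).div_const 4).const_mul Complex.I
    rw [integral_sub j1 j2, integral_const_mul, integral_div, integral_div,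
      integral_sub (i 1) (i (-1)), integral_sub (i Complex.I) (i (-Complex.I))]
    simp only [integral_complex_ofReal]
  rw [key _ _ fun c => (hq c).1, key _ _ fun c => (hq c).2.1, (hq 1).2.2, (hq (-1)).2.2,
    (hq Complex.I).2.2, (hq (-Complex.I)).2.2]

theorem fou_tr (h : ℝ → ℂ) (s ξ : ℝ) : 𝓕 (fun t => h (t + s)) ξ =
    Complex.exp (((2 * Real.pi * (s * ξ) : ℝ) : ℂ) * Complex.I) * 𝓕 h ξ := by
  rw [Real.fourier_real_eq_integral_exp_smul, Real.fourier_real_eq_integral_exp_smul,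
    ← integral_const_mul]
  have h1 := integral_add_right_eq_self (μ := (volume : Measure ℝ))
    (fun t => Complex.exp (((-2 * Real.pi * (t - s) * ξ : ℝ) : ℂ) * Complex.I) • h t) s
  simp only [add_sub_cancel_right] at h1
  rw [h1]
  refine integral_congr_ae (Eventually.of_forall fun t => ?_)
  simp only [smul_eq_mul]
  rw [← mul_assoc, ← Complex.exp_add]
  congr 2
  push_cast
  ring

theorem auto {F : ℝ → ℂ} (hF : Continuous F) (hB : ∀ t, ‖F t‖ ≤ 1) (η : ℝ) (hη : 0 < η)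
    (s : ℝ) (hs : 0 ≤ s) :
    ∫ E : ℝ, Complex.exp (((s * E : ℝ) : ℂ) * Complex.I) *
        ((‖Lap F ((E : ℂ) + η * Complex.I)‖ ^ 2 : ℝ) : ℂ) =
      2 * Real.pi * ((Real.exp (-(η * s)) : ℝ) : ℂ) *
        ∫ t in Set.Ioi (0 : ℝ), ((Real.exp (-(2 * η * t)) : ℝ) : ℂ) *
          ((starRingEnd ℂ) (F (t + s)) * F t) := by
  have h1 := hh_int hF hB η hη
  have h2 := hh_memLp hF hB η hη
  have h1s : Integrable fun t => hh F η (t + s) := h1.comp_add_right s
  have h2s : MemLp (fun t => hh F η (t + s)) 2 :=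
    h2.comp_measurePreserving (measurePreserving_add_right volume s)
  have hp := pl2 _ _ h1s h2s h1 h2
  have hpi := Real.pi_pos
  have hR : (-(2 * Real.pi)⁻¹ : ℝ) ≠ 0 := by
    have : 0 < (2 * Real.pi)⁻¹ := by positivity
    linarith
  have e : ∀ E : ℝ, Complex.exp (((s * E : ℝ) : ℂ) * Complex.I) *
        ((‖Lap F ((E : ℂ) + η * Complex.I)‖ ^ 2 : ℝ) : ℂ) =
      (starRingEnd ℂ) (𝓕 (fun t => hh F η (t + s)) (E * (-(2 * Real.pi)⁻¹))) *
        𝓕 (hh F η) (E * (-(2 * Real.pi)⁻¹)) := by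
    intro E
    rw [hh_fourier, norm_mul, Complex.norm_I, one_mul, fou_tr, map_mul, mul_assoc]
    have e1 : (starRingEnd ℂ) (𝓕 (hh F η) (E * (-(2 * Real.pi)⁻¹))) *
        𝓕 (hh F η) (E * (-(2 * Real.pi)⁻¹)) =
        ((‖𝓕 (hh F η) (E * (-(2 * Real.pi)⁻¹))‖ ^ 2 : ℝ) : ℂ) := by
      rw [mul_comm, Complex.mul_conj, Complex.normSq_eq_norm_sq]
    rw [e1]
    congr 1
    rw [← Complex.exp_conj, map_mul, Complex.conj_ofReal, Complex.conj_I]
    congr 1
    have : 2 * Real.pi * (s * (E * (-(2 * Real.pi)⁻¹))) = -(s * E) := by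
      field_simp
    rw [this]
    push_cast
    ring
  simp only [e]
  rw [Measure.integral_comp_mul_right (fun ξ => (starRingEnd ℂ)
    (𝓕 (fun t => hh F η (t + s)) ξ) * 𝓕 (hh F η) ξ), hp]
  have e2 : |(-(2 * Real.pi)⁻¹)⁻¹| = 2 * Real.pi := by
    rw [abs_inv, abs_neg, abs_inv, inv_inv, abs_of_pos (by positivity)]
  have hval : ∫ t, (starRingEnd ℂ) (hh F η (t + s)) * hh F η t =
      ((Real.exp (-(η * s)) : ℝ) : ℂ) * ∫ t in Set.Ioi (0 : ℝ),
        ((Real.exp (-(2 * η * t)) : ℝ) : ℂ) * ((starRingEnd ℂ) (F (t + s)) * F t) := by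
    rw [← integral_const_mul, ← integral_indicator measurableSet_Ioi]
    refine integral_congr_ae (Eventually.of_forall fun t => ?_)
    unfold hh
    simp only
    by_cases ht : t ∈ Set.Ioi (0 : ℝ)
    · have ht2 : t + s ∈ Set.Ioi (0 : ℝ) := by
        have : (0 : ℝ) < t := ht
        exact Set.mem_Ioi.2 (by linarith)
      rw [Set.indicator_of_mem ht, Set.indicator_of_mem ht, Set.indicator_of_mem ht2, map_mul,
        Complex.conj_ofReal]
      have e3 : Real.exp (-(2 * η * t)) * Real.exp (-(η * s)) =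
          Real.exp (-(η * (t + s))) * Real.exp (-(η * t)) := by
        rw [← Real.exp_add, ← Real.exp_add]
        congr 1
        ring
      have e4 : ((Real.exp (-(2 * η * t)) : ℝ) : ℂ) * ((Real.exp (-(η * s)) : ℝ) : ℂ) =
          ((Real.exp (-(η * (t + s))) : ℝ) : ℂ) * ((Real.exp (-(η * t)) : ℝ) : ℂ) := by
        exact_mod_cast e3
      linear_combination (-((starRingEnd ℂ) (F (t + s)) * F t)) * e4
    · rw [Set.indicator_of_notMem ht, Set.indicator_of_notMem ht]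
      simp
  rw [e2, Complex.real_smul, hval]
  push_cast
  ring

end Pool.Agent.Zk93.FT
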