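import Pool.Agent.Zk93.FT.TwoP
import Pool.Agent.Zk93.TE.Fin

/-! Two-time profiles: the spectral representation with an oscillating weight in the energy. -/

set_option autoImplicit false

open scoped BigOperators Topology FourierTransform ENNReal
open MeasureTheory Filter

namespace Pool.Agent.Zk93.FT

open Pool.Agent.Zk11.QD (Zd HZ PZ IsG Lap exp_norm exp_int exp_val)
open Pool.Agent.Zk11.QQ (Gc Gc_isG sh ex ex_norm Ph FZ)
open Pool.Agent.Zk93.TE

variable {d : ℕ}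

/-- the two-time profile `∑ₓ e^{iθx} conj(ψ_{t+s}(x)) ψ_t(x)` -/
noncomputable def Sp2 (θ : Fin d → ℝ) (s : ℝ) (ψ : ℝ → Zd d → ℂ) (t : ℝ) : ℂ :=
  ∑' x, ex θ x * ((starRingEnd ℂ) (ψ (t + s) x) * ψ t x)

theorem sp2_pt {lam : ℝ} {ω : Zd d → ℝ} {y : Zd d} {ψ : ℝ → Zd d → ℂ} (_h : Ev lam ω y ψ)
    (θ : Fin d → ℝ) (s t : ℝ) (x : Zd d) :
    ‖ex θ x * ((starRingEnd ℂ) (ψ (t + s) x) * ψ t x)‖ ≤ (‖ψ (t + s) x‖ ^ 2 + ‖ψ t x‖ ^ 2) / 2 := by
  rw [norm_mul, ex_norm, one_mul, norm_mul, RCLike.norm_conj]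
  nlinarith [sq_nonneg (‖ψ (t + s) x‖ - ‖ψ t x‖)]

theorem sp2_hs {lam : ℝ} {ω : Zd d → ℝ} {y : Zd d} {ψ : ℝ → Zd d → ℂ} (h : Ev lam ω y ψ)
    (s t : ℝ) : HasSum (fun x => (‖ψ (t + s) x‖ ^ 2 + ‖ψ t x‖ ^ 2) / 2) 1 := by
  have := ((h.mass (t + s)).add (h.mass t)).div_const 2
  norm_num at this
  exact this

theorem Sp2_summable {lam : ℝ} {ω : Zd d → ℝ} {y : Zd d} {ψ : ℝ → Zd d → ℂ} (h : Ev lam ω y ψ)
    (θ : Fin d → ℝ) (s t : ℝ) :
    Summable fun x => ‖ex θ x * ((starRingEnd ℂ) (ψ (t + s) x) * ψ t x)‖ :=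
  Summable.of_nonneg_of_le (fun _ => norm_nonneg _) (sp2_pt h θ s t) (sp2_hs h s t).summable

theorem Sp2_le {lam : ℝ} {ω : Zd d → ℝ} {y : Zd d} {ψ : ℝ → Zd d → ℂ} (h : Ev lam ω y ψ)
    (θ : Fin d → ℝ) (s t : ℝ) : ‖Sp2 θ s ψ t‖ ≤ 1 := by
  unfold Sp2
  refine (norm_tsum_le_tsum_norm (Sp2_summable h θ s t)).trans ?_
  rw [← (sp2_hs h s t).tsum_eq]
  exact (Sp2_summable h θ s t).tsum_le_tsum (sp2_pt h θ s t) (sp2_hs h s t).summable

theorem Ph_int2 {lam b : ℝ} {ω : Zd d → ℝ} (hω : ∀ x, |ω x| ≤ b)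
    {ψ : ℝ → Zd d → ℂ} (h : Ev lam ω 0 ψ) (θ : Fin d → ℝ) (η : ℝ) (hη : 0 < η) (s : ℝ)
    (hs : 0 ≤ s) :
    Integrable (fun E : ℝ => Complex.exp (((s * E : ℝ) : ℂ) * Complex.I) *
        Ph lam ((E : ℂ) + η * Complex.I) θ ω) ∧
      IntegrableOn (fun t : ℝ => ((2 * η * Real.exp (-(2 * η * t)) : ℝ) : ℂ) * Sp2 θ s ψ t)
        (Set.Ioi 0) ∧
      ∫ E : ℝ, Complex.exp (((s * E : ℝ) : ℂ) * Complex.I) *
          Ph lam ((E : ℂ) + η * Complex.I) θ ω =
        ((Real.exp (-(η * s)) : ℝ) : ℂ) * (Real.pi *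
          ∫ t in Set.Ioi (0 : ℝ), ((2 * η * Real.exp (-(2 * η * t)) : ℝ) : ℂ) * Sp2 θ s ψ t) := by
  have hη2 : 0 < 2 * η := by linarith
  have hpl := fun x => lap_planch (h.cont x) (fun t => h.le_one t x) η hη
  have hau := fun x => auto (h.cont x) (fun t => h.le_one t x) η hη s hs
  -- the energy side
  set F : Zd d → ℝ → ℂ := fun x E => ex θ x * (Complex.exp (((s * E : ℝ) : ℂ) * Complex.I) *
    ((‖Lap (fun t => ψ t x) ((E : ℂ) + η * Complex.I)‖ ^ 2 : ℝ) : ℂ)) with hF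
  have hFn : ∀ x E, ‖F x E‖ = ‖Lap (fun t => ψ t x) ((E : ℂ) + η * Complex.I)‖ ^ 2 := by
    intro x E
    rw [hF]
    simp only
    rw [norm_mul, ex_norm, one_mul, norm_mul, Complex.norm_exp_ofReal_mul_I, one_mul,
      Complex.norm_real, Real.norm_eq_abs, abs_of_nonneg (by positivity)]
  have hFi : ∀ x, Integrable (F x) := fun x => by
    refine Integrable.const_mul ?_ _
    refine ((hpl x).1.ofReal (𝕜 := ℂ)).bdd_mul (c := 1) ?_ ?_
    · exact Continuous.aestronglyMeasurable (by fun_prop)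
    · refine Eventually.of_forall fun E => ?_
      rw [Complex.norm_exp_ofReal_mul_I]
  have hFs : Summable fun x => ∫ E, ‖F x E‖ := by
    simp only [hFn]
    simp only [fun x => (hpl x).2]
    exact (time_sum h (2 * η) hη2).mul_left _
  have hFp : ∀ E, Summable fun x => ‖F x E‖ := by
    intro E
    simp only [hFn]
    exact (green hω h _ (by simpa using hη)).sq
  obtain ⟨a1, a2⟩ := int_tsum F hFi hFs hFp
  -- the time side
  set G : Zd d → ℝ → ℂ := fun x t => ex θ x *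
    (((Real.exp (-(2 * η * t)) : ℝ) : ℂ) * ((starRingEnd ℂ) (ψ (t + s) x) * ψ t x)) with hG
  have hGn : ∀ x t, ‖G x t‖ = Real.exp (-(2 * η * t)) * (‖ψ (t + s) x‖ * ‖ψ t x‖) := by
    intro x t
    rw [hG]
    simp only
    rw [norm_mul, ex_norm, one_mul, norm_mul, norm_mul, RCLike.norm_conj, Complex.norm_real,
      Real.norm_eq_abs, abs_of_pos (Real.exp_pos _)]
  have hcs : ∀ x, Continuous fun t => ψ (t + s) x := fun x =>
    (h.cont x).comp (continuous_id.add continuous_const)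
  have hGc : ∀ x, Continuous (G x) := by
    intro x
    have h1 : Continuous fun t => (starRingEnd ℂ) (ψ (t + s) x) :=
      Complex.continuous_conj.comp (hcs x)
    exact continuous_const.mul ((by fun_prop : Continuous fun t : ℝ =>
      ((Real.exp (-(2 * η * t)) : ℝ) : ℂ)).mul (h1.mul (h.cont x)))
  have hGi : ∀ x, Integrable (G x) (volume.restrict (Set.Ioi 0)) := fun x => by
    refine Integrable.mono' (exp_int (2 * η) hη2) (hGc x).aestronglyMeasurable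
      (Eventually.of_forall fun t => ?_)
    rw [hGn]
    refine mul_le_of_le_one_right (Real.exp_pos _).le ?_
    exact mul_le_one₀ (h.le_one _ x) (norm_nonneg _) (h.le_one t x)
  have hGs : Summable fun x => ∫ t in Set.Ioi (0 : ℝ), ‖G x t‖ := by
    refine summable_of_sum_le (c := 1 / (2 * η)) (fun x => integral_nonneg fun t => norm_nonneg _)
      fun F => ?_
    rw [← integral_finsetSum _ fun x _ => (hGi x).norm, ← exp_val (2 * η) hη2]
    refine integral_mono (integrable_finsetSum _ fun x _ => (hGi x).norm) (exp_int (2 * η) hη2)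
      fun t => ?_
    simp only [hGn]
    rw [← Finset.mul_sum]
    refine mul_le_of_le_one_right (Real.exp_pos _).le ?_
    refine le_trans (Finset.sum_le_sum fun x _ => ?_)
      (sum_le_hasSum F (fun x _ => by positivity) (sp2_hs h s t))
    nlinarith [sq_nonneg (‖ψ (t + s) x‖ - ‖ψ t x‖)]
  have hGp : ∀ t, Summable fun x => ‖G x t‖ := by
    intro t
    simp only [hGn]
    refine Summable.mul_left _ ?_
    refine Summable.of_nonneg_of_le (fun _ => by positivity) (fun x => ?_) (sp2_hs h s t).summable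
    nlinarith [sq_nonneg (‖ψ (t + s) x‖ - ‖ψ t x‖)]
  obtain ⟨b1, b2⟩ := int_tsum G hGi hGs hGp
  have hFG : ∀ x, ∫ E, F x E = (2 * Real.pi * ((Real.exp (-(η * s)) : ℝ) : ℂ)) *
      ∫ t in Set.Ioi (0 : ℝ), G x t := by
    intro x
    rw [hF, hG]
    simp only
    rw [integral_const_mul, integral_const_mul, hau x]
    ring
  have hkey : ∫ E, ∑' x, F x E = (2 * Real.pi * ((Real.exp (-(η * s)) : ℝ) : ℂ)) *
      ∫ t in Set.Ioi (0 : ℝ), ∑' x, G x t := by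
    refine a2.unique ?_
    simp only [hFG]
    exact b2.mul_left _
  have hGS : ∀ t, ∑' x, G x t = ((Real.exp (-(2 * η * t)) : ℝ) : ℂ) * Sp2 θ s ψ t := by
    intro t
    rw [hG]
    unfold Sp2
    simp only
    rw [← tsum_mul_left]
    refine tsum_congr fun x => ?_
    ring
  have e1 : (fun E : ℝ => Complex.exp (((s * E : ℝ) : ℂ) * Complex.I) *
      Ph lam ((E : ℂ) + η * Complex.I) θ ω) = fun E => (η : ℂ) * ∑' x, F x E := by
    funext E
    rw [Ph_eq hω h θ η hη E, hF]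
    simp only
    rw [mul_left_comm, ← tsum_mul_left]
    congr 1
    refine tsum_congr fun x => ?_
    ring
  have e2 : (fun t : ℝ => ((2 * η * Real.exp (-(2 * η * t)) : ℝ) : ℂ) * Sp2 θ s ψ t) =
      fun t => (2 * η : ℂ) * ∑' x, G x t := by
    funext t
    rw [hGS]
    push_cast
    ring
  rw [e1, e2]
  refine ⟨a1.const_mul _, b1.const_mul _, ?_⟩
  rw [integral_const_mul, integral_const_mul, hkey]
  ring

/-- the average two-time profile -/
noncomputable def SB2 (θ : Fin d → ℝ) (s : ℝ) (B : Finset (Zd d)) (ψ : Zd d → ℝ → Zd d → ℂ)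
    (t : ℝ) : ℂ := (B.card : ℂ)⁻¹ * ∑ y ∈ B, Sp2 θ s (fun t x => ψ y t (x + y)) t

theorem SB2_le {lam : ℝ} {ω : Zd d → ℝ} {ψ : Zd d → ℝ → Zd d → ℂ} (h : ∀ y, Ev lam ω y (ψ y))
    (θ : Fin d → ℝ) (s : ℝ) (B : Finset (Zd d)) (t : ℝ) : ‖SB2 θ s B ψ t‖ ≤ 1 := by
  unfold SB2
  rw [norm_mul, norm_inv, Complex.norm_natCast]
  have h1 : ‖∑ y ∈ B, Sp2 θ s (fun t x => ψ y t (x + y)) t‖ ≤ B.card := by
    refine (norm_sum_le _ _).trans ?_
    refine (Finset.sum_le_sum fun y _ => Sp2_le (h y).shift θ s t).trans (le_of_eq ?_)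
    simp
  rcases Nat.eq_zero_or_pos B.card with h0 | h0
  · rw [h0]
    simp
  · have h2 : (0 : ℝ) < B.card := by exact_mod_cast h0
    rw [inv_mul_le_iff₀ h2, mul_one]
    exact h1

theorem FZ_int2 {lam b : ℝ} {ω : Zd d → ℝ} (hω : ∀ x, |ω x| ≤ b)
    {ψ : Zd d → ℝ → Zd d → ℂ} (h : ∀ y, Ev lam ω y (ψ y)) (θ : Fin d → ℝ) (η : ℝ) (hη : 0 < η)
    (s : ℝ) (hs : 0 ≤ s) (B : Finset (Zd d)) :
    Integrable (fun E : ℝ => Complex.exp (((s * E : ℝ) : ℂ) * Complex.I) *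
        FZ lam ((E : ℂ) + η * Complex.I) θ B ω) ∧
      IntegrableOn (fun t : ℝ => ((2 * η * Real.exp (-(2 * η * t)) : ℝ) : ℂ) * SB2 θ s B ψ t)
        (Set.Ioi 0) ∧
      ∫ E : ℝ, Complex.exp (((s * E : ℝ) : ℂ) * Complex.I) *
          FZ lam ((E : ℂ) + η * Complex.I) θ B ω =
        ((Real.exp (-(η * s)) : ℝ) : ℂ) * (Real.pi *
          ∫ t in Set.Ioi (0 : ℝ), ((2 * η * Real.exp (-(2 * η * t)) : ℝ) : ℂ) *
            SB2 θ s B ψ t) := by
  have h1 := fun y => Ph_int2 (b := b) (lam := lam) (ω := sh y ω) (fun x => hω _) (h y).shift θ η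
    hη s hs
  have e1 : (fun t : ℝ => ((2 * η * Real.exp (-(2 * η * t)) : ℝ) : ℂ) * SB2 θ s B ψ t) =
      fun t => (B.card : ℂ)⁻¹ * ∑ y ∈ B, ((2 * η * Real.exp (-(2 * η * t)) : ℝ) : ℂ) *
        Sp2 θ s (fun t x => ψ y t (x + y)) t := by
    funext t
    unfold SB2
    rw [← Finset.mul_sum]
    ring
  have e2 : (fun E : ℝ => Complex.exp (((s * E : ℝ) : ℂ) * Complex.I) *
        FZ lam ((E : ℂ) + η * Complex.I) θ B ω) = fun E => (B.card : ℂ)⁻¹ * ∑ y ∈ B,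
        Complex.exp (((s * E : ℝ) : ℂ) * Complex.I) *
          Ph lam ((E : ℂ) + η * Complex.I) θ (sh y ω) := by
    funext E
    unfold FZ
    rw [← Finset.mul_sum]
    ring
  rw [e1, e2]
  refine ⟨(integrable_finsetSum _ fun y _ => (h1 y).1).const_mul _,
    (integrable_finsetSum _ fun y _ => (h1 y).2.1).const_mul _, ?_⟩
  rw [integral_const_mul, integral_const_mul, integral_finsetSum _ fun y _ => (h1 y).1,
    integral_finsetSum _ fun y _ => (h1 y).2.1, Finset.sum_congr rfl fun y _ => (h1 y).2.2,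
    ← Finset.mul_sum, ← Finset.mul_sum]
  ring

theorem Sp2_meas {lam : ℝ} {ω : Zd d → ℝ} {y : Zd d} {ψ : ℝ → Zd d → ℂ} (h : Ev lam ω y ψ)
    (θ : Fin d → ℝ) (s : ℝ) : Measurable (Sp2 θ s ψ) := by
  refine measurable_of_tendsto_metrizable' (atTop : Filter (Finset (Zd d)))
    (f := fun F t => ∑ x ∈ F, ex θ x * ((starRingEnd ℂ) (ψ (t + s) x) * ψ t x)) (fun F => ?_) ?_
  · refine Continuous.measurable ?_
    refine continuous_finsetSum _ fun x _ => ?_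
    have h1 : Continuous fun t => (starRingEnd ℂ) (ψ (t + s) x) :=
      Complex.continuous_conj.comp ((h.cont x).comp (continuous_id.add continuous_const))
    exact continuous_const.mul (h1.mul (h.cont x))
  · rw [tendsto_pi_nhds]
    intro t
    exact (Sp2_summable h θ s t).of_norm.hasSum

theorem SB2_meas {lam : ℝ} {ω : Zd d → ℝ} {ψ : Zd d → ℝ → Zd d → ℂ} (h : ∀ y, Ev lam ω y (ψ y))
    (θ : Fin d → ℝ) (s : ℝ) (B : Finset (Zd d)) : Measurable (SB2 θ s B ψ) := by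
  unfold SB2
  refine measurable_const.mul ?_
  exact Finset.measurable_fun_sum _ fun y _ => Sp2_meas (h y).shift θ s

/-- the Laplace transform of the profile in macroscopic time -/
theorem SB2_lap {lam b : ℝ} {ω : Zd d → ℝ} (hω : ∀ x, |ω x| ≤ b)
    {ψ : Zd d → ℝ → Zd d → ℂ} (h : ∀ y, Ev lam ω y (ψ y)) (θ : Fin d → ℝ)
    (B : Finset (Zd d)) (T k : ℝ) (hT : 0 < T) (hk : 0 < k) (s : ℝ) (hs : 0 ≤ s) :
    ∫ τ in Set.Ioi (0 : ℝ), ((k * Real.exp (-(k * τ)) : ℝ) : ℂ) * SB2 θ s B ψ (τ * T) =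
      ((Real.exp (k / (2 * T) * s) : ℝ) : ℂ) * ((Real.pi : ℂ)⁻¹ *
        ∫ E : ℝ, Complex.exp (((s * E : ℝ) : ℂ) * Complex.I) *
          FZ lam ((E : ℂ) + ((k / (2 * T) : ℝ) : ℂ) * Complex.I) θ B ω) := by
  have hη : 0 < k / (2 * T) := by positivity
  obtain ⟨_, _, h3⟩ := FZ_int2 hω h θ (k / (2 * T)) hη s hs B
  rw [h3]
  have hpi : (Real.pi : ℂ) ≠ 0 := by exact_mod_cast Real.pi_ne_zero
  have hex : ((Real.exp (k / (2 * T) * s) : ℝ) : ℂ) * ((Real.exp (-(k / (2 * T) * s)) : ℝ) : ℂ) =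
      1 := by
    rw [← Complex.ofReal_mul, ← Real.exp_add, add_neg_cancel, Real.exp_zero, Complex.ofReal_one]
  set J := ∫ t in Set.Ioi (0 : ℝ), ((2 * (k / (2 * T)) * Real.exp (-(2 * (k / (2 * T)) * t)) : ℝ) :
    ℂ) * SB2 θ s B ψ t with hJ
  have e0 : ((Real.exp (k / (2 * T) * s) : ℝ) : ℂ) * ((Real.pi : ℂ)⁻¹ *
      (((Real.exp (-(k / (2 * T) * s)) : ℝ) : ℂ) * (Real.pi * J))) = J := by
    have : ((Real.exp (k / (2 * T) * s) : ℝ) : ℂ) * ((Real.pi : ℂ)⁻¹ *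
      (((Real.exp (-(k / (2 * T) * s)) : ℝ) : ℂ) * (Real.pi * J))) =
      (((Real.exp (k / (2 * T) * s) : ℝ) : ℂ) * ((Real.exp (-(k / (2 * T) * s)) : ℝ) : ℂ)) *
      ((Real.pi : ℂ)⁻¹ * Real.pi) * J := by ring
    rw [this, hex, inv_mul_cancel₀ hpi, one_mul, one_mul]
  rw [e0, hJ]
  set f : ℝ → ℂ := fun t => ((2 * (k / (2 * T)) * Real.exp (-(2 * (k / (2 * T)) * t)) : ℝ) : ℂ) *
    SB2 θ s B ψ t with hf
  have h4 := integral_comp_mul_right_Ioi f 0 hT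
  rw [zero_mul] at h4
  have h5 : ∀ τ, f (τ * T) = (T : ℂ)⁻¹ * (((k * Real.exp (-(k * τ)) : ℝ) : ℂ) *
      SB2 θ s B ψ (τ * T)) := by
    intro τ
    rw [hf]
    simp only
    have e1 : 2 * (k / (2 * T)) * (τ * T) = k * τ := by field_simp
    have e2 : 2 * (k / (2 * T)) = T⁻¹ * k := by field_simp
    rw [e1, e2]
    push_cast
    ring
  simp only [h5] at h4
  rw [integral_const_mul] at h4
  have hT' : (T : ℂ)⁻¹ ≠ 0 := inv_ne_zero (by exact_mod_cast hT.ne')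
  apply mul_left_cancel₀ hT'
  rw [h4, Complex.real_smul]
  push_cast
  rfl

end Pool.Agent.Zk93.FT
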